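import Pool.Agent.Y228.HX.D3
import Pool.Agent.Y228.GN.Non
import Pool.Agent.Y228.ND4.H1
import Pool.Agent.W375.MG.Out

set_option autoImplicit false
set_option maxHeartbeats 400000

/-! # Project HX: the global motivic zeta functions of forms and of convenient polynomials -/

namespace Pool.Agent.Y228.HX

open MvPolynomial
open Pool.Agent.W428.MOT Pool.Agent.W749.MT
open Pool.Agent.W375.MG (Good GB0 GB1 constr_W constr_GB1 zetaG zetaW JetG good_one zetaW_eq)
open Pool.Agent.W426.SM (gord ford IsRay face)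
open Pool.Agent.W63.MTFin (mapMeas geo_sum L_mul)
open Pool.Agent.TH216.MF (frc frc_le cser FR evR geoR_mul ratR CR_mem XR_mem geoR_mem IsPol fac)
open Pool.Agent.Y229.CF.Mot (NonGJ sum')
open Pool.Agent.W425.ND (spa)
open Pool.Agent.Y229.CF (NondegC)
open Pool.Agent.Y228.GN (NondegP nonG_P)

section jets

variable {K : Type} [Field K] {n r : ℕ}

/-- **The zeta functions as sums over the faces.** -/
theorem zetaG_FRs [CharZero K] (m : Fin r → Fin n → ℕ) (hr0 : 0 < r) (c : Fin r → K)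
    (hNon : NonGJ ∅ m c) :
    ∃ M : Meas K (MK K), ∀ (W : Set (Pt K (Fin n))) (E : Set (AlgebraicClosure K)), Constr W →
      Good E → ∃ z0 : MK K, zetaG (sp 0 m c 1) W E =
        ∑ J : Finset (Fin n), FR (Lu K) m J (fun τ => M.χ _ (GB0 0 m c 1 W E J τ))
          (fun τ => M.χ _ (GB1 0 m c 1 W E J τ)) + PowerSeries.C z0 := by
  classical
  have h1 : S_K0 := Pool.Agent.W417.MT.K0.main
  have h5 : S_CP1 := Pool.Agent.W346.MTCp1.main
  have hFree : S_Free := Pool.Agent.W417.MT.Free.main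
  have hSub : S_Sub := Pool.Agent.W21.MTSub.main
  have hTay : S_Tay := Pool.Agent.W417.MT.Tay.main
  obtain ⟨M₀, hM₀⟩ := h1 K
  set M := mapMeas M₀ (algebraMap (K0 K) (MK K)) with hM
  refine ⟨M, fun W E hW hE => ?_⟩
  set Y : MK K := (((Lu K)⁻¹ : (MK K)ˣ) : MK K) with hY
  have hL : M.L * Y = 1 := L_mul hM₀
  have hML : M.L = ((Lu K : (MK K)ˣ) : MK K) := by
    have h2 : ((Lu K : (MK K)ˣ) : MK K) * Y = 1 := Units.mul_inv _
    calc M.L = M.L * (((Lu K : (MK K)ˣ) : MK K) * Y) := by rw [h2, mul_one]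
      _ = (M.L * Y) * ((Lu K : (MK K)ˣ) : MK K) := by ring
      _ = _ := by rw [hL, one_mul]
  have hsum := sum' hFree hSub hTay M 0 m c 1 hW hE ∅ hNon
    (fun _ _ i hi => absurd hi (Finset.notMem_empty i)) one_pos Y hL
  set C : Finset (Fin n) → Finset (Fin r) → PowerSeries (MK K) := fun J τ =>
    PowerSeries.map (evR (Lu K)) (cser m J τ) with hCdef
  have hCc : ∀ J τ N, PowerSeries.coeff N (C J τ) =
      Polynomial.eval₂ (Int.castRingHom (MK K)) Y (cp 0 m 1 J τ N N) := fun J τ N => by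
    simp only [hCdef, cser]
    rw [PowerSeries.coeff_map, PowerSeries.coeff_mk]
    rfl
  set D : Finset (Fin n) → Finset (Fin r) → PowerSeries (MK K) := fun J τ =>
    PowerSeries.mk fun N => ∑ l ∈ Finset.Icc 1 N,
      if 1 * l ≤ N then Y ^ l * PowerSeries.coeff (N - 1 * l) (C J τ) else 0
    with hDdef
  have hD : ∀ J τ, D J τ = PowerSeries.C Y * PowerSeries.X * C J τ * geoR (Lu K) (-1) 1 := by
    intro J τ
    have h6 := geo_sum Y (fun N => PowerSeries.coeff N (C J τ)) 1 one_pos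
    have h7 := geoR_mul (Lu K) (-1) 1 one_pos
    rw [show (1 : ℤ).toNat = 1 from rfl, zpow_neg_one] at h7
    have h9 : PowerSeries.mk (fun N => PowerSeries.coeff N (C J τ)) = C J τ := by
      ext N
      rw [PowerSeries.coeff_mk]
    rw [h9] at h6
    have h10 : D J τ * ((1 - PowerSeries.C Y * PowerSeries.X ^ 1) * geoR (Lu K) (-1) 1) =
        PowerSeries.C Y * PowerSeries.X ^ 1 * C J τ * geoR (Lu K) (-1) 1 := by
      rw [← h6, mul_assoc]
    rw [h7, mul_one, pow_one] at h10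
    exact h10
  set b0 : Finset (Fin n) → Finset (Fin r) → MK K := fun J τ => M.χ _ (GB0 0 m c 1 W E J τ)
    with hb0
  set b1 : Finset (Fin n) → Finset (Fin r) → MK K := fun J τ => M.χ _ (GB1 0 m c 1 W E J τ)
    with hb1
  set F : PowerSeries (MK K) := ∑ J : Finset (Fin n), FR (Lu K) m J (b0 J) (b1 J) with hF
  have hz : zetaG (sp 0 m c 1) W E =
      F - PowerSeries.C (PowerSeries.coeff 0 F) + PowerSeries.C (PowerSeries.coeff 0
        (zetaG (sp 0 m c 1) W E)) := by
    ext N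
    by_cases hN : N = 0
    · subst hN
      rw [map_add, map_sub, PowerSeries.coeff_C, if_pos rfl, PowerSeries.coeff_C, if_pos rfl,
        sub_self, zero_add]
    · rw [map_add, map_sub, PowerSeries.coeff_C, if_neg hN, PowerSeries.coeff_C, if_neg hN,
        sub_zero, add_zero, zetaG, PowerSeries.coeff_mk]
      have h6 := hsum N (by omega)
      have h7 : algebraMap (K0 K) (MK K) (cls (Fin n × Fin (N + 1))
          (JetG (sp 0 m c 1) W E N)) *
          (((Lu K) ^ (-((n * N : ℕ) : ℤ)) : (MK K)ˣ) : MK K) =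
          M.χ _ (JetG (sp 0 m c 1) W E N) * Y ^ (n * N) := by
        rw [zpow_neg, zpow_natCast, ← inv_pow, Units.val_pow_eq_pow_val, ← hM₀]
        rfl
      rw [h7, h6, hF, map_sum]
      refine Finset.sum_congr rfl fun J _ => ?_
      unfold FR
      rw [map_sum]
      refine Finset.sum_congr rfl fun τ _ => ?_
      change _ = PowerSeries.coeff N (PowerSeries.C (((Lu K : (MK K)ˣ) : MK K) ^ frc m J τ) *
        (PowerSeries.C (b0 J τ) * C J τ + PowerSeries.C (b1 J τ) *
          (PowerSeries.C Y * PowerSeries.X * C J τ * geoR (Lu K) (-1) 1)))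
      rw [← hD, ← hML, PowerSeries.coeff_C_mul, map_add, PowerSeries.coeff_C_mul,
        PowerSeries.coeff_C_mul, hCc, hDdef, PowerSeries.coeff_mk, Finset.mul_sum]
      congr 2
      refine Finset.sum_congr rfl fun i _ => ?_
      split_ifs with hi
      · rw [hCc, h5 0 m 1 J τ hr0 one_pos N (N - 1 * i) (Nat.sub_le _ _), mul_assoc]
      · rw [mul_zero]
  refine ⟨-PowerSeries.coeff 0 F + PowerSeries.coeff 0 (zetaG (sp 0 m c 1) W E), ?_⟩
  conv_lhs => rw [hz]
  rw [map_add (PowerSeries.C (R := MK K)), map_neg]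
  ring

/-- `f` does not vanish on a coordinate subspace different from the origin -/
def Conv (v : Fin r → Fin n → ℕ) : Prop := ∀ i, ∃ j, ∀ i', i' ≠ i → v j i' = 0

lemma cser_conv (hr0 : 0 < r) (m : Fin r → Fin n → ℕ) (hC : Conv m) (J : Finset (Fin n))
    (hJ : J ≠ Finset.univ) (τ : Finset (Fin r)) (M : ℕ) (hM : M ≠ 0) :
    PowerSeries.coeff M (cser m J τ) = 0 := by
  classical
  unfold cser
  rw [PowerSeries.coeff_mk]
  unfold cp
  refine Finset.sum_eq_zero fun u hu => ?_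
  exfalso
  obtain ⟨-, h1, -, h3⟩ := Finset.mem_filter.1 hu
  obtain ⟨i, hi⟩ : ∃ i, i ∉ J := by
    by_contra hcon
    push Not at hcon
    exact hJ (Finset.eq_univ_iff_forall.2 hcon)
  obtain ⟨j, hj⟩ := hC i
  have h4 : ford 0 m 1 u = gord m u := by
    unfold ford
    simp
  have h5 : u i = 0 := by
    by_contra hcon
    exact hi ((h1 i).1 hcon)
  have h6 : ∑ i, u i * m j i = 0 := by
    refine Finset.sum_eq_zero fun i' _ => ?_
    by_cases h7 : i' = i
    · rw [h7, h5, zero_mul]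
    · rw [hj i' h7, mul_zero]
  have h7 := Pool.Agent.W803.SM.gord_le m u j
  omega

lemma FR_conv {R : Type} [CommRing R] (u : Rˣ) (S : Set (ℤ × ℤ))
    (hS1 : ((-1 : ℤ), (1 : ℤ)) ∈ S) (hr0 : 0 < r) (m : Fin r → Fin n → ℕ) (hC : Conv m)
    (J : Finset (Fin n)) (hJ : J ≠ Finset.univ) (b0 b1 : Finset (Fin r) → R) :
    FR u m J b0 b1 ∈ ratR u S := by
  have h1 : ∀ τ, PowerSeries.map (evR u) (cser m J τ) = PowerSeries.C (PowerSeries.coeff 0
      (PowerSeries.map (evR u) (cser m J τ))) := by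
    intro τ
    ext M
    rw [PowerSeries.coeff_C]
    by_cases hM : M = 0
    · rw [hM, if_pos rfl]
    · rw [if_neg hM, PowerSeries.coeff_map, cser_conv hr0 m hC J hJ τ M hM, map_zero]
  unfold FR
  refine (ratR u S).sum_mem fun τ _ => ?_
  rw [h1 τ]
  exact (ratR u S).mul_mem (CR_mem u S _) ((ratR u S).add_mem ((ratR u S).mul_mem
    (CR_mem u S _) (CR_mem u S _)) ((ratR u S).mul_mem (CR_mem u S _) ((ratR u S).mul_mem
      ((ratR u S).mul_mem ((ratR u S).mul_mem (CR_mem u S _) (XR_mem u S)) (CR_mem u S _))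
        (geoR_mem u (p := ((-1 : ℤ), (1 : ℤ))) hS1))))

/-- **convenient polynomials: the global zeta function from the local one** -/
theorem conv_global [CharZero K] (m : Fin r → Fin n → ℕ) (hr0 : 0 < r) (c : Fin r → K)
    (hNon : NonGJ ∅ m c) (hC : Conv m) (φ : MK K →+* RatFunc ℚ)
    (hφ : φ ((Lu K : (MK K)ˣ) : MK K) = RatFunc.X) (S : Set (ℤ × ℤ))
    (hS1 : ((-1 : ℤ), (1 : ℤ)) ∈ S)
    (h : PowerSeries.map φ (zeta (sp 0 m c 1) 0) ∈ ratR uX S) :
    PowerSeries.map φ (zetaG (sp 0 m c 1) Set.univ {1}) ∈ ratR uX S := by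
  classical
  have hu : Units.map (φ : MK K →* RatFunc ℚ) (Lu K) = uX := Units.ext hφ
  obtain ⟨M, hM⟩ := zetaG_FRs m hr0 c hNon
  obtain ⟨z1, h1⟩ := hM Set.univ {1} Constr.univ good_one
  obtain ⟨z2, h2⟩ := hM (W00 K n) {1} (Pool.Agent.W425.MM.constr_pt (0 : Fin n → K)) good_one
  rw [zeta_zetaG, map_sub, PowerSeries.map_C] at h
  have h' : PowerSeries.map φ (zetaG (sp 0 m c 1) (W00 K n) {1}) ∈ ratR uX S := by
    have := (ratR uX S).add_mem h (CR_mem uX S (φ (PowerSeries.coeff 0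
      (zetaG (sp 0 m c 1) (W00 K n) {1}))))
    rwa [sub_add_cancel] at this
  have hmem : ∀ b0 b1 J, J ≠ Finset.univ → PowerSeries.map φ (FR (Lu K) m J b0 b1) ∈ ratR uX S := by
    intro b0 b1 J hJ
    rw [FR_map, hu]
    exact FR_conv uX S hS1 hr0 m hC J hJ _ _
  have e0 : ∀ τ, GB0 0 m c 1 Set.univ {1} Finset.univ τ =
      GB0 0 m c 1 (W00 K n) {1} Finset.univ τ := by
    intro τ
    ext z
    simp only [GB0, Set.mem_ofPred_eq, Finset.mem_univ, if_true, Set.mem_univ, true_and]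
    have h3 : (fun _ : Fin n => (0 : AlgebraicClosure K)) ∈ W00 K n := by
      rw [mem_W00]
      intro i
      rfl
    simp only [h3, true_and]
  have e1 : ∀ τ, GB1 0 m c 1 Set.univ {1} Finset.univ τ =
      GB1 0 m c 1 (W00 K n) {1} Finset.univ τ := by
    intro τ
    ext z
    simp only [GB1, Set.mem_ofPred_eq, Finset.mem_univ, if_true, Set.mem_univ, true_and]
    have h3 : (fun _ : Fin n => (0 : AlgebraicClosure K)) ∈ W00 K n := by
      rw [mem_W00]
      intro i
      rfl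
    simp only [h3, true_and]
  rw [← Finset.add_sum_erase _ _ (Finset.mem_univ (Finset.univ : Finset (Fin n)))] at h1 h2
  rw [h2] at h'
  rw [map_add, map_add, map_sum, PowerSeries.map_C] at h'
  rw [h1, map_add, map_add, map_sum, PowerSeries.map_C]
  have h4 : ∀ W E, ∑ J ∈ (Finset.univ : Finset (Finset (Fin n))).erase Finset.univ,
      PowerSeries.map φ (FR (Lu K) m J (fun τ => M.χ _ (GB0 0 m c 1 W E J τ))
        (fun τ => M.χ _ (GB1 0 m c 1 W E J τ))) ∈ ratR uX S := fun W E =>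
    (ratR uX S).sum_mem fun J hJ => hmem _ _ J (Finset.ne_of_mem_erase hJ)
  have h5 : PowerSeries.map φ (FR (Lu K) m Finset.univ
      (fun τ => M.χ _ (GB0 0 m c 1 Set.univ {1} Finset.univ τ))
      (fun τ => M.χ _ (GB1 0 m c 1 Set.univ {1} Finset.univ τ))) ∈ ratR uX S := by
    have h6 : (fun τ => M.χ _ (GB0 0 m c 1 Set.univ {1} Finset.univ τ)) =
        fun τ => M.χ _ (GB0 0 m c 1 (W00 K n) {1} Finset.univ τ) := funext fun τ => by rw [e0]
    have h7 : (fun τ => M.χ _ (GB1 0 m c 1 Set.univ {1} Finset.univ τ)) =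
        fun τ => M.χ _ (GB1 0 m c 1 (W00 K n) {1} Finset.univ τ) := funext fun τ => by rw [e1]
    rw [h6, h7]
    have h8 := (ratR uX S).sub_mem ((ratR uX S).sub_mem h' (CR_mem uX S (φ z2)))
      (h4 (W00 K n) {1})
    have h9 : ∀ A B D : PowerSeries (RatFunc ℚ), A + B + D - D - B = A := fun A B D => by ring
    rwa [h9] at h8
  exact (ratR uX S).add_mem ((ratR uX S).add_mem h5 (h4 _ _)) (CR_mem uX S _)

/-- **forms: the global zeta function from the local one** -/
theorem form_global [CharZero K] {d : ℕ} (hd : 0 < d) (f : MvPolynomial (Fin n) K)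
    (hf : f.IsHomogeneous d) (φ : MK K →+* RatFunc ℚ) (S : Set (ℤ × ℤ)) (hS : ∀ p ∈ S, 0 < p.2)
    (h : PowerSeries.map φ (zeta f 0) ∈ ratR uX S) :
    PowerSeries.map φ (zetaG f Set.univ {1}) ∈ ratR uX S := by
  have hW0 : W00 K n = {0} := by
    unfold W00
    congr 1
    funext i
    simp
  have h0 : Constr ({0} : Set (Pt K (Fin n))) := by
    have h1 := Pool.Agent.W425.MM.constr_pt (K := K) (0 : Fin n → K)
    have e : ({fun i => algebraMap K (AlgebraicClosure K) ((0 : Fin n → K) i)} :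
        Set (Pt K (Fin n))) = {0} := by
      congr 1
      funext i
      simp
    rwa [e] at h1
  rw [zeta_zetaG, map_sub, PowerSeries.map_C, hW0] at h
  have h' : PowerSeries.map φ (zetaG f {0} {1}) ∈ ratR uX S := by
    have := (ratR uX S).add_mem h (CR_mem uX S (φ (PowerSeries.coeff 0 (zetaG f {0} {1}))))
    rwa [sub_add_cancel] at this
  rw [Pool.Agent.Y228.ND4.zeta_hom hd hf good_one h0, map_mul, map_pow, PowerSeries.map_X,
    map_mul, PowerSeries.map_C] at h'
  have h1 : ∀ (d : ℕ) (G : PowerSeries (RatFunc ℚ)), PowerSeries.X ^ d * G ∈ ratR uX S →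
      G ∈ ratR uX S := by
    intro d
    induction d with
    | zero =>
      intro G hG
      rwa [pow_zero, one_mul] at hG
    | succ d ih =>
      intro G hG
      refine ih G (ratR_divX uX hS _ ?_)
      rw [← mul_assoc, ← pow_succ']
      exact hG
  have h2 := h1 d _ h'
  set A : MK K := (((Lu K) ^ (-(n : ℤ)) : (MK K)ˣ) : MK K) with hA
  set B : MK K := (((Lu K) ^ (n : ℤ) : (MK K)ˣ) : MK K) with hB
  have h3 : B * A = 1 := by
    rw [hA, hB, ← Units.val_mul, ← zpow_add, add_neg_cancel, zpow_zero, Units.val_one]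
  have h4 : PowerSeries.map φ (zetaG f Set.univ {1}) = PowerSeries.C (φ B) *
      (PowerSeries.C (φ A) * PowerSeries.map φ (zetaG f Set.univ {1})) := by
    rw [← mul_assoc, ← map_mul, ← map_mul, h3, map_one, map_one, one_mul]
  rw [h4]
  exact (ratR uX S).mul_mem (CR_mem uX S _) h2

end jets

theorem hom_sumX {K : Type} [Field K] {r d n : ℕ} (v : Fin r → Fin n → ℕ) (c : Fin r → K)
    (hd : ∀ j, ∑ i, v j i = d) : (spa v c).IsHomogeneous d := by
  unfold spa
  refine IsHomogeneous.sum _ _ _ fun j _ => ?_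
  have h1 : (∏ i, X i ^ v j i : MvPolynomial (Fin n) K).IsHomogeneous (∑ i, v j i) :=
    IsHomogeneous.prod _ _ _ fun i _ => by
      have h2 := (isHomogeneous_X K i).pow (v j i)
      rwa [one_mul] at h2
  rw [hd] at h1
  have h2 := (isHomogeneous_C (Fin n) (c j)).mul h1
  rwa [zero_add] at h2

/-- **The motivic monodromy conjecture for the `χ_y`-genus, global zeta function.** -/
theorem hodgeG (k : Type) [Field k] [Algebra k ℂ] {n r : ℕ} (hr : 0 < r)
    (v : Fin r → Fin n → ℕ) (c : Fin r → k) (hv : Function.Injective v) (hv0 : ∀ j, v j ≠ 0)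
    (hc : ∀ j, c j ≠ 0) (hnd : NondegC v (fun j => algebraMap k ℂ (c j)))
    (hG : (∃ d : ℕ, ∀ j, ∑ i, v j i = d) ∨
      (NondegP v (fun j => algebraMap k ℂ (c j)) ∧ Conv v)) :
    ∃ S : Finset (ℤ × ℤ),
      (∀ p ∈ S, p.1 < 0 ∧ 0 < p.2 ∧ ∀ b : Polynomial ℂ,
        Pool.Agent.H628R4.TP.IsLocalBFunction (spa v (fun j => algebraMap k ℂ (c j))) b →
          ∃ i : ℤ, b.eval ((p.1 : ℂ) / p.2 - i) = 0) ∧
      ∀ (K : Type) [Field K] [Algebra k K] (φ : MK K →+* RatFunc ℚ), ChiY φ →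
        PowerSeries.map φ (zetaW (spa v (fun j => algebraMap k K (c j))) Set.univ) ∈
          ratR uX S := by
  classical
  obtain ⟨S, hS, hz⟩ := hodge k hr v c hv hv0 hc hnd
  refine ⟨insert (-1, 1) S, fun p hp => ?_, fun K _ _ φ hφ => ?_⟩
  · rcases Finset.mem_insert.1 hp with rfl | hp
    · refine ⟨by norm_num, by norm_num, fun b hb => ⟨0, ?_⟩⟩
      have h1 : (((-1 : ℤ) : ℂ) / ((1 : ℤ) : ℂ) - ((0 : ℤ) : ℂ)) = -1 := by
        push_cast
        ring
      rw [h1]
      exact (Pool.Agent.Y229.CF.of_local' v (by omega) _ hv hv0 hnd b hb).1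
    · exact hS p hp
  · have hkc : CharZero k := RingHom.charZero (algebraMap k ℂ)
    have hK : CharZero K := charZero_of_injective_algebraMap (algebraMap k K).injective
    have hmono : ∀ F : PowerSeries (RatFunc ℚ), F ∈ ratR uX (S : Set (ℤ × ℤ)) →
        F ∈ ratR uX ((insert (-1, 1) S : Finset (ℤ × ℤ)) : Set (ℤ × ℤ)) := by
      intro F hF
      have h1 : ({PowerSeries.X} ∪ {g | ∃ p ∈ (S : Set (ℤ × ℤ)), g = geoR uX p.1 p.2} :
          Set (PowerSeries (RatFunc ℚ))) ⊆ {PowerSeries.X} ∪ {g | ∃ p ∈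
            ((insert (-1, 1) S : Finset (ℤ × ℤ)) : Set (ℤ × ℤ)), g = geoR uX p.1 p.2} := by
        rintro g (hg | ⟨p, hp, hg⟩)
        · exact Or.inl hg
        · exact Or.inr ⟨p, Finset.mem_coe.2 (Finset.mem_insert_of_mem (Finset.mem_coe.1 hp)), hg⟩
      exact Algebra.adjoin_mono h1 hF
    have h0 := hmono _ (hz K φ hφ)
    have hpos : ∀ p ∈ ((insert (-1, 1) S : Finset (ℤ × ℤ)) : Set (ℤ × ℤ)), 0 < p.2 := by
      intro p hp
      rcases Finset.mem_insert.1 (Finset.mem_coe.1 hp) with rfl | hp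
      · norm_num
      · exact (hS p hp).2.1
    rw [zetaW_eq]
    rcases hG with ⟨d, hvd⟩ | ⟨hP, hC⟩
    · have hd : 0 < d := by
        have h1 := hvd ⟨0, hr⟩
        by_contra h2
        apply hv0 ⟨0, hr⟩
        funext i
        have h3 : v ⟨0, hr⟩ i ≤ ∑ i, v ⟨0, hr⟩ i :=
          Finset.single_le_sum (f := fun i => v ⟨0, hr⟩ i) (fun _ _ => Nat.zero_le _)
            (Finset.mem_univ i)
        change v ⟨0, hr⟩ i = 0
        omega
      exact form_global hd _ (hom_sumX v _ hvd) φ _ hpos h0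
    · have hspa : ∀ {K : Type} [Field K] (c' : Fin r → K), spa v c' = sp 0 v c' 1 := by
        intro K _ c'
        unfold sp spa
        simp
      rw [hspa] at h0 ⊢
      have hNG := nonG_P k K v c hr hP
      exact conv_global v hr _ (fun u _ z h1 h2 => hNG u z h1 h2) hC φ hφ.1 _
        (Finset.mem_coe.2 (Finset.mem_insert_self _ _)) h0

end Pool.Agent.Y228.HX
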