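import Pool.Agent.TH216.MF.MotE

set_option autoImplicit false
set_option maxHeartbeats 400000

/-! # Project HX: division by `T` in the ring of the rational functions -/

namespace Pool.Agent.Y228.HX

open Pool.Agent.TH216.MF (ratR geoR_mul geoR_mem polyR_mem)
open Pool.Agent.W428.MOT (geoR)

variable {R : Type} [CommRing R] (u : Rˣ)

/-- the denominators -/
noncomputable def den (p : ℤ × ℤ) : Polynomial R :=
  1 - Polynomial.C ((u ^ p.1 : Rˣ) : R) * Polynomial.X ^ p.2.toNat

lemma den_geo (p : ℤ × ℤ) (hp : 0 < p.2) :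
    (den u p : PowerSeries R) * geoR u p.1 p.2 = 1 := by
  have h := geoR_mul u p.1 p.2 hp
  unfold den
  rw [Polynomial.coe_sub, Polynomial.coe_one, Polynomial.coe_mul, Polynomial.coe_C,
    Polynomial.coe_pow, Polynomial.coe_X]
  exact h

lemma prod_geo (L : List (ℤ × ℤ)) (hL : ∀ p ∈ L, 0 < p.2) :
    ((L.map (den u)).prod : PowerSeries R) * (L.map fun p => geoR u p.1 p.2).prod = 1 := by
  induction L with
  | nil => simp
  | cons p L ih =>
    have h1 := ih fun p hp => hL p (List.mem_cons_of_mem _ hp)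
    have h2 := den_geo u p (hL p List.mem_cons_self)
    rw [List.map_cons, List.prod_cons, List.map_cons, List.prod_cons, Polynomial.coe_mul]
    linear_combination h2 + (den u p : PowerSeries R) * geoR u p.1 p.2 * h1

lemma ratR_frac {S : Set (ℤ × ℤ)} (hS : ∀ p ∈ S, 0 < p.2) (F : PowerSeries R)
    (hF : F ∈ ratR u S) : ∃ (L : List (ℤ × ℤ)) (P : Polynomial R), (∀ p ∈ L, p ∈ S) ∧
      F * ((L.map (den u)).prod : Polynomial R) = (P : PowerSeries R) := by
  unfold ratR at hF
  induction hF using Algebra.adjoin_induction with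
  | mem x hx =>
    rcases hx with hx | ⟨p, hp, rfl⟩
    · rw [Set.mem_singleton_iff.1 hx]
      exact ⟨[], Polynomial.X, fun p hp => absurd hp List.not_mem_nil, by simp⟩
    · refine ⟨[p], 1, fun q hq => by rw [List.mem_singleton.1 hq]; exact hp, ?_⟩
      rw [List.map_singleton, List.prod_singleton, mul_comm, den_geo u p (hS p hp),
        Polynomial.coe_one]
  | algebraMap r =>
    exact ⟨[], Polynomial.C r, fun p hp => absurd hp List.not_mem_nil, by
      simp⟩
  | add x y hx hy ihx ihy =>
    obtain ⟨L1, P1, h1, e1⟩ := ihx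
    obtain ⟨L2, P2, h2, e2⟩ := ihy
    refine ⟨L1 ++ L2, P1 * (L2.map (den u)).prod + P2 * (L1.map (den u)).prod, fun p hp => ?_, ?_⟩
    · rcases List.mem_append.1 hp with h | h
      · exact h1 p h
      · exact h2 p h
    · rw [List.map_append, List.prod_append]
      push_cast
      rw [← e1, ← e2]
      ring
  | mul x y hx hy ihx ihy =>
    obtain ⟨L1, P1, h1, e1⟩ := ihx
    obtain ⟨L2, P2, h2, e2⟩ := ihy
    refine ⟨L1 ++ L2, P1 * P2, fun p hp => ?_, ?_⟩
    · rcases List.mem_append.1 hp with h | h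
      · exact h1 p h
      · exact h2 p h
    · rw [List.map_append, List.prod_append]
      push_cast
      rw [← e1, ← e2]
      ring

/-- **division by `T`** -/
theorem ratR_divX {S : Set (ℤ × ℤ)} (hS : ∀ p ∈ S, 0 < p.2) (G : PowerSeries R)
    (h : PowerSeries.X * G ∈ ratR u S) : G ∈ ratR u S := by
  obtain ⟨L, P, hL, hP⟩ := ratR_frac u hS _ h
  have h0 : P.coeff 0 = 0 := by
    have h1 := congrArg (PowerSeries.coeff 0) hP
    rw [mul_assoc, PowerSeries.coeff_zero_X_mul, Polynomial.coeff_coe] at h1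
    exact h1.symm
  obtain ⟨P', rfl⟩ := Polynomial.X_dvd_iff.2 h0
  have h1 : G * ((L.map (den u)).prod : Polynomial R) = (P' : PowerSeries R) := by
    ext n
    have h2 := congrArg (PowerSeries.coeff (n + 1)) hP
    rw [mul_assoc, PowerSeries.coeff_succ_X_mul, Polynomial.coe_mul, Polynomial.coe_X,
      PowerSeries.coeff_succ_X_mul] at h2
    exact h2
  have h2 := prod_geo u L fun p hp => hS p (hL p hp)
  have h3 : G = (P' : PowerSeries R) * (L.map fun p => geoR u p.1 p.2).prod := by
    rw [← h1, mul_assoc]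
    rw [h2, mul_one]
  rw [h3]
  refine (ratR u S).mul_mem (polyR_mem u S _) ?_
  refine (ratR u S).list_prod_mem fun x hx => ?_
  obtain ⟨p, hp, rfl⟩ := List.mem_map.1 hx
  exact geoR_mem u (hL p hp)

end Pool.Agent.Y228.HX
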