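import Pool.Agent.TH216.ID.Id3

set_option autoImplicit false
set_option maxHeartbeats 400000

/-! # Project HX: the jets of `∑ y_i f_i` at the origin and at the points `(0, y)` -/

namespace Pool.Agent.Y228.HX

open MvPolynomial
open Pool.Agent.W428.MOT Pool.Agent.W749.JI
open Pool.Agent.W375.MG (zetaG JetG Good good_one constr_JetG)
open Pool.Agent.W375.MT (coeff_aeval_congr)
open Pool.Agent.W63.MTFin (mapMeas L_mul C_mem)
open Pool.Agent.TH216.ID (gp W0 px aeval_gp constr_W0)

variable {K : Type} [Field K] {n r N : ℕ}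

/-- the origin -/
def W00 (K : Type) [Field K] (d : ℕ) : Set (Pt K (Fin d)) :=
  {fun i => algebraMap K (AlgebraicClosure K) ((0 : Fin d → K) i)}

lemma mem_W00 (d : ℕ) (z : Pt K (Fin d)) : z ∈ W00 K d ↔ ∀ i, z i = 0 := by
  unfold W00
  rw [Set.mem_singleton_iff]
  constructor
  · intro h i
    rw [h]
    simp
  · intro h
    funext i
    rw [h i]
    simp

/-- `y = t y'` -/
noncomputable def up (z : Pt K (Fin (n + r) × Fin (N + 1))) :
    Pt K (Fin (n + r) × Fin (N + 1 + 1)) := fun p =>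
  Fin.addCases (fun v => if h : (p.2 : ℕ) < N + 1 then z (Fin.castAdd r v, ⟨p.2, h⟩) else 0)
    (fun i => if h : 0 < (p.2 : ℕ) then z (Fin.natAdd n i, ⟨p.2 - 1, by omega⟩) else 0) p.1

/-- `y' = y / t` -/
def dn (z : Pt K (Fin (n + r) × Fin (N + 1 + 1))) : Pt K (Fin (n + r) × Fin (N + 1)) := fun p =>
  Fin.addCases (fun v => z (Fin.castAdd r v, ⟨p.2, by omega⟩))
    (fun i => z (Fin.natAdd n i, ⟨p.2 + 1, by omega⟩)) p.1

lemma up_l (z : Pt K (Fin (n + r) × Fin (N + 1))) (v : Fin n) (j : Fin (N + 1 + 1)) :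
    up z (Fin.castAdd r v, j) = if h : (j : ℕ) < N + 1 then z (Fin.castAdd r v, ⟨j, h⟩) else 0 := by
  unfold up
  simp

lemma up_r (z : Pt K (Fin (n + r) × Fin (N + 1))) (i : Fin r) (j : Fin (N + 1 + 1)) :
    up z (Fin.natAdd n i, j) =
      if h : 0 < (j : ℕ) then z (Fin.natAdd n i, ⟨j - 1, by omega⟩) else 0 := by
  unfold up
  simp

lemma dn_l (z : Pt K (Fin (n + r) × Fin (N + 1 + 1))) (v : Fin n) (j : Fin (N + 1)) :
    dn z (Fin.castAdd r v, j) = z (Fin.castAdd r v, ⟨j, by omega⟩) := by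
  unfold dn
  simp

lemma dn_r (z : Pt K (Fin (n + r) × Fin (N + 1 + 1))) (i : Fin r) (j : Fin (N + 1)) :
    dn z (Fin.natAdd n i, j) = z (Fin.natAdd n i, ⟨j + 1, by omega⟩) := by
  unfold dn
  simp

lemma arc_up_r (z : Pt K (Fin (n + r) × Fin (N + 1))) (i : Fin r) :
    arc (up z) (Fin.natAdd n i) = PowerSeries.X * arc z (Fin.natAdd n i) := by
  ext j
  rcases j with _ | j
  · rw [PowerSeries.coeff_zero_X_mul]
    unfold arc
    rw [PowerSeries.coeff_mk, dif_pos (Nat.succ_pos _), up_r, dif_neg (by simp)]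
  · rw [PowerSeries.coeff_succ_X_mul]
    unfold arc
    rw [PowerSeries.coeff_mk, PowerSeries.coeff_mk]
    by_cases h : j < N + 1
    · rw [dif_pos (by omega), dif_pos h, up_r, dif_pos (by simp)]
      congr 1
    · rw [dif_neg (by omega), dif_neg h]

lemma arc_up_l (z : Pt K (Fin (n + r) × Fin (N + 1))) (v : Fin n) :
    arc (up z) (Fin.castAdd r v) = arc z (Fin.castAdd r v) := by
  ext j
  unfold arc
  rw [PowerSeries.coeff_mk, PowerSeries.coeff_mk]
  by_cases h : j < N + 1
  · rw [dif_pos (by omega), dif_pos h, up_l, dif_pos h]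
  · rw [dif_neg h]
    by_cases h' : j < N + 1 + 1
    · rw [dif_pos h', up_l, dif_neg h]
    · rw [dif_neg h']

lemma aeval_up (f : Fin r → MvPolynomial (Fin n) K) (z : Pt K (Fin (n + r) × Fin (N + 1))) :
    aeval (arc (up z)) (gp f) = PowerSeries.X * aeval (arc z) (gp f) := by
  rw [aeval_gp, aeval_gp, Finset.mul_sum]
  refine Finset.sum_congr rfl fun i _ => ?_
  rw [arc_up_r]
  have h1 : arc (px (up z)) = arc (px z) := by
    funext v
    have h2 := arc_up_l z v
    exact h2
  rw [h1]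
  ring

/-- the top coefficients of the `x_v` -/
def Cx (n r N : ℕ) : Finset (Fin (n + r) × Fin (N + 1 + 1)) :=
  Finset.univ.map ⟨fun v : Fin n => (Fin.castAdd r v, Fin.last (N + 1)), fun a b h => by
    have h1 := congrArg Prod.fst h
    simpa using h1⟩

lemma mem_Cx (p : Fin (n + r) × Fin (N + 1 + 1)) :
    p ∈ Cx n r N ↔ ∃ v, p = (Fin.castAdd r v, Fin.last (N + 1)) := by
  unfold Cx
  simp only [Finset.mem_map, Finset.mem_univ, true_and, Function.Embedding.coeFn_mk]
  constructor
  · rintro ⟨v, hv⟩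
    exact ⟨v, hv.symm⟩
  · rintro ⟨v, hv⟩
    exact ⟨v, hv.symm⟩

lemma card_Cx : (Cx n r N).card = n := by
  unfold Cx
  rw [Finset.card_map, Finset.card_univ, Fintype.card_fin]

/-- the top coefficients of the `x_v` do not matter if `y(0) = 0` -/
lemma coeff_top (f : Fin r → MvPolynomial (Fin n) K)
    (z w : Pt K (Fin (n + r) × Fin (N + 1 + 1))) (h : ∀ p, p ∉ Cx n r N → w p = z p)
    (hz : ∀ i : Fin r, z (Fin.natAdd n i, 0) = 0) (j : ℕ) (hj : j ≤ N + 1) :
    PowerSeries.coeff j (aeval (arc w) (gp f)) = PowerSeries.coeff j (aeval (arc z) (gp f)) := by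
  rw [aeval_gp, aeval_gp, map_sum, map_sum]
  refine Finset.sum_congr rfl fun i _ => ?_
  have hy : arc w (Fin.natAdd n i) = arc z (Fin.natAdd n i) := by
    ext k
    unfold arc
    rw [PowerSeries.coeff_mk, PowerSeries.coeff_mk]
    by_cases hk : k < N + 1 + 1
    · rw [dif_pos hk, dif_pos hk]
      refine h _ fun h' => ?_
      obtain ⟨v, hv⟩ := (mem_Cx _).1 h'
      have h1 := congrArg (fun p => (p.1 : ℕ)) hv
      simp only [Fin.val_natAdd, Fin.val_castAdd] at h1
      have := v.2
      omega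
    · rw [dif_neg hk, dif_neg hk]
  have hy0 : PowerSeries.coeff 0 (arc z (Fin.natAdd n i)) = 0 := by
    unfold arc
    rw [PowerSeries.coeff_mk, dif_pos (Nat.succ_pos _)]
    exact hz i
  rw [hy, PowerSeries.coeff_mul, PowerSeries.coeff_mul]
  refine Finset.sum_congr rfl fun p hp => ?_
  have hp' : p.1 + p.2 = j := by simpa using hp
  by_cases hp0 : p.1 = 0
  · rw [hp0, hy0, zero_mul, zero_mul]
  · congr 1
    refine coeff_aeval_congr (f i) p.2 _ _ (fun v k hk => ?_) p.2 le_rfl
    unfold arc px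
    rw [PowerSeries.coeff_mk, PowerSeries.coeff_mk]
    have hk' : k < N + 1 + 1 := by omega
    rw [dif_pos hk', dif_pos hk']
    refine h _ fun h' => ?_
    obtain ⟨v', hv'⟩ := (mem_Cx _).1 h'
    have h1 := congrArg (fun p => (p.2 : ℕ)) hv'
    simp only [Fin.val_last] at h1
    omega

/-- **the shift** -/
lemma chi_shift (h1 : S_Free) {R : Type} [CommRing R] (M : Meas K R)
    (f : Fin r → MvPolynomial (Fin n) K) (N : ℕ) :
    M.χ _ (JetG (gp f) (W00 K (n + r)) {1} (N + 1)) =
      M.χ _ (JetG (gp f) (W0 K n r) {1} N) * M.L ^ n := by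
  classical
  have hc : Constr (JetG (gp f) (W00 K (n + r)) {1} (N + 1)) :=
    constr_JetG _ (Pool.Agent.W425.MM.constr_pt (0 : Fin (n + r) → K)) good_one _
  have hc0 : Constr (JetG (gp f) (W0 K n r) {1} N) := constr_JetG _ constr_W0 good_one _
  have e1 := h1 M (JetG (gp f) (W00 K (n + r)) {1} (N + 1)) ∅ (Cx n r N) (fun _ => 0)
    (Finset.disjoint_empty_left _) hc (fun z w h hz => by
      have h' : ∀ p, p ∉ Cx n r N → w p = z p := fun p hp => h p (by simp) hp
      obtain ⟨a1, a2, a3⟩ := hz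
      have a1' := (mem_W00 _ _).1 a1
      have hy : ∀ i : Fin r, z (Fin.natAdd n i, 0) = 0 := fun i => a1' _
      refine ⟨?_, fun j hj => ?_, ?_⟩
      · rw [mem_W00]
        intro i
        rw [h' (i, 0) fun hm => ?_]
        · exact a1' i
        · obtain ⟨v, hv⟩ := (mem_Cx _).1 hm
          have h2 := congrArg (fun p => (p.2 : ℕ)) hv
          simp at h2
      · rw [coeff_top f z w h' hy j (by omega)]
        exact a2 j hj
      · rw [coeff_top f z w h' hy (N + 1) le_rfl]
        exact a3)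
  simp only [Finset.notMem_empty, false_implies, implies_true, Set.ofPred_true, Set.inter_univ,
    Finset.empty_union, map_zero, Finset.card_empty, pow_zero, mul_one] at e1
  rw [card_Cx] at e1
  rw [e1]
  congr 1
  symm
  have hcc : Constr (JetG (gp f) (W00 K (n + r)) {1} (N + 1) ∩ {z | ∀ i ∈ Cx n r N, z i = 0}) :=
    Constr.and hc (Constr.ballFinset _ fun i _ => Constr.eqz (IsPF.coord _))
  have hdu : ∀ z : Pt K (Fin (n + r) × Fin (N + 1)), dn (up z) = z := by
    intro z
    funext p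
    obtain ⟨i, j⟩ := p
    refine Fin.addCases (fun v => ?_) (fun i => ?_) i
    · rw [dn_l, up_l, dif_pos j.2]
    · rw [dn_r, up_r, dif_pos (by simp)]
      congr 1
  have hud : ∀ z : Pt K (Fin (n + r) × Fin (N + 1 + 1)), (∀ i : Fin r, z (Fin.natAdd n i, 0) = 0) →
      (∀ v : Fin n, z (Fin.castAdd r v, Fin.last (N + 1)) = 0) → up (dn z) = z := by
    intro z h2 h3
    funext p
    obtain ⟨i, j⟩ := p
    refine Fin.addCases (fun v => ?_) (fun i => ?_) i
    · rw [up_l]
      by_cases hj : (j : ℕ) < N + 1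
      · rw [dif_pos hj, dn_l]
      · rw [dif_neg hj]
        have h4 : j = Fin.last (N + 1) := by
          apply Fin.ext
          rw [Fin.val_last]
          have := j.2
          omega
        rw [h4, h3 v]
    · rw [up_r]
      by_cases hj : 0 < (j : ℕ)
      · rw [dif_pos hj, dn_r]
        congr 1
        refine Prod.ext rfl ?_
        apply Fin.ext
        show (j : ℕ) - 1 + 1 = j
        omega
      · rw [dif_neg hj]
        have h4 : j = 0 := by
          apply Fin.ext
          rw [Fin.val_zero]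
          omega
        rw [h4, h2 i]
  refine M.iso _ _ hc0 hcc up dn (regularOn_poly (fun p => ?_) _) (regularOn_poly (fun p => ?_) _)
    ?_ ?_ ?_ ?_
  · obtain ⟨i, j⟩ := p
    refine Fin.addCases (fun v => ?_) (fun i => ?_) i
    · by_cases hj : (j : ℕ) < N + 1
      · simp only [up_l, dif_pos hj]
        exact IsPF.coord _
      · simp only [up_l, dif_neg hj]
        exact IsPF.zero
    · by_cases hj : 0 < (j : ℕ)
      · simp only [up_r, dif_pos hj]
        exact IsPF.coord _
      · simp only [up_r, dif_neg hj]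
        exact IsPF.zero
  · obtain ⟨i, j⟩ := p
    refine Fin.addCases (fun v => ?_) (fun i => ?_) i
    · simp only [dn_l]
      exact IsPF.coord _
    · simp only [dn_r]
      exact IsPF.coord _
  · rintro z ⟨a1, a2, a3⟩
    refine ⟨⟨?_, fun j hj => ?_, ?_⟩, fun p hp => ?_⟩
    · rw [mem_W00]
      intro i
      refine Fin.addCases (fun v => ?_) (fun i => ?_) i
      · rw [up_l, dif_pos (by simp)]
        exact a1 v
      · rw [up_r, dif_neg (by simp)]
    · rw [aeval_up]
      rcases j with _ | j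
      · rw [PowerSeries.coeff_zero_X_mul]
      · rw [PowerSeries.coeff_succ_X_mul]
        exact a2 j (by omega)
    · rw [aeval_up, PowerSeries.coeff_succ_X_mul]
      exact a3
    · obtain ⟨v, rfl⟩ := (mem_Cx _).1 hp
      rw [up_l, dif_neg (by simp)]
  · rintro z ⟨⟨a1, a2, a3⟩, a4⟩
    have a1' := (mem_W00 _ _).1 a1
    have hu := hud z (fun i => a1' _) fun v => a4 _ ((mem_Cx _).2 ⟨v, rfl⟩)
    rw [← hu, aeval_up, PowerSeries.coeff_succ_X_mul] at a3
    refine ⟨fun v => ?_, fun j hj => ?_, a3⟩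
    · beta_reduce
      rw [dn_l]
      exact a1' (Fin.castAdd r v)
    · have h2 := a2 (j + 1) (by omega)
      rw [← hu, aeval_up, PowerSeries.coeff_succ_X_mul] at h2
      exact h2
  · intro z _
    exact hdu z
  · rintro z ⟨⟨a1, a2, a3⟩, a4⟩
    have a1' := (mem_W00 _ _).1 a1
    exact hud z (fun i => a1' _) fun v => a4 _ ((mem_Cx _).2 ⟨v, rfl⟩)

end Pool.Agent.Y228.HX
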