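import Pool.Agent.Y228.HX.All
import Pool.Agent.Y228.HX.D1
import Pool.Agent.Y228.HX.D2
import Pool.Agent.Y229.CF.IdX

set_option autoImplicit false
set_option maxHeartbeats 400000

/-! # Project HX: ideals -/

namespace Pool.Agent.Y228.HX

open MvPolynomial Pool.Agent.W425.SV
open Pool.Agent.W428.MOT Pool.Agent.W749.JI
open Pool.Agent.W375.MG (zetaG JetG Good good_one)
open Pool.Agent.W63.MTFin (mapMeas L_mul)
open Pool.Agent.TH216.ID (gp W0 zetaI_eq gp_eq PWI)
open Pool.Agent.TH216.MF (ratR CR_mem XR_mem IsPol fac RelG KilU)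
open Pool.Agent.W426.SM (gord face)
open Pool.Agent.W425.ND (spa prodb prodb_eval)
open Pool.Agent.W425.SG (UnitEq)
open Pool.Agent.Y229.CF (NondegC NondegIC cayC relV_all dL dL_ne)
open Pool.Agent.TH216.ID (cay_inj)
open Pool.Agent.TH216.MC (pos_of_ray)

section jets

variable {K : Type} [Field K] {n r : ℕ}

/-- the local zeta function with `zetaG` -/
lemma zeta_zetaG {d : ℕ} (f : MvPolynomial (Fin d) K) :
    zeta f 0 = zetaG f (W00 K d) {1} - PowerSeries.C (PowerSeries.coeff 0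
      (zetaG f (W00 K d) {1})) := by
  ext N
  rw [map_sub, PowerSeries.coeff_C]
  by_cases hd : N = 0
  · subst hd
    rw [if_pos rfl, sub_self, Pool.Agent.W428.MOT.zeta, PowerSeries.coeff_mk, if_pos rfl]
  · rw [if_neg hd, sub_zero, Pool.Agent.W428.MOT.zeta, PowerSeries.coeff_mk, if_neg hd,
      zetaG, PowerSeries.coeff_mk]
    have h3 : Jet f (0 : Fin d → K) N = JetG f (W00 K d) {1} N := by
      ext z
      simp only [Jet, JetG, W00, Set.mem_ofPred_eq, Set.mem_singleton_iff, funext_iff]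
      refine and_congr_right fun _ => ?_
      constructor
      · intro h
        refine ⟨fun j hj => ?_, ?_⟩
        · rw [h j hj.le, if_neg (by omega)]
        · rw [h N le_rfl, if_pos rfl]
      · rintro ⟨h1, h2⟩ j hj
        by_cases h : j = N
        · rw [h, h2, if_pos rfl]
        · rw [h1 j (by omega), if_neg h]
    rw [h3]

/-- **the shift for the zeta functions** -/
lemma zetaG_shift [CharZero K] (f : Fin r → MvPolynomial (Fin n) K) :
    ∃ a e : MK K, PowerSeries.X * zetaG (gp f) (W0 K n r) {1} =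
      PowerSeries.C a * zeta (gp f) 0 + PowerSeries.C e := by
  obtain ⟨M₀, hM₀⟩ := Pool.Agent.W417.MT.K0.main K
  set M := mapMeas M₀ (algebraMap (K0 K) (MK K)) with hM
  set Y : MK K := (((Lu K)⁻¹ : (MK K)ˣ) : MK K) with hY
  have hL : M.L * Y = 1 := L_mul hM₀
  have hLY : ∀ a : ℕ, M.L ^ a * Y ^ a = 1 := fun a => by rw [← mul_pow, hL, one_pow]
  set G := zetaG (gp f) (W0 K n r) {1} with hG
  set G0 := zetaG (gp f) (W00 K (n + r)) {1} with hG0
  have hGc : ∀ N, PowerSeries.coeff N G = M.χ _ (JetG (gp f) (W0 K n r) {1} N) *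
      Y ^ ((n + r) * N) := by
    intro N
    rw [hG, zetaG, PowerSeries.coeff_mk, zpow_neg, zpow_natCast, ← inv_pow,
      Units.val_pow_eq_pow_val, ← hM₀]
    rfl
  have hG0c : ∀ N, PowerSeries.coeff N G0 = M.χ _ (JetG (gp f) (W00 K (n + r)) {1} N) *
      Y ^ ((n + r) * N) := by
    intro N
    rw [hG0, zetaG, PowerSeries.coeff_mk, zpow_neg, zpow_natCast, ← inv_pow,
      Units.val_pow_eq_pow_val, ← hM₀]
    rfl
  have h1 : PowerSeries.X * G = PowerSeries.C (M.L ^ r) * (G0 - PowerSeries.C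
      (PowerSeries.coeff 0 G0)) := by
    ext N
    rw [PowerSeries.coeff_C_mul, map_sub, PowerSeries.coeff_C]
    rcases N with _ | N
    · rw [PowerSeries.coeff_zero_X_mul, if_pos rfl, sub_self, mul_zero]
    · rw [PowerSeries.coeff_succ_X_mul, if_neg (Nat.succ_ne_zero N), sub_zero, hGc, hG0c,
        chi_shift Pool.Agent.W417.MT.Free.main M f N]
      have e1 : (n + r) * (N + 1) = (n + r) * N + n + r := by ring
      rw [e1, pow_add, pow_add]
      linear_combination (-(M.χ _ (JetG (gp f) (W0 K n r) {1} N)) * Y ^ ((n + r) * N) *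
        (M.L ^ r * Y ^ r)) * hLY n - (M.χ _ (JetG (gp f) (W0 K n r) {1} N)) *
          Y ^ ((n + r) * N) * hLY r
  refine ⟨M.L ^ r, 0, ?_⟩
  rw [h1, zeta_zetaG, map_zero, add_zero]

/-- the zeta function of the ideal from the one of `∑ y_i f_i` at the origin -/
theorem zetaI_memX [CharZero K] (φ : MK K →+* RatFunc ℚ) (f : Fin r → MvPolynomial (Fin n) K)
    (S : Set (ℤ × ℤ)) (hS : ∀ p ∈ S, 0 < p.2)
    (h : PowerSeries.map φ (zeta (gp f) 0) ∈ ratR uX S) :
    PowerSeries.map φ (zetaI f) ∈ ratR uX S := by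
  obtain ⟨a, e, h1⟩ := zetaG_shift f
  obtain ⟨a', b', e', h2⟩ := zetaI_eq f
  have h3 := congrArg (PowerSeries.map φ) h1
  rw [map_mul, PowerSeries.map_X, map_add, map_mul, PowerSeries.map_C, PowerSeries.map_C] at h3
  have h4 : PowerSeries.map φ (zetaG (gp f) (W0 K n r) {1}) ∈ ratR uX S := by
    refine ratR_divX uX hS _ ?_
    rw [h3]
    exact (ratR uX S).add_mem ((ratR uX S).mul_mem (CR_mem uX S _) h) (CR_mem uX S _)
  rw [h2, map_add, map_mul, map_mul, map_mul, map_sub, map_mul, map_one, PowerSeries.map_C,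
    PowerSeries.map_C, PowerSeries.map_C, PowerSeries.map_C, PowerSeries.map_X]
  exact (ratR uX S).add_mem ((ratR uX S).mul_mem ((ratR uX S).mul_mem (CR_mem uX S _)
    ((ratR uX S).mul_mem h4 ((ratR uX S).sub_mem (ratR uX S).one_mem
      ((ratR uX S).mul_mem (CR_mem uX S _) (XR_mem uX S))))) (CR_mem uX S _)) (CR_mem uX S _)

end jets

variable {ℓ r n : ℕ}

/-- **The rays which are needed give roots of the local Bernstein-Sato polynomial of the ideal.** -/
theorem uniI (hℓ : 0 < ℓ) (π : Fin ℓ → Fin r)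
    (m : Fin ℓ → Fin n → ℕ) (hinj : ∀ j j', π j = π j' → m j = m j' → j = j')
    (a : Fin ℓ → ℂ) (hnd : NondegIC π m a) :
    ∃ (S : Finset (ℤ × ℤ)) (ω0 : Fin ℓ → ℕ) (l : List (Fin (n + r) → ℕ)), Gen (cay π m) ω0 ∧
      ((-1 : ℤ), (1 : ℤ)) ∈ S ∧
      (∀ p ∈ S, p.1 < 0 ∧ 0 < p.2 ∧ (p.2 ∣ p.1 ∨ ∀ b : Polynomial ℂ,
        IsLocalBIdeal (fam π m a) b → ∃ i : ℤ, b.eval ((p.1 : ℂ) / p.2 - i) = 0)) ∧
      (∀ a ∈ l, 0 < gord (cay π m) a ∧
        (-((∑ i, a i : ℕ) : ℤ), (gord (cay π m) a : ℤ)) ∈ S) ∧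
      IsPol (Ug (cay π m) ω0 * (l.map (fac (cay π m))).prod) ∧
      IsPol (US (cay π m) (KP (cay π m) ω0) * (l.map (fac (cay π m))).prod) := by
  classical
  have hne : NeZero ℓ := ⟨by omega⟩
  set v := cay π m with hvdef
  have hnd' : NondegC v a := cayC π m _ hℓ hnd
  have hv0 : ∀ j, v j ≠ 0 := fun j h0 => by
    have h1 := congrFun h0 (Fin.natAdd n (π j))
    rw [hvdef, Pool.Agent.W150.NI.cay_r, if_pos rfl] at h1
    exact one_ne_zero h1
  have hv : Function.Injective v := cay_inj π m hinj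
  obtain ⟨θ0, hθ0⟩ := Pool.Agent.W422.GC.exists_heights ℓ
  obtain ⟨ω0, hG0, -⟩ := Pool.Agent.Y26.HX.t_GENREL ℓ (n + r) v θ0 True 0 hθ0
    ⟨0, 0, 0, fun k => k.elim0, fun k => k.elim0,
    fun k => k.elim0, fun k => k.elim0, fun k => k.elim0, fun k => k.elim0, fun k => k.elim0,
    by simp⟩
  set f : MvPolynomial (Fin (n + r)) ℂ := spa v a with hf
  have hU : ∀ b, IsLocalBIdeal (fam π m a) b →
      UnitEq True f ((Polynomial.X + 1) * b) := fun b hb => Pool.Agent.W423.NI.Root.unitEq π m _ b hb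
  have hP : ∀ σ : ℚ, ¬ PWI f (-σ) → ∃ (ω : Fin ℓ → ℕ) (p : Polynomial ℂ), Gen v ω ∧
      RelG v (Kil1 v) (KilU v fun j => -(ω j : ℤ)) p ∧ p.eval (((-σ : ℚ) : ℂ)) ≠ 0 := by
    intro σ hα
    unfold PWI at hα
    push Not at hα
    obtain ⟨hint, b, hb, hroot⟩ := hα
    obtain ⟨K, L, hK⟩ := relV_all v a hv hv0 hnd' _ hb
    obtain ⟨ω, hG, hrel⟩ := Pool.Agent.Y26.HX.t_GENREL ℓ (n + r) v θ0 True (prodb _ K * dL L) hθ0
      (hK θ0 hθ0)
    refine ⟨ω, prodb _ K * dL L, hG, hrel, ?_⟩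
    rw [Polynomial.eval_mul, prodb_eval]
    refine mul_ne_zero (Finset.prod_ne_zero_iff.2 fun i _ => ?_) (dL_ne _ _ fun t ht => ?_)
    swap
    · apply hint t
      exact_mod_cast ht
    rw [Polynomial.eval_mul]
    refine mul_ne_zero ?_ (by exact_mod_cast hroot (i : ℤ))
    intro h0
    apply hint ((i : ℤ) - 1)
    have h1 : ((-σ - ((i : ℤ) - 1 : ℤ) : ℚ) : ℂ) = ((0 : ℚ) : ℂ) := by
      simp only [Polynomial.eval_add, Polynomial.eval_X, Polynomial.eval_one] at h0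
      push_cast at h0 ⊢
      linear_combination h0
    have h2 : -σ - ((i : ℤ) - 1 : ℤ) = 0 := by exact_mod_cast h1
    linarith
  obtain ⟨l, hl, hUg, hUk⟩ := formalHX Pool.Agent.Y434.HX.t_ANN s_zi Pool.Agent.Y688.HX.t_ZPT
    Pool.Agent.Y188.HX.t_FAR s_ehr Pool.Agent.Y625.HX.t_SER Pool.Agent.Y26.HX.t_INDP
    Pool.Agent.Y155.HX.t_BOX s_kr2 hℓ v hv0 (fun σ => ¬ PWI f (-σ)) hP ω0 hG0
  refine ⟨insert (-1, 1) (l.toFinset.image fun a => (-((∑ i, a i : ℕ) : ℤ), (gord v a : ℤ))),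
    ω0, l, hG0, Finset.mem_insert_self _ _, fun p hp => ?_, fun b hb => ?_, hUg, hUk⟩
  · rcases Finset.mem_insert.1 hp with rfl | hp
    · exact ⟨by norm_num, by norm_num, Or.inl ⟨-1, by norm_num⟩⟩
    obtain ⟨x, hx, rfl⟩ := Finset.mem_image.1 hp
    obtain ⟨hray, hg, hn⟩ := hl x (List.mem_toFinset.1 hx)
    refine ⟨pos_of_ray hray, Int.natCast_pos.2 hg, ?_⟩
    have h1 : PWI f (-(((∑ i, x i : ℕ) : ℚ) / gord v x)) := not_not.1 hn
    rcases h1 with ⟨z, hz⟩ | h1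
    · left
      refine ⟨z, ?_⟩
      have hgq : ((gord v x : ℕ) : ℚ) ≠ 0 := by exact_mod_cast hg.ne'
      have h2 : -((∑ i, x i : ℕ) : ℚ) = gord v x * z := by
        have h3 : -(((∑ i, x i : ℕ) : ℚ) / gord v x) = z := hz
        field_simp at h3
        linarith
      exact_mod_cast h2
    · right
      intro b hb
      obtain ⟨i, hi⟩ := h1 b (hU b hb)
      refine ⟨i, ?_⟩
      have e : ((-((∑ i, x i : ℕ) : ℤ) : ℤ) : ℂ) / ((gord v x : ℤ) : ℂ) =
          ((-(((∑ i, x i : ℕ) : ℚ) / gord v x) : ℚ) : ℂ) := by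
        push_cast
        ring
      rw [e]
      exact hi
  · exact ⟨(hl b hb).2.1, Finset.mem_insert_of_mem (Finset.mem_image.2
      ⟨b, List.mem_toFinset.2 hb, rfl⟩)⟩

/-- **The motivic monodromy conjecture for the `χ_y`-genus, for all nondegenerate ideals.** -/
theorem hodgeI {k : Type} [Field k] [Algebra k ℂ] (hℓ : 0 < ℓ) (π : Fin ℓ → Fin r)
    (m : Fin ℓ → Fin n → ℕ) (hinj : ∀ j j', π j = π j' → m j = m j' → j = j')
    (c : Fin ℓ → k) (hc : ∀ j, c j ≠ 0)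
    (hnd : NondegIC π m (fun j => algebraMap k ℂ (c j))) :
    ∃ S : Finset (ℤ × ℤ),
      (∀ p ∈ S, p.1 < 0 ∧ 0 < p.2 ∧ (p.2 ∣ p.1 ∨ ∀ b : Polynomial ℂ,
        IsLocalBIdeal (fam π m (fun j => algebraMap k ℂ (c j))) b →
          ∃ i : ℤ, b.eval ((p.1 : ℂ) / p.2 - i) = 0)) ∧
      ∀ (K : Type) [Field K] [Algebra k K] (φ : MK K →+* RatFunc ℚ), ChiY φ →
        PowerSeries.map φ (zetaI (fam π m (fun j => algebraMap k K (c j)))) ∈ ratR uX S := by
  classical
  obtain ⟨S, ω0, l, hG, hS1, hS, hl, hUg, hUk⟩ := uniI hℓ π m hinj _ hnd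
  refine ⟨S, hS, fun K _ _ φ hφ => ?_⟩
  have hkc : CharZero k := RingHom.charZero (algebraMap k ℂ)
  have hK : CharZero K := charZero_of_injective_algebraMap (algebraMap k K).injective
  refine zetaI_memX φ _ S (fun p hp => (hS p (Finset.mem_coe.1 hp)).2.1) ?_
  have hspa : ∀ {K : Type} [Field K] (c' : Fin ℓ → K), spa (cay π m) c' = sp 0 (cay π m) c' 1 := by
    intro K _ c'
    unfold sp spa
    simp
  rw [gp_eq, hspa]
  have hndC : NondegC (cay π m) (fun j => algebraMap k ℂ (c j)) := cayC π m _ hℓ hnd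
  have hv0 : ∀ j, cay π m j ≠ 0 := fun j h0 => by
    have h1 := congrFun h0 (Fin.natAdd n (π j))
    rw [Pool.Agent.W150.NI.cay_r, if_pos rfl] at h1
    exact one_ne_zero h1
  have hnd' : Pool.Agent.Y229.CF.NonDP (cay π m) (fun j => algebraMap K (AlgebraicClosure K)
      (algebraMap k K (c j))) := by
    have h1 := Pool.Agent.Y229.CF.taskB1' k (AlgebraicClosure K) (cay π m) c hℓ hndC
    have h2 : (fun j => algebraMap k (AlgebraicClosure K) (c j)) =
        fun j => algebraMap K (AlgebraicClosure K) (algebraMap k K (c j)) := by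
      funext j
      exact IsScalarTower.algebraMap_apply k K (AlgebraicClosure K) (c j)
    rwa [h2] at h1
  exact hodge_mem s_ehr Pool.Agent.Y625.HX.t_SER Pool.Agent.Y26.HX.t_INDP s_exp
    Pool.Agent.Y212.HX.t_RATI hℓ K φ hφ (cay π m) (cay_inj π m hinj) hv0
    (fun j => algebraMap k K (c j)) (fun j => (map_ne_zero _).2 (hc j)) hnd'
    (Pool.Agent.Y229.CF.nonG_of' k K (cay π m) c hℓ hndC) S (Finset.mem_coe.2 hS1) ω0 hG l
    (fun a ha => ⟨(hl a ha).1, Finset.mem_coe.2 (hl a ha).2⟩) hUg hUk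

end Pool.Agent.Y228.HX
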