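import Pool.Agent.Y228.HX.W2
import Pool.Agent.W749.NM.Stm

set_option autoImplicit false
set_option maxHeartbeats 400000

/-! # Project HX: the naive local motivic zeta function at the origin as a sum over the compact
faces (adapted from `Y229.CF.MotF`) -/

namespace Pool.Agent.Y228.HX

open MvPolynomial
open Pool.Agent.W428.MOT Pool.Agent.W749.MT
open Pool.Agent.W375.MG (Good GB0 GB1 constr_W constr_GB1 zetaG JetG good_units)
open Pool.Agent.TH216.MC (ZS XS constr_ZS constr_XS ZS_norm chi_GB0 chi_GB1)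
open Pool.Agent.W426.SM (gord ford IsRay face)
open Pool.Agent.W63.MTFin (mapMeas geo_sum L_mul)
open Pool.Agent.TH216.MF (frc frc_le cser FR evR geoR_mul)
open Pool.Agent.Y229.CF.Mot (NonGJ sum')
open Pool.Agent.W749.NM (zetaN JetN)

variable {K : Type} [Field K] {n r : ℕ}

/-- removing the normalisation of the free coordinates -/
lemma X_fullN {R : Type} [CommRing R] (h1 : S_Free) (M : Meas K R) (m : Fin r → Fin n → ℕ)
    (c : Fin r → K) (d : Pt K (Option (Fin n)) → AlgebraicClosure K) (hd : IsPF d)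
    (hd' : ∀ z w : Pt K (Option (Fin n)), w none = z none → d w = d z)
    (τ : Finset (Fin r)) :
    M.χ _ (ZS {fun i => algebraMap K (AlgebraicClosure K) ((0 : Fin n → K) i)} Finset.univ
        (free 0 m Finset.univ τ) (XS m c {fun i => algebraMap K (AlgebraicClosure K)
          ((0 : Fin n → K) i)} {a | a ≠ 0} Finset.univ d τ)) * (M.L - 1) ^ frc m Finset.univ τ =
      M.χ (Option (Fin n)) {z | (∀ i, z (some i) ≠ 0) ∧
        gbar m (cb c) τ (fun i => z (some i)) = d z ∧ z none ≠ 0} := by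
  classical
  set W : Set (Pt K (Fin n)) := {fun i => algebraMap K (AlgebraicClosure K) ((0 : Fin n → K) i)}
    with hW
  have hWc : Constr W := Pool.Agent.W425.MM.constr_pt (0 : Fin n → K)
  have hH : Constr (XS m c W {a | a ≠ 0} Finset.univ d τ) :=
    constr_XS m c good_units Finset.univ hd τ
  have key := ZS_norm h1 M hWc Finset.univ ∅ (free 0 m Finset.univ τ) (Finset.empty_subset _)
    (Finset.subset_univ _) hH (fun z w hn hk hz => by
      refine ⟨?_, ?_⟩
      · rw [hd' z w hn]
        refine Eq.trans ?_ hz.1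
        refine Pool.Agent.TH216.MC.gbar_update m (cb c) τ _ _ fun k hk' => hk k fun hf => ?_
        obtain ⟨j, hj, hjk⟩ := hk'
        unfold free at hf
        exact hjk ((Finset.mem_filter.1 hf).2.2 j hj)
      · rw [hn]
        exact hz.2)
  rw [Finset.card_empty, Nat.sub_zero] at key
  unfold frc
  rw [← key]
  congr 1
  ext z
  constructor
  · rintro ⟨-, h2, -, h3, h4⟩
    exact ⟨h2, h3, h4⟩
  · rintro ⟨h2, h3, h4⟩
    refine ⟨?_, h2, fun i hi => absurd hi (Finset.notMem_empty i), h3, h4⟩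
    rw [hW, Set.mem_singleton_iff]
    funext i
    simp

/-- the class of the torus -/
lemma chi_torus {R : Type} [CommRing R] (h1 : S_Free) (M : Meas K R) :
    M.χ (Fin n) {z | ∀ i, z i ≠ 0} = (M.L - 1) ^ n := by
  classical
  have h2 := h1 M (Set.univ : Set (Pt K (Fin n))) Finset.univ ∅ (fun _ => 1)
    (Finset.disjoint_empty_right _) ?_ (fun _ _ _ _ => Set.mem_univ _)
  · rw [Finset.card_empty, pow_zero, mul_one, Finset.card_univ, Fintype.card_fin,
      Set.univ_inter, Set.univ_inter] at h2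
    have e1 : {z : Pt K (Fin n) | ∀ i ∈ (Finset.univ : Finset (Fin n)), z i ≠ 0} =
        {z | ∀ i, z i ≠ 0} := by
      ext z
      simp
    have h3 : M.χ (Fin n) {z : Pt K (Fin n) | ∀ i ∈ (Finset.univ : Finset (Fin n)) ∪ ∅,
        z i = algebraMap K _ (1 : K)} = 1 := by
      rw [← M.point (ι := Fin 0)]
      refine M.iso _ _ ?_ ?_ (fun _ i => i.elim0) (fun _ _ => 1)
        (regularOn_poly (fun i => i.elim0) _) (regularOn_poly (fun i => IsPF.one) _) ?_ ?_ ?_ ?_
      · exact Constr.ballFinset _ fun i _ => by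
          simpa only [map_one] using Constr.eq (IsPF.coord (K := K) i) IsPF.one
      · have := Constr.eqz (K := K) (ι := Fin 0) IsPF.zero
        simpa using this
      · intro z _
        exact Set.mem_univ _
      · intro z _ i _
        simp
      · intro z hz
        funext i
        have := hz i (by simp)
        rw [map_one] at this
        exact this.symm
      · intro z _
        funext i
        exact i.elim0
    rw [e1, h3, one_mul] at h2
    exact h2
  · have := Constr.eqz (K := K) (ι := Fin n) IsPF.zero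
    simpa using this

/-- the class of the complement -/
lemma X_compl {R : Type} [CommRing R] (h1 : S_Free) (M : Meas K R) (m : Fin r → Fin n → ℕ)
    (c : Fin r → K) (τ : Finset (Fin r)) :
    M.χ (Option (Fin n)) {z | (∀ i, z (some i) ≠ 0) ∧
        gbar m (cb c) τ (fun i => z (some i)) = z none ∧ z none ≠ 0} =
      (M.L - 1) ^ n - M.χ (Fin n) {z | (∀ i, z i ≠ 0) ∧ gbar m (cb c) τ z = 0} := by
  classical
  have hc1 : Constr {z : Pt K (Fin n) | (∀ i, z i ≠ 0) ∧ gbar m (cb c) τ z = 0} :=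
    Constr.and (Constr.all fun i => Constr.ne (IsPF.coord _) IsPF.zero)
      (Constr.eqz (IsPF_gbar m c τ id))
  have hc2 : Constr {z : Pt K (Fin n) | (∀ i, z i ≠ 0) ∧ gbar m (cb c) τ z ≠ 0} :=
    Constr.and (Constr.all fun i => Constr.ne (IsPF.coord _) IsPF.zero)
      (Constr.ne (IsPF_gbar m c τ id) IsPF.zero)
  have h2 := M.add _ _ hc1 hc2 (by
    rw [Set.disjoint_left]
    rintro z ⟨-, h⟩ ⟨-, h'⟩
    exact h' h)
  have e1 : {z : Pt K (Fin n) | (∀ i, z i ≠ 0) ∧ gbar m (cb c) τ z = 0} ∪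
      {z : Pt K (Fin n) | (∀ i, z i ≠ 0) ∧ gbar m (cb c) τ z ≠ 0} = {z | ∀ i, z i ≠ 0} := by
    ext z
    simp only [Set.mem_union, Set.mem_ofPred_eq]
    constructor
    · rintro (h | h)
      · exact h.1
      · exact h.1
    · intro h
      by_cases h' : gbar m (cb c) τ z = 0
      · exact Or.inl ⟨h, h'⟩
      · exact Or.inr ⟨h, h'⟩
  rw [e1, chi_torus h1 M] at h2
  have h3 : M.χ (Option (Fin n)) {z | (∀ i, z (some i) ≠ 0) ∧
        gbar m (cb c) τ (fun i => z (some i)) = z none ∧ z none ≠ 0} =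
      M.χ (Fin n) {z : Pt K (Fin n) | (∀ i, z i ≠ 0) ∧ gbar m (cb c) τ z ≠ 0} := by
    refine M.iso _ _ (Constr.and (Constr.all fun i => Constr.ne (IsPF.coord _) IsPF.zero)
      (Constr.and (Constr.eq (IsPF_gbar m c τ some) (IsPF.coord none))
        (Constr.ne (IsPF.coord _) IsPF.zero))) hc2
      (fun z i => z (some i)) (fun z o => o.elim (gbar m (cb c) τ z) z)
      (regularOn_poly (fun i => IsPF.coord _) _) (regularOn_poly (fun o => ?_) _) ?_ ?_ ?_ ?_
    · rcases o with _ | i
      · exact IsPF_gbar m c τ id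
      · exact IsPF.coord i
    · rintro z ⟨h4, h5, h6⟩
      refine ⟨h4, ?_⟩
      intro h7
      exact h6 (h5.symm.trans h7)
    · rintro z ⟨h4, h5⟩
      exact ⟨h4, rfl, h5⟩
    · rintro z ⟨h4, h5, h6⟩
      funext o
      rcases o with _ | i
      · exact h5
      · rfl
    · rintro z -
      rfl
  rw [h3]
  linear_combination -h2

/-- the product with the punctured line -/
lemma X_line {R : Type} [CommRing R] (h1 : S_Free) (M : Meas K R) (m : Fin r → Fin n → ℕ)
    (c : Fin r → K) (τ : Finset (Fin r)) :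
    M.χ (Option (Fin n)) {z | (∀ i, z (some i) ≠ 0) ∧
        gbar m (cb c) τ (fun i => z (some i)) = 0 ∧ z none ≠ 0} =
      (M.L - 1) * M.χ (Fin n) {z | (∀ i, z i ≠ 0) ∧ gbar m (cb c) τ z = 0} := by
  classical
  set T : Set (Pt K (Option (Fin n))) := {z | (∀ i, z (some i) ≠ 0) ∧
        gbar m (cb c) τ (fun i => z (some i)) = 0} with hT
  have hTc : Constr T := Constr.and (Constr.all fun i => Constr.ne (IsPF.coord _) IsPF.zero)
      (Constr.eqz (IsPF_gbar m c τ some))
  have h2 := h1 M T {none} ∅ (fun _ => 1) (Finset.disjoint_empty_right _) hTc (by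
    intro z w hzw hz
    have h3 : ∀ i : Fin n, w (some i) = z (some i) := fun i =>
      hzw _ (by simp) (Finset.notMem_empty _)
    refine ⟨fun i => ?_, ?_⟩
    · rw [h3]
      exact hz.1 i
    · rw [← hz.2]
      congr 1
      funext i
      exact h3 i)
  rw [Finset.card_empty, pow_zero, mul_one, Finset.card_singleton, pow_one] at h2
  have e1 : T ∩ {z | ∀ i ∈ ({none} : Finset (Option (Fin n))), z i ≠ 0} =
      {z | (∀ i, z (some i) ≠ 0) ∧ gbar m (cb c) τ (fun i => z (some i)) = 0 ∧ z none ≠ 0} := by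
    ext z
    simp only [hT, Set.mem_inter_iff, Set.mem_ofPred_eq, Finset.mem_singleton, forall_eq]
    tauto
  rw [e1] at h2
  rw [h2, mul_comm]
  congr 1
  refine M.iso _ _ ?_ (Constr.and (Constr.all fun i => Constr.ne (IsPF.coord _) IsPF.zero)
      (Constr.eqz (IsPF_gbar m c τ id))) (fun z i => z (some i)) (fun z o => o.elim 1 z)
    (regularOn_poly (fun i => IsPF.coord _) _) (regularOn_poly (fun o => ?_) _) ?_ ?_ ?_ ?_
  · refine Constr.and hTc (Constr.ballFinset _ fun i _ => ?_)
    simpa only [map_one] using Constr.eq (IsPF.coord (K := K) i) IsPF.one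
  · rcases o with _ | i
    · exact IsPF.one
    · exact IsPF.coord i
  · rintro z ⟨h4, -⟩
    exact h4
  · rintro z ⟨h4, h5⟩
    refine ⟨⟨h4, h5⟩, ?_⟩
    intro o ho
    have ho' : o = none := by simpa using ho
    rw [ho', map_one]
    rfl
  · rintro z ⟨-, h5⟩
    funext o
    rcases o with _ | i
    · have := h5 none (by simp)
      rw [map_one] at this
      exact this.symm
    · rfl
  · rintro z -
    rfl

/-- **The naive zeta function at the origin.** -/
theorem zetaN_FR [CharZero K] (m : Fin r → Fin n → ℕ) (hr0 : 0 < r) (c : Fin r → K)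
    (hNon : NonGJ Finset.univ m c) :
    ∃ (b0 b1 : Finset (Fin r) → MK K) (z0 : MK K),
      zetaN (sp 0 m c 1) 0 = PowerSeries.C (((Lu K) ^ (-(n : ℤ)) : (MK K)ˣ) : MK K) *
        (FR (Lu K) m Finset.univ b0 b1 + PowerSeries.C z0) ∧
      (∀ τ, b0 τ * (((Lu K : (MK K)ˣ) : MK K) - 1) ^ frc m Finset.univ τ =
        (((Lu K : (MK K)ˣ) : MK K) - 1) ^ n -
          clM {z : Pt K (Fin n) | (∀ i, z i ≠ 0) ∧ gbar m (cb c) τ z = 0}) ∧
      (∀ τ, b1 τ * (((Lu K : (MK K)ˣ) : MK K) - 1) ^ frc m Finset.univ τ =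
        (((Lu K : (MK K)ˣ) : MK K) - 1) *
          clM {z : Pt K (Fin n) | (∀ i, z i ≠ 0) ∧ gbar m (cb c) τ z = 0}) := by
  classical
  have h1 : S_K0 := Pool.Agent.W417.MT.K0.main
  have h5 : S_CP1 := Pool.Agent.W346.MTCp1.main
  have hFree : S_Free := Pool.Agent.W417.MT.Free.main
  have hSub : S_Sub := Pool.Agent.W21.MTSub.main
  have hTay : S_Tay := Pool.Agent.W417.MT.Tay.main
  set W : Set (Pt K (Fin n)) := {fun i => algebraMap K (AlgebraicClosure K) ((0 : Fin n → K) i)}
    with hWdef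
  set E : Set (AlgebraicClosure K) := {a | a ≠ 0} with hEdef
  have hW : Constr W := Pool.Agent.W425.MM.constr_pt (0 : Fin n → K)
  have hE : Good E := good_units
  have hWD : ∀ z ∈ W, ∀ i ∈ (Finset.univ : Finset (Fin n)), z i = 0 := by
    intro z hz i _
    rw [Set.mem_singleton_iff.1 hz]
    simp
  obtain ⟨M₀, hM₀⟩ := h1 K
  set M := mapMeas M₀ (algebraMap (K0 K) (MK K)) with hM
  set Y : MK K := (((Lu K)⁻¹ : (MK K)ˣ) : MK K) with hY
  have hL : M.L * Y = 1 := L_mul hM₀
  have hML : M.L = ((Lu K : (MK K)ˣ) : MK K) := by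
    have h2 : ((Lu K : (MK K)ˣ) : MK K) * Y = 1 := Units.mul_inv _
    calc M.L = M.L * (((Lu K : (MK K)ˣ) : MK K) * Y) := by rw [h2, mul_one]
      _ = (M.L * Y) * ((Lu K : (MK K)ˣ) : MK K) := by ring
      _ = _ := by rw [hL, one_mul]
  have hχ : ∀ (ι : Type) [Fintype ι] (S : Set (Pt K ι)), M.χ ι S = clM S := by
    intro ι _ S
    change algebraMap (K0 K) (MK K) (M₀.χ ι S) = _
    rw [hM₀]
    rfl
  have hsum := sum' hFree hSub hTay M 0 m c 1 hW hE Finset.univ hNon hWD one_pos Y hL
  -- the series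
  set C : Finset (Fin n) → Finset (Fin r) → PowerSeries (MK K) := fun J τ =>
    PowerSeries.map (evR (Lu K)) (cser m J τ) with hCdef
  have hCc : ∀ J τ N, PowerSeries.coeff N (C J τ) =
      Polynomial.eval₂ (Int.castRingHom (MK K)) Y (cp 0 m 1 J τ N N) := fun J τ N => by
    simp only [hCdef, cser]
    rw [PowerSeries.coeff_map, PowerSeries.coeff_mk]
    rfl
  set D : Finset (Fin n) → Finset (Fin r) → PowerSeries (MK K) := fun J τ =>
    PowerSeries.mk fun N => ∑ l ∈ Finset.Icc 1 N,
      if 1 * l ≤ N then Y ^ l * PowerSeries.coeff (N - 1 * l) (C J τ) else 0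
    with hDdef
  have hD : ∀ J τ, D J τ = PowerSeries.C Y * PowerSeries.X * C J τ * geoR (Lu K) (-1) 1 := by
    intro J τ
    have h6 := geo_sum Y (fun N => PowerSeries.coeff N (C J τ)) 1 one_pos
    have h7 := geoR_mul (Lu K) (-1) 1 one_pos
    rw [show (1 : ℤ).toNat = 1 from rfl, zpow_neg_one] at h7
    have h9 : PowerSeries.mk (fun N => PowerSeries.coeff N (C J τ)) = C J τ := by
      ext N
      rw [PowerSeries.coeff_mk]
    rw [h9] at h6
    have h10 : D J τ * ((1 - PowerSeries.C Y * PowerSeries.X ^ 1) * geoR (Lu K) (-1) 1) =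
        PowerSeries.C Y * PowerSeries.X ^ 1 * C J τ * geoR (Lu K) (-1) 1 := by
      rw [← h6, mul_assoc]
    rw [h7, mul_one, pow_one] at h10
    exact h10
  set b0 : Finset (Fin n) → Finset (Fin r) → MK K := fun J τ => M.χ _ (GB0 0 m c 1 W E J τ)
    with hb0
  set b1 : Finset (Fin n) → Finset (Fin r) → MK K := fun J τ => M.χ _ (GB1 0 m c 1 W E J τ)
    with hb1
  -- only the origin
  have hb0z : ∀ J : Finset (Fin n), J ≠ Finset.univ → ∀ τ, b0 J τ = 0 := by
    intro J hJ τ
    have h6 : GB0 0 m c 1 W E J τ = ∅ := by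
      ext z
      simp only [GB0, Set.mem_ofPred_eq, Set.mem_empty_iff_false, iff_false]
      rintro ⟨h7, h8, -⟩
      obtain ⟨i, hi⟩ : ∃ i, i ∉ J := by
        by_contra hcon
        push Not at hcon
        exact hJ (Finset.eq_univ_iff_forall.2 hcon)
      have h9 := hWD _ h7 i (Finset.mem_univ i)
      simp only [if_neg hi] at h9
      exact h8 i h9
    simp only [hb0]
    rw [h6, χ_empty]
  have hb1z : ∀ J : Finset (Fin n), J ≠ Finset.univ → ∀ τ, b1 J τ = 0 := by
    intro J hJ τ
    have h6 : GB1 0 m c 1 W E J τ = ∅ := by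
      ext z
      simp only [GB1, Set.mem_ofPred_eq, Set.mem_empty_iff_false, iff_false]
      rintro ⟨h7, h8, -⟩
      obtain ⟨i, hi⟩ : ∃ i, i ∉ J := by
        by_contra hcon
        push Not at hcon
        exact hJ (Finset.eq_univ_iff_forall.2 hcon)
      have h9 := hWD _ h7 i (Finset.mem_univ i)
      simp only [if_neg hi] at h9
      exact h8 i h9
    simp only [hb1]
    rw [h6, χ_empty]
  set F : PowerSeries (MK K) := ∑ J : Finset (Fin n), FR (Lu K) m J (b0 J) (b1 J) with hF
  have hFu : F = FR (Lu K) m Finset.univ (b0 Finset.univ) (b1 Finset.univ) := by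
    rw [hF]
    refine Finset.sum_eq_single _ (fun J _ hJ => ?_) fun h => absurd (Finset.mem_univ _) h
    unfold FR
    refine Finset.sum_eq_zero fun τ _ => ?_
    rw [hb0z J hJ, hb1z J hJ]
    simp
  have hz : zetaG (sp 0 m c 1) W E =
      F - PowerSeries.C (PowerSeries.coeff 0 F) + PowerSeries.C (PowerSeries.coeff 0
        (zetaG (sp 0 m c 1) W E)) := by
    ext N
    by_cases hN : N = 0
    · subst hN
      rw [map_add, map_sub, PowerSeries.coeff_C, if_pos rfl, PowerSeries.coeff_C, if_pos rfl,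
        sub_self, zero_add]
    · rw [map_add, map_sub, PowerSeries.coeff_C, if_neg hN, PowerSeries.coeff_C, if_neg hN,
        sub_zero, add_zero, zetaG, PowerSeries.coeff_mk]
      have h6 := hsum N (by omega)
      have h7 : algebraMap (K0 K) (MK K) (cls (Fin n × Fin (N + 1))
          (JetG (sp 0 m c 1) W E N)) *
          (((Lu K) ^ (-((n * N : ℕ) : ℤ)) : (MK K)ˣ) : MK K) =
          M.χ _ (JetG (sp 0 m c 1) W E N) * Y ^ (n * N) := by
        rw [zpow_neg, zpow_natCast, ← inv_pow, Units.val_pow_eq_pow_val, ← hM₀]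
        rfl
      rw [h7, h6, hF, map_sum]
      refine Finset.sum_congr rfl fun J _ => ?_
      unfold FR
      rw [map_sum]
      refine Finset.sum_congr rfl fun τ _ => ?_
      change _ = PowerSeries.coeff N (PowerSeries.C (((Lu K : (MK K)ˣ) : MK K) ^ frc m J τ) *
        (PowerSeries.C (b0 J τ) * C J τ + PowerSeries.C (b1 J τ) *
          (PowerSeries.C Y * PowerSeries.X * C J τ * geoR (Lu K) (-1) 1)))
      rw [← hD, ← hML, PowerSeries.coeff_C_mul, map_add, PowerSeries.coeff_C_mul,
        PowerSeries.coeff_C_mul, hCc, hDdef, PowerSeries.coeff_mk, Finset.mul_sum]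
      congr 2
      refine Finset.sum_congr rfl fun i _ => ?_
      split_ifs with hi
      · rw [hCc, h5 0 m 1 J τ hr0 one_pos N (N - 1 * i) (Nat.sub_le _ _), mul_assoc]
      · rw [mul_zero]
  have hz2 : zetaN (sp 0 m c 1) 0 = PowerSeries.C (((Lu K) ^ (-(n : ℤ)) : (MK K)ˣ) : MK K) *
      (zetaG (sp 0 m c 1) W E - PowerSeries.C (PowerSeries.coeff 0 (zetaG (sp 0 m c 1) W E))) := by
    unfold zetaN
    congr 1
    ext d
    rw [map_sub, PowerSeries.coeff_C]
    by_cases hd : d = 0
    · subst hd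
      rw [if_pos rfl, sub_self, PowerSeries.coeff_mk, if_pos rfl]
    · rw [if_neg hd, sub_zero, PowerSeries.coeff_mk, if_neg hd, zetaG, PowerSeries.coeff_mk]
      have h3 : JetN (sp 0 m c 1) (0 : Fin n → K) d = JetG (sp 0 m c 1) W E d := by
        ext z
        simp only [JetN, JetG, hWdef, hEdef, Set.mem_ofPred_eq, Set.mem_singleton_iff, funext_iff]
      rw [h3]
  refine ⟨b0 Finset.univ, b1 Finset.univ, -PowerSeries.coeff 0 F, ?_, fun τ => ?_, fun τ => ?_⟩
  · rw [hz2]
    congr 1
    conv_lhs => rw [hz]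
    rw [map_add (PowerSeries.coeff 0), map_sub (PowerSeries.coeff 0)]
    rw [PowerSeries.coeff_C, PowerSeries.coeff_C, if_pos rfl, if_pos rfl, sub_self, zero_add,
      ← hFu, map_neg]
    ring
  · rw [← hχ, ← hML]
    simp only [hb0]
    rw [chi_GB0 M m c hW hE, ← X_compl hFree M m c τ]
    exact X_fullN hFree M m c (fun z => z none) (IsPF.coord none) (fun _ _ h => h) τ
  · rw [← hχ, ← hML]
    simp only [hb1]
    rw [chi_GB1 M m c, ← X_line hFree M m c τ]
    exact X_fullN hFree M m c (fun _ => 0) IsPF.zero (fun _ _ _ => rfl) τ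

end Pool.Agent.Y228.HX
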