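import Pool.Agent.Y228.HX.All
import Pool.Agent.Y228.HX.N2

set_option autoImplicit false
set_option maxHeartbeats 400000

/-! # Project HX: the naive zeta function -/

namespace Pool.Agent.Y228.HX

open Pool.Agent.TH216.MF (frc cser FR evR geoR_mul ratR ratR_mem CR_mem geoR_mem IsPol fac)
open Pool.Agent.W426.SM (gord ford IsRay face)
open Pool.Agent.W803.SM (filt)
open Pool.Agent.W428.MOT
open Pool.Agent.W749.NM (zetaN)
open Pool.Agent.W425.ND (spa)
open Pool.Agent.Y229.CF (NondegC)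

section ring

variable {R : Type} [CommRing R] (u : Rˣ) {r N : ℕ}

/-- **The class formula**, without the second class function. -/
theorem FR_N (v : Fin r → Fin N → ℕ) (ω : Fin r → ℕ) (b0 b1 : Finset (Fin r) → R)
    (g : Finset (Fin r) → R)
    (hg : ∀ τ, cser v Finset.univ τ ≠ 0 →
      (1 - ((u⁻¹ : Rˣ) : R)) ^ r * g τ = evR u (GP v ω τ))
    (hb0 : ∀ τ, cser v Finset.univ τ ≠ 0 → b0 τ = ((u : R) - 1) *
      (((u : R) - 1) ^ (N - frc v Finset.univ τ) * ((u⁻¹ : Rˣ) : R) * (1 - g τ)))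
    (hb1 : ∀ τ, cser v Finset.univ τ ≠ 0 → b1 τ = ((u : R) - 1) *
      (((u : R) - 1) ^ (N - frc v Finset.univ τ) * ((u⁻¹ : Rˣ) : R) *
        (1 + ((u : R) - 1) * g τ))) :
    PowerSeries.C ((1 - ((u⁻¹ : Rˣ) : R)) ^ r) * FR u v Finset.univ b0 b1 *
      (1 - PowerSeries.C ((u⁻¹ : Rˣ) : R) * PowerSeries.X) =
      PowerSeries.C (((u : R) - 1) * ((u : R) ^ N * ((u⁻¹ : Rˣ) : R))) *
        PowerSeries.map (evR u) (Ug v ω) := by
  set Y : R := ((u⁻¹ : Rˣ) : R) with hY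
  have huY : (u : R) * Y = 1 := Units.mul_inv u
  have hgeo : geoR u (-1) 1 * (1 - PowerSeries.C Y * PowerSeries.X) = 1 := by
    have h1 := geoR_mul u (-1) 1 one_pos
    rw [zpow_neg_one] at h1
    have h2 : (1 : ℤ).toNat = 1 := rfl
    rw [h2, pow_one] at h1
    rw [mul_comm]
    exact h1
  have hUg : PowerSeries.map (evR u) (Ug v ω) = (PowerSeries.X - 1) *
      PowerSeries.map (evR u) (US v (GP v ω)) +
        PowerSeries.map (evR u) (US v (fun _ => (1 - Polynomial.X) ^ r)) := by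
    unfold Ug
    rw [map_add (PowerSeries.map (evR u)), map_mul (PowerSeries.map (evR u)),
      map_sub (PowerSeries.map (evR u)), map_one (PowerSeries.map (evR u)), PowerSeries.map_X]
  rw [hUg, map_US, map_US]
  rw [← hY]
  unfold FR
  rw [Finset.mul_sum, Finset.sum_mul]
  rw [Finset.mul_sum, ← Finset.sum_add_distrib, Finset.mul_sum]
  refine Finset.sum_congr rfl fun τ _ => ?_
  by_cases hτ : cser v Finset.univ τ = 0
  · rw [hτ, map_zero]
    ring
  set Cs := PowerSeries.map (evR u) (cser v Finset.univ τ) with hCs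
  set fr := frc v Finset.univ τ with hfr
  have h1 : (u : R) ^ fr * ((u : R) - 1) ^ (N - fr) = (u : R) ^ N * (1 - Y) ^ (N - fr) := by
    have h2 : ((u : R) - 1) = (u : R) * (1 - Y) := by
      linear_combination huY
    rw [h2, mul_pow, ← mul_assoc, ← pow_add, Nat.add_sub_cancel' (frcN v τ)]
  have hpow : evR u ((1 - Polynomial.X) ^ r : Polynomial ℤ) = (1 - Y) ^ r := by
    rw [map_pow, map_sub, map_one, Pool.Agent.TH216.MF.evR_X]
  rw [hpow, ← hg τ hτ, hb0 τ hτ, hb1 τ hτ]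
  simp only [map_mul, map_sub, map_add, map_one, map_pow] at h1 hgeo ⊢
  have h1' := congrArg (PowerSeries.C (R := R)) h1
  simp only [map_mul, map_sub, map_one, map_pow] at h1'
  have huY' := congrArg (PowerSeries.C (R := R)) huY
  simp only [map_mul, map_one] at huY'
  generalize PowerSeries.C (R := R) (u : R) = U at *
  generalize PowerSeries.C (R := R) Y = y at *
  generalize PowerSeries.C (R := R) (g τ) = gg at *
  generalize (PowerSeries.X : PowerSeries R) = T at *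
  generalize geoR u (-1) 1 = G at *
  generalize (1 - y) ^ r = D at *
  generalize (U - 1) ^ (N - fr) = A at *
  generalize (1 - y) ^ (N - fr) = B at *
  generalize U ^ fr = F at *
  generalize U ^ N = E at *
  linear_combination (U - 1) * ((D * Cs * y * ((1 - gg) * (1 - y * T) +
    (1 + (U - 1) * gg) * y * T)) * h1'
    + (D * F * A * y * Cs * y * T * (1 + (U - 1) * gg)) * hgeo + (D * E * B * Cs * y * T * gg) * huY')

/-- membership -/
theorem FR_memN {S : Set (ℤ × ℤ)} (hS1 : ((-1 : ℤ), (1 : ℤ)) ∈ S) (v : Fin r → Fin N → ℕ)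
    (ω : Fin r → ℕ) (l : List (Fin N → ℕ))
    (hl : ∀ a ∈ l, 0 < gord v a ∧ (-((∑ i, a i : ℕ) : ℤ), (gord v a : ℤ)) ∈ S)
    (hGg : IsPol (Ug v ω * (l.map (fac v)).prod))
    (hu : IsUnit (1 - ((u⁻¹ : Rˣ) : R))) (b0 b1 : Finset (Fin r) → R)
    (g : Finset (Fin r) → R)
    (hg : ∀ τ, cser v Finset.univ τ ≠ 0 →
      (1 - ((u⁻¹ : Rˣ) : R)) ^ r * g τ = evR u (GP v ω τ))
    (hb0 : ∀ τ, cser v Finset.univ τ ≠ 0 → b0 τ = ((u : R) - 1) *
      (((u : R) - 1) ^ (N - frc v Finset.univ τ) * ((u⁻¹ : Rˣ) : R) * (1 - g τ)))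
    (hb1 : ∀ τ, cser v Finset.univ τ ≠ 0 → b1 τ = ((u : R) - 1) *
      (((u : R) - 1) ^ (N - frc v Finset.univ τ) * ((u⁻¹ : Rˣ) : R) *
        (1 + ((u : R) - 1) * g τ))) :
    FR u v Finset.univ b0 b1 ∈ ratR u S := by
  have h0 := FR_N u v ω b0 b1 g hg hb0 hb1
  set Y : R := ((u⁻¹ : Rˣ) : R) with hY
  obtain ⟨D, hD⟩ := hu
  have hgeo : (1 - PowerSeries.C Y * PowerSeries.X) * geoR u (-1) 1 = 1 := by
    have h1 := geoR_mul u (-1) 1 one_pos
    rw [zpow_neg_one] at h1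
    have h2 : (1 : ℤ).toNat = 1 := rfl
    rw [h2, pow_one] at h1
    exact h1
  have hDi : PowerSeries.C (((D⁻¹ : Rˣ) : R) ^ r) * PowerSeries.C ((1 - Y) ^ r) = 1 := by
    rw [← map_mul, ← hD, ← mul_pow, Units.inv_mul, one_pow, map_one]
  have h1 : FR u v Finset.univ b0 b1 = PowerSeries.C (((D⁻¹ : Rˣ) : R) ^ r) *
      (PowerSeries.C (((u : R) - 1) * ((u : R) ^ N * Y)) * PowerSeries.map (evR u) (Ug v ω)) *
        geoR u (-1) 1 := by
    rw [← h0]
    linear_combination (-(FR u v Finset.univ b0 b1)) * hDi -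
      (PowerSeries.C (((D⁻¹ : Rˣ) : R) ^ r) * PowerSeries.C ((1 - Y) ^ r) *
        FR u v Finset.univ b0 b1) * hgeo
  rw [h1]
  have hG1 := ratR_mem (S := S) u v l hl _ hGg
  exact (ratR u S).mul_mem ((ratR u S).mul_mem (CR_mem u S _) ((ratR u S).mul_mem
    (CR_mem u S _) hG1)) (geoR_mem u (p := ((-1 : ℤ), (1 : ℤ))) hS1)

end ring

variable {r N : ℕ}

/-- **The theorem over one field, naive zeta function.** -/
theorem hodgeN_mem (hr : 0 < r) (K : Type) [Field K] [CharZero K] (φ : MK K →+* RatFunc ℚ)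
    (hφ : ChiY φ)
    (v : Fin r → Fin N → ℕ) (hv : Function.Injective v) (hv0 : ∀ j, v j ≠ 0) (c : Fin r → K)
    (hc : ∀ j, c j ≠ 0)
    (hnd : Pool.Agent.Y229.CF.NonDP v (fun j => algebraMap K (AlgebraicClosure K) (c j)))
    (hNon : Pool.Agent.Y229.CF.Mot.NonGJ Finset.univ v c) (S : Set (ℤ × ℤ))
    (hS1 : ((-1 : ℤ), (1 : ℤ)) ∈ S) (ω : Fin r → ℕ) (hG : Gen v ω) (l : List (Fin N → ℕ))
    (hl : ∀ a ∈ l, 0 < gord v a ∧ (-((∑ i, a i : ℕ) : ℤ), (gord v a : ℤ)) ∈ S)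
    (hGg : IsPol (Ug v ω * (l.map (fac v)).prod)) :
    PowerSeries.map φ (zetaN (sp 0 v c 1) 0) ∈ ratR uX S := by
  classical
  obtain ⟨b0, b1, z0, hz, hb0, hb1⟩ := zetaN_FR v hr c hNon
  have hu : Units.map (φ : MK K →* RatFunc ℚ) (Lu K) = uX := Units.ext hφ.1
  rw [hz, map_mul, map_add, FR_map, hu, PowerSeries.map_C, PowerSeries.map_C]
  refine (ratR uX S).mul_mem (CR_mem uX S _) ((ratR uX S).add_mem ?_ (CR_mem uX S _))
  have hX0 : (RatFunc.X : RatFunc ℚ) ≠ 0 := RatFunc.X_ne_zero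
  have hX1 := X_sub_one_ne
  have hX1' : (1 - RatFunc.X : RatFunc ℚ) ≠ 0 := fun h => hX1 (by linear_combination -h)
  have hui : ((uX⁻¹ : (RatFunc ℚ)ˣ) : RatFunc ℚ) = (RatFunc.X : RatFunc ℚ)⁻¹ := rfl
  have huv : ((uX : (RatFunc ℚ)ˣ) : RatFunc ℚ) = RatFunc.X := rfl
  have hev : ∀ p : Polynomial ℤ, evR uX p =
      Polynomial.eval₂ (Int.castRingHom (RatFunc ℚ)) (RatFunc.X : RatFunc ℚ)⁻¹ p := fun p => rfl
  have hdat : ∀ τ : Finset (Fin r), cser v Finset.univ τ ≠ 0 → ∃ x : Fin N → ℕ,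
      (∀ i, 0 < x i) ∧ τ = amin v x ∧ (∀ i, 0 < (x i : ℚ)) ∧
      (∀ j, ((gord v x : ℕ) : ℚ) ≤ ∑ i, (x i : ℚ) * (v j i : ℚ)) ∧
      0 < ((gord v x : ℕ) : ℚ) ∧
      ∀ j, j ∈ τ ↔ ∑ i, (x i : ℚ) * (v j i : ℚ) = ((gord v x : ℕ) : ℚ) := by
    intro τ hτ
    obtain ⟨x, hx, hxτ⟩ := cser_ex v τ hτ
    obtain ⟨h1, h2, h3, h4⟩ := face_data hr v hv0 x hx
    refine ⟨x, hx, hxτ.symm, h1, h2, h3, ?_⟩
    intro j
    rw [← hxτ]
    exact h4 j
  have hcoef : ∀ d : ℕ, ((1 - Polynomial.X : Polynomial ℚ) ^ d).coeff 0 ≠ 0 := by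
    intro d
    rw [Polynomial.coeff_zero_eq_eval_zero]
    simp
  have hval : ∀ τ, cser v Finset.univ τ ≠ 0 →
      φ (clM {z : Pt K (Fin N) | (∀ i, z i ≠ 0) ∧ gbar v (cb c) τ z = 0}) =
      ((RatFunc.X - 1) ^ N + (RatFunc.X - 1) ^ (N + 1) * gX v ω τ) / RatFunc.X := by
    intro τ hτ
    obtain ⟨x, hx, hxτ, h1, h2, h3, h4⟩ := hdat τ hτ
    have h5 := A0_eq s_ehr Pool.Agent.Y625.HX.t_SER Pool.Agent.Y26.HX.t_INDP v ω hG _ _ h1 h2 h3
      τ h4
    have h6 := Expd_of (A0 v ω τ) ((1 - Polynomial.X) ^ r) (hcoef r) _ (by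
      rw [h5]
      push_cast
      rfl)
    have h7 := (s_exp r N v ω hG _ _ h1 h2 h3 τ h4).1 _ h6
    have h8 := hφ.2 N r v τ c _ (fun j _ => hc j) (fun a _ b _ h => hv h)
      (by rw [hxτ]; exact nonL_face hr v c hnd x hx) h6
    unfold clM
    rw [← ZT_zero, h8, h7]
    rfl
  have hpow : ∀ τ, (RatFunc.X - 1 : RatFunc ℚ) ^ N = (RatFunc.X - 1) ^ (N - frc v Finset.univ τ) *
      (RatFunc.X - 1) ^ frc v Finset.univ τ := by
    intro τ
    rw [← pow_add, Nat.sub_add_cancel (frcN v τ)]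
  refine FR_memN uX hS1 v ω l hl hGg ?_ _ _ (gX v ω) ?_ ?_ ?_
  · rw [hui, isUnit_iff_ne_zero]
    intro h
    apply hX1
    field_simp at h
    linear_combination h
  · intro τ hτ
    rw [hui, hev]
    unfold gX GP
    rw [Finset.mul_sum, Polynomial.eval₂_finset_sum]
    refine Finset.sum_congr rfl fun I hI => ?_
    split_ifs with hT
    · have h1 := Pool.Agent.Y212.HX.t_RATI r N v I ((Pool.Agent.Y26.HX.t_INDP r N v ω hG).1 I hT) r
        (card_le_r I)
      rw [← h1]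
      ring
    · simp
  · intro τ hτ
    have h9 := congrArg φ (hb0 τ)
    rw [map_mul, map_pow, map_sub, map_sub, map_pow, map_sub, map_one, hφ.1, hval τ hτ, pow_succ,
      hpow τ] at h9
    rw [hui, huv]
    have hp : (RatFunc.X - 1 : RatFunc ℚ) ^ frc v Finset.univ τ ≠ 0 := pow_ne_zero _ hX1
    apply mul_right_cancel₀ hp
    rw [h9]
    field_simp
    ring
  · intro τ hτ
    have h9 := congrArg φ (hb1 τ)
    rw [map_mul, map_pow, map_mul, map_sub, map_one, hφ.1, hval τ hτ, pow_succ, hpow τ] at h9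
    rw [hui, huv]
    have hp : (RatFunc.X - 1 : RatFunc ℚ) ^ frc v Finset.univ τ ≠ 0 := pow_ne_zero _ hX1
    apply mul_right_cancel₀ hp
    rw [h9]
    field_simp
    try ring

/-- **The motivic monodromy conjecture for the `χ_y`-genus, naive zeta function.** -/
theorem hodgeN (k : Type) [Field k] [Algebra k ℂ] {n r : ℕ} (hr : 0 < r)
    (v : Fin r → Fin n → ℕ) (c : Fin r → k) (hv : Function.Injective v) (hv0 : ∀ j, v j ≠ 0)
    (hc : ∀ j, c j ≠ 0) (hnd : NondegC v (fun j => algebraMap k ℂ (c j))) :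
    ∃ S : Finset (ℤ × ℤ),
      (∀ p ∈ S, p.1 < 0 ∧ 0 < p.2 ∧ ∀ b : Polynomial ℂ,
        Pool.Agent.H628R4.TP.IsLocalBFunction (spa v (fun j => algebraMap k ℂ (c j))) b →
          ∃ i : ℤ, b.eval ((p.1 : ℂ) / p.2 - i) = 0) ∧
      ∀ (K : Type) [Field K] [Algebra k K] (φ : MK K →+* RatFunc ℚ), ChiY φ →
        PowerSeries.map φ (zetaN (spa v (fun j => algebraMap k K (c j))) 0) ∈ ratR uX S := by
  classical
  obtain ⟨S, ω0, l, hG, hS1, hS, hl, hUg, -⟩ := uni_all hr v hv hv0 _ hnd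
  refine ⟨S, hS, fun K _ _ φ hφ => ?_⟩
  have hkc : CharZero k := RingHom.charZero (algebraMap k ℂ)
  have hK : CharZero K := charZero_of_injective_algebraMap (algebraMap k K).injective
  have hspa : ∀ {K : Type} [Field K] (c' : Fin r → K), spa v c' = sp 0 v c' 1 := by
    intro K _ c'
    unfold sp spa
    simp
  rw [hspa]
  have hnd' : Pool.Agent.Y229.CF.NonDP v (fun j => algebraMap K (AlgebraicClosure K)
      (algebraMap k K (c j))) := by
    have h1 := Pool.Agent.Y229.CF.taskB1' k (AlgebraicClosure K) v c hr hnd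
    have h2 : (fun j => algebraMap k (AlgebraicClosure K) (c j)) =
        fun j => algebraMap K (AlgebraicClosure K) (algebraMap k K (c j)) := by
      funext j
      exact IsScalarTower.algebraMap_apply k K (AlgebraicClosure K) (c j)
    rwa [h2] at h1
  exact hodgeN_mem hr K φ hφ v hv hv0 (fun j => algebraMap k K (c j))
    (fun j => (map_ne_zero _).2 (hc j)) hnd'
    (Pool.Agent.Y229.CF.nonG_of' k K v c hr hnd) S (Finset.mem_coe.2 hS1) ω0 hG l
    (fun a ha => ⟨(hl a ha).1, Finset.mem_coe.2 (hl a ha).2⟩) hUg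

end Pool.Agent.Y228.HX
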