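import Pool.Agent.Y228.HX.S3

set_option autoImplicit false
set_option maxHeartbeats 400000

/-! # Project HX: the strong monodromy conjecture for generic coefficients -/

namespace Pool.Agent.Y228.HX

open MvPolynomial Pool.Agent.H628R4.TP Pool.Agent.W425.MM Pool.Agent.W425.GN
open Pool.Agent.TH216.MF (ratR CR_mem IsPol fac)
open Pool.Agent.TH216.MC (pos_of_ray rootsL)
open Pool.Agent.W426.SM (gord ford IsRay face)
open Pool.Agent.W428.MOT
open Pool.Agent.W749.NM (zetaN)
open Pool.Agent.W425.ND (spa)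
open Pool.Agent.W425.SV (NP)
open Pool.Agent.W375.MG (zetaG zetaOrd good_units zetaOrd_eq)

variable {r N : ℕ}

lemma app_inj {F : Type} [Field F] (v : Fin r → Fin N → ℕ) (hv : Function.Injective v)
    (h : MvPolynomial (Fin N) F) (hvh : ∀ w ∈ h.support, ∀ j, ¬ ∀ x, w x = v j x) :
    Function.Injective (Fin.append v (we h)) := by
  intro j j'
  refine Fin.addCases (fun j => ?_) (fun l => ?_) j <;>
    refine Fin.addCases (fun j' => ?_) (fun l' => ?_) j'
  · rw [Fin.append_left, Fin.append_left]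
    intro h3
    rw [hv h3]
  · rw [Fin.append_left, Fin.append_right]
    intro h3
    exact absurd (fun x => (congrFun h3 x).symm)
      (hvh _ (h.support.equivFin.symm l').2 j)
  · rw [Fin.append_left, Fin.append_right]
    intro h3
    exact absurd (fun x => congrFun h3 x) (hvh _ (h.support.equivFin.symm l).2 j')
  · rw [Fin.append_right, Fin.append_right]
    intro h3
    have h4 : (h.support.equivFin.symm l) = (h.support.equivFin.symm l') :=
      Subtype.ext (Finsupp.ext fun x => congrFun h3 x)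
    rw [h.support.equivFin.symm.injective h4]

lemma hom_of {F : Type} [Field F] (h : MvPolynomial (Fin N) F) (d : ℕ)
    (hd : ∀ w ∈ h.support, ∑ i, w i = d) : h.IsHomogeneous d := by
  intro w hw
  rw [← hd w (mem_support_iff.2 hw)]
  simp [Finsupp.weight_apply, Finsupp.sum_fintype]

/-- **The strong monodromy conjecture for the `χ_y`-genus, generic coefficients.** -/
theorem strong {F : Type} [Field F] [Algebra F ℂ] (hr : 0 < r)
    (v : Fin r → Fin N → ℕ) (hv : Function.Injective v) (hv0 : ∀ j, v j ≠ 0)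
    (h : MvPolynomial (Fin N) F) (hh : ∀ w ∈ h.support, InNP v fun i => w i)
    (hvh : ∀ w ∈ h.support, ∀ j, ¬ ∀ x, w x = v j x) :
    ∃ (g : MvPolynomial (Fin r) F) (S : Finset (ℤ × ℤ)), g ≠ 0 ∧ (∀ p ∈ S, p.1 < 0 ∧ 0 < p.2) ∧
      ∀ c : Fin r → ℂ, aeval c g ≠ 0 →
        (∀ p ∈ S, ∀ b : Polynomial ℂ,
          IsLocalBFunction (spa v c + MvPolynomial.map (algebraMap F ℂ) h) b →
            b.eval ((p.1 : ℂ) / p.2) = 0) ∧
        ∀ φ : MK ℂ →+* RatFunc ℚ, ChiY φ →
          PowerSeries.map φ (zetaOrd (spa v c + MvPolynomial.map (algebraMap F ℂ) h) {0}) ∈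
            ratR uX S ∧
          ((∃ d : ℕ, (∀ j, ∑ i, v j i = d) ∧ ∀ w ∈ h.support, ∑ i, w i = d) ∨ Conv v →
            PowerSeries.map φ (zetaOrd (spa v c + MvPolynomial.map (algebraMap F ℂ) h)
              Set.univ) ∈ ratR uX S) := by
  classical
  have hh' : ∀ w ∈ h.support, NP v w := fun w hw => (hh w hw).np
  obtain ⟨g1, hg1, h1⟩ := rootsL (F := F) hr v hv hv0 h hh'
  obtain ⟨g2, hg2, h2⟩ := gen_nonDF pF4 hr v (we h) (we_np v h hh') (wc h)
  have hg3 : (∏ j : Fin r, (X j : MvPolynomial (Fin r) F)) ≠ 0 :=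
    Finset.prod_ne_zero_iff.2 fun j _ => X_ne_zero j
  obtain ⟨ω0, l, hG, hl, hUg, -⟩ := uniG hr v hv hv0 h hh'
  set S : Finset (ℤ × ℤ) := insert (-1, 1)
    (l.toFinset.image fun a => (-((∑ i, a i : ℕ) : ℤ), (gord v a : ℤ))) with hS
  have hSpos : ∀ p ∈ S, p.1 < 0 ∧ 0 < p.2 := by
    intro p hp
    rcases Finset.mem_insert.1 hp with rfl | hp
    · norm_num
    · obtain ⟨x, hx, rfl⟩ := Finset.mem_image.1 hp
      obtain ⟨hray, hg, -⟩ := hl x (List.mem_toFinset.1 hx)
      exact ⟨pos_of_ray hray, Int.natCast_pos.2 hg⟩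
  refine ⟨g1 * g2 * ∏ j : Fin r, (X j : MvPolynomial (Fin r) F), S,
    mul_ne_zero (mul_ne_zero hg1 hg2) hg3, hSpos, fun c hc => ?_⟩
  rw [map_mul, map_mul, map_prod] at hc
  have hcne : ∀ j, c j ≠ 0 := by
    intro j hj
    have h5 := Finset.prod_ne_zero_iff.1 (right_ne_zero_of_mul hc) j (Finset.mem_univ j)
    rw [aeval_X, hj] at h5
    exact h5 rfl
  have hb := h1 _ (left_ne_zero_of_mul (left_ne_zero_of_mul hc))
  have hnd := h2 _ (right_ne_zero_of_mul (left_ne_zero_of_mul hc))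
  refine ⟨fun p hp b hb' => ?_, fun φ hφ => ?_⟩
  · rcases Finset.mem_insert.1 hp with rfl | hp
    · have e : (((-1 : ℤ) : ℂ) / ((1 : ℤ) : ℂ)) = -1 := by
        push_cast
        ring
      rw [e]
      exact (hb b hb').1
    · obtain ⟨x, hx, rfl⟩ := Finset.mem_image.1 hp
      obtain ⟨-, -, hP⟩ := hl x (List.mem_toFinset.1 hx)
      rw [← (hb b hb').2 _ hP]
      congr 1
      push_cast
      ring
  set m := Fin.append v (we h) with hm
  set c' : Fin (r + h.support.card) → ℂ := Fin.append c (fun l => algebraMap F ℂ (wc h l))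
    with hc'
  have hf : spa v c + MvPolynomial.map (algebraMap F ℂ) h = sp 0 m c' 1 :=
    sp_eq (algebraMap F ℂ) v c h
  have hndA : NonD m (fun j => algebraMap ℂ (AlgebraicClosure ℂ) (c' j)) :=
    nonD_ext (k := ℂ) (L := AlgebraicClosure ℂ) m c' (by simpa using hnd)
  have hNG := nonG_of_nonD m c' hndA
  have hcn' : ∀ j, c' j ≠ 0 := by
    intro j
    refine Fin.addCases (fun j => ?_) (fun l => ?_) j
    · rw [hc', Fin.append_left]
      exact hcne j
    · rw [hc', Fin.append_right]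
      exact (map_ne_zero _).2 (mem_support_iff.1 (h.support.equivFin.symm l).2)
  have hS1 : ((-1 : ℤ), (1 : ℤ)) ∈ (S : Set (ℤ × ℤ)) :=
    Finset.mem_coe.2 (Finset.mem_insert_self _ _)
  have hz := hodgeNG_mem hr ℂ φ hφ v hv0 (we h)
    (fun l => hh _ (h.support.equivFin.symm l).2) (app_inj v hv h hvh) c' hcn'
    (fun u _ z hz h0 => hndA u z hz h0) (fun u _ z h1 h2 => hNG u z h1 h2) (S : Set (ℤ × ℤ)) hS1
    ω0 hG l (fun a ha => ⟨(hl a ha).2.1, Finset.mem_coe.2 (Finset.mem_insert_of_mem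
      (Finset.mem_image.2 ⟨a, List.mem_toFinset.2 ha, rfl⟩))⟩) hUg
  have hz0 := of_zetaN _ φ _ hz
  refine ⟨?_, fun hG' => ?_⟩
  · rw [hf, zetaOrd_eq, map_mul, PowerSeries.map_C, ← W00_eq]
    exact (ratR uX S).mul_mem (CR_mem uX _ _) hz0
  · rw [hf, zetaOrd_eq, map_mul, PowerSeries.map_C]
    refine (ratR uX S).mul_mem (CR_mem uX _ _) ?_
    rcases hG' with ⟨d, hvd, hhd⟩ | hC
    · have hd : 0 < d := by
        have h1 := hvd ⟨0, hr⟩
        by_contra h2
        apply hv0 ⟨0, hr⟩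
        funext i
        have h3 : v ⟨0, hr⟩ i ≤ ∑ i, v ⟨0, hr⟩ i :=
          Finset.single_le_sum (f := fun i => v ⟨0, hr⟩ i) (fun _ _ => Nat.zero_le _)
            (Finset.mem_univ i)
        change v ⟨0, hr⟩ i = 0
        omega
      refine form_globalE hd _ ?_ φ _ (fun p hp => (hSpos p (Finset.mem_coe.1 hp)).2) _ good_units
        hz0
      rw [← hf]
      exact (hom_sumX v c hvd).add ((hom_of h d hhd).map _)
    · refine conv_globalE m (by omega) c' (fun u _ z h1 h2 => hNG u z h1 h2) ?_ φ hφ.1 _ hS1 _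
        good_units hz0
      intro i
      obtain ⟨j, hj⟩ := hC i
      refine ⟨Fin.castAdd _ j, fun i' hi' => ?_⟩
      rw [hm, Fin.append_left]
      exact hj i' hi'

end Pool.Agent.Y228.HX
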