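import Pool.Agent.Y228.HX.S3

set_option autoImplicit false
set_option maxHeartbeats 400000

/-! # Project HX: further exponents, the zeta function of the jets with angular component `1` -/

namespace Pool.Agent.Y228.HX

open Pool.Agent.TH216.MF (frc cser FR evR geoR_mul ratR ratR_mem CR_mem XR_mem geoR_mem IsPol fac)
open Pool.Agent.W426.SM (gord ford IsRay face)
open Pool.Agent.W803.SM (filt gord_le)
open Pool.Agent.W428.MOT

variable {r N s : ℕ}

section app

variable (v : Fin r → Fin N → ℕ) (e : Fin s → Fin N → ℕ)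

lemma app_ne (hv0 : ∀ j, v j ≠ 0) (he : ∀ l, InNP v (e l)) : ∀ j, Fin.append v e j ≠ 0 := by
  intro j
  refine Fin.addCases (fun j => ?_) (fun l => ?_) j
  · rw [Fin.append_left]
    exact hv0 j
  · rw [Fin.append_right]
    intro h
    obtain ⟨a, h1, h2, h3⟩ := he l
    obtain ⟨j, -, hj⟩ : ∃ j ∈ (Finset.univ : Finset (Fin r)), a j ≠ 0 := by
      refine Finset.exists_ne_zero_of_sum_ne_zero ?_
      rw [h2]
      exact one_ne_zero
    obtain ⟨i, hi⟩ : ∃ i, v j i ≠ 0 := by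
      by_contra hcon
      push Not at hcon
      exact hv0 j (funext hcon)
    have h4 := h3 i
    rw [h, Pi.zero_apply, Nat.cast_zero] at h4
    have h5 : a j * (v j i : ℚ) ≤ ∑ j, a j * (v j i : ℚ) :=
      Finset.single_le_sum (f := fun j => a j * (v j i : ℚ))
        (fun j _ => mul_nonneg (h1 j) (Nat.cast_nonneg _)) (Finset.mem_univ j)
    have h6 : 0 < a j * (v j i : ℚ) :=
      mul_pos (lt_of_le_of_ne (h1 j) (Ne.symm hj)) (by exact_mod_cast Nat.pos_of_ne_zero hi)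
    linarith

/-- the dilations -/
lemma Dil0_app (hr : 0 < r) (he : ∀ l, InNP v (e l)) (x : Fin N → ℕ) (hx : ∀ i, 0 < x i)
    (k : ℕ) : Dil0 (Fin.append v e) (amin (Fin.append v e) x) k = Dil0 v (amin v x) k := by
  classical
  ext y
  have hmem : ∀ j, Fin.castAdd s j ∈ amin (Fin.append v e) x ↔ j ∈ amin v x := by
    intro j
    rw [← rs_amin v e hr he x]
    unfold rs
    rw [Finset.mem_filter]
    simp
  constructor
  · rintro ⟨l, h1, h2, h3, h4⟩
    have hc : ∀ t : Fin s, ∃ a : Fin r → ℚ, (∀ j, j ∉ amin v x → l (Fin.natAdd r t) * a j = 0) ∧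
        (∀ j, 0 ≤ l (Fin.natAdd r t) * a j) ∧
        ∑ j, l (Fin.natAdd r t) * a j = l (Fin.natAdd r t) ∧
        ∀ i, ∑ j, l (Fin.natAdd r t) * a j * (v j i : ℚ) = l (Fin.natAdd r t) * (e t i : ℚ) := by
      intro t
      by_cases ht : Fin.natAdd r t ∈ amin (Fin.append v e) x
      · obtain ⟨a, a1, a2, a3, a4⟩ := face_conv v e hr he x hx t ht
        refine ⟨a, fun j hj => by rw [a1 j hj, mul_zero], fun j => mul_nonneg (h2 _) (a2 j), ?_,
          fun i => ?_⟩
        · rw [← Finset.mul_sum, a3, mul_one]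
        · rw [← a4 i, Finset.mul_sum]
          refine Finset.sum_congr rfl fun j _ => by ring
      · have h0 := h1 _ ht
        refine ⟨fun _ => 0, fun j _ => by simp, fun j => by simp, ?_, fun i => ?_⟩
        · rw [h0]
          simp
        · rw [h0]
          simp
    choose a a1 a2 a3 a4 using hc
    refine ⟨fun j => l (Fin.castAdd s j) + ∑ t, l (Fin.natAdd r t) * a t j, fun j hj => ?_,
      fun j => ?_, fun i => ?_, ?_⟩
    · change l (Fin.castAdd s j) + ∑ t, l (Fin.natAdd r t) * a t j = 0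
      rw [h1 _ (fun h => hj ((hmem j).1 h)), zero_add]
      exact Finset.sum_eq_zero fun t _ => a1 t j hj
    · exact add_nonneg (h2 _) (Finset.sum_nonneg fun t _ => a2 t j)
    · rw [h3 i, Fin.sum_univ_add]
      simp only [Fin.append_left, Fin.append_right, add_mul, Finset.sum_add_distrib]
      congr 1
      simp only [Finset.sum_mul]
      rw [Finset.sum_comm]
      exact Finset.sum_congr rfl fun t _ => (a4 t i).symm
    · refine le_of_eq_of_le ?_ h4
      rw [Fin.sum_univ_add, Finset.sum_add_distrib]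
      congr 1
      rw [Finset.sum_comm]
      exact Finset.sum_congr rfl fun t _ => a3 t
  · rintro ⟨l, h1, h2, h3, h4⟩
    refine ⟨Fin.append l (fun _ => 0), fun j => ?_, fun j => ?_, fun i => ?_, ?_⟩
    · refine Fin.addCases (fun j hj => ?_) (fun t _ => ?_) j
      · rw [Fin.append_left]
        exact h1 j fun h => hj ((hmem j).2 h)
      · rw [Fin.append_right]
    · refine Fin.addCases (fun j => ?_) (fun t => ?_) j
      · rw [Fin.append_left]
        exact h2 j
      · rw [Fin.append_right]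
    · rw [h3 i, Fin.sum_univ_add]
      simp only [Fin.append_left, Fin.append_right, zero_mul, Finset.sum_const_zero, add_zero]
    · rw [Fin.sum_univ_add]
      simp only [Fin.append_left, Fin.append_right, Finset.sum_const_zero, add_zero]
      exact h4

end app

section ring

variable {R : Type} [CommRing R] (u : Rˣ)

/-- **The class formula.** `g τ` and `k τ` are the values of the two class functions. -/
theorem FR_XG (v : Fin r → Fin N → ℕ) (D' : ℕ)
    (G' Kp : Finset (Fin r) → Polynomial ℤ) (b0 b1 : Finset (Fin r) → R)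
    (g k : Finset (Fin r) → R)
    (hg : ∀ τ, cser v Finset.univ τ ≠ 0 →
      (1 - ((u⁻¹ : Rˣ) : R)) ^ D' * g τ = evR u (G' τ))
    (hk : ∀ τ, cser v Finset.univ τ ≠ 0 →
      (1 - ((u⁻¹ : Rˣ) : R)) ^ D' * k τ = evR u (Kp τ))
    (hb0 : ∀ τ, cser v Finset.univ τ ≠ 0 → b0 τ = ((u : R) - 1) ^ (N - frc v Finset.univ τ) *
      ((u⁻¹ : Rˣ) : R) * (1 - g τ - (u : R) * k τ))
    (hb1 : ∀ τ, cser v Finset.univ τ ≠ 0 → b1 τ = ((u : R) - 1) ^ (N - frc v Finset.univ τ) *
      ((u⁻¹ : Rˣ) : R) * (1 + ((u : R) - 1) * g τ)) :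
    PowerSeries.C ((1 - ((u⁻¹ : Rˣ) : R)) ^ D') * FR u v Finset.univ b0 b1 *
      (1 - PowerSeries.C ((u⁻¹ : Rˣ) : R) * PowerSeries.X) =
      PowerSeries.C ((u : R) ^ N * ((u⁻¹ : Rˣ) : R)) * (PowerSeries.map (evR u) ((PowerSeries.X - 1) * US v G' +
        US v (fun _ => (1 - Polynomial.X) ^ D')) -
        PowerSeries.C (u : R) * (1 - PowerSeries.C ((u⁻¹ : Rˣ) : R) * PowerSeries.X) *
          PowerSeries.map (evR u) (US v Kp)) := by
  set Y : R := ((u⁻¹ : Rˣ) : R) with hY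
  have huY : (u : R) * Y = 1 := Units.mul_inv u
  have hgeo : geoR u (-1) 1 * (1 - PowerSeries.C Y * PowerSeries.X) = 1 := by
    have h1 := geoR_mul u (-1) 1 one_pos
    rw [zpow_neg_one] at h1
    have h2 : (1 : ℤ).toNat = 1 := rfl
    rw [h2, pow_one] at h1
    rw [mul_comm]
    exact h1
  have hUg : PowerSeries.map (evR u) ((PowerSeries.X - 1) * US v G' +
        US v (fun _ => (1 - Polynomial.X) ^ D')) = (PowerSeries.X - 1) *
      PowerSeries.map (evR u) (US v G') +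
        PowerSeries.map (evR u) (US v (fun _ => (1 - Polynomial.X) ^ D')) := by
    rw [map_add (PowerSeries.map (evR u)), map_mul (PowerSeries.map (evR u)),
      map_sub (PowerSeries.map (evR u)), map_one (PowerSeries.map (evR u)), PowerSeries.map_X]
  rw [hUg, map_US, map_US, map_US]
  rw [← hY]
  unfold FR
  rw [Finset.mul_sum, Finset.sum_mul]
  rw [Finset.mul_sum, Finset.mul_sum, ← Finset.sum_add_distrib, ← Finset.sum_sub_distrib,
    Finset.mul_sum]
  refine Finset.sum_congr rfl fun τ _ => ?_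
  by_cases hτ : cser v Finset.univ τ = 0
  · rw [hτ, map_zero]
    ring
  set Cs := PowerSeries.map (evR u) (cser v Finset.univ τ) with hCs
  set fr := frc v Finset.univ τ with hfr
  have h1 : (u : R) ^ fr * ((u : R) - 1) ^ (N - fr) = (u : R) ^ N * (1 - Y) ^ (N - fr) := by
    have h2 : ((u : R) - 1) = (u : R) * (1 - Y) := by
      linear_combination huY
    rw [h2, mul_pow, ← mul_assoc, ← pow_add, Nat.add_sub_cancel' (frcN v τ)]
  have hpow : evR u ((1 - Polynomial.X) ^ D' : Polynomial ℤ) = (1 - Y) ^ D' := by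
    rw [map_pow, map_sub, map_one, Pool.Agent.TH216.MF.evR_X]
  rw [hpow, ← hg τ hτ, ← hk τ hτ, hb0 τ hτ, hb1 τ hτ]
  simp only [map_mul, map_sub, map_add, map_one, map_pow] at h1 hgeo ⊢
  have h1' := congrArg (PowerSeries.C (R := R)) h1
  simp only [map_mul, map_sub, map_one, map_pow] at h1'
  have huY' := congrArg (PowerSeries.C (R := R)) huY
  simp only [map_mul, map_one] at huY'
  generalize PowerSeries.C (R := R) (u : R) = U at *
  generalize PowerSeries.C (R := R) Y = y at *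
  generalize PowerSeries.C (R := R) (g τ) = gg at *
  generalize PowerSeries.C (R := R) (k τ) = kk at *
  generalize (PowerSeries.X : PowerSeries R) = T at *
  generalize geoR u (-1) 1 = G at *
  generalize (1 - y) ^ D' = D at *
  generalize (U - 1) ^ (N - fr) = A at *
  generalize (1 - y) ^ (N - fr) = B at *
  generalize U ^ fr = F at *
  generalize U ^ N = E at *
  linear_combination (D * Cs * y * ((1 - gg - U * kk) * (1 - y * T) + (1 + (U - 1) * gg) * y * T)) * h1'
    + (D * F * A * y * Cs * y * T * (1 + (U - 1) * gg)) * hgeo + (D * E * B * Cs * y * T * gg) * huY'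

/-- membership -/
theorem FR_memXG {S : Set (ℤ × ℤ)} (hS1 : ((-1 : ℤ), (1 : ℤ)) ∈ S) (hr : 0 < r)
    (v : Fin r → Fin N → ℕ) (e : Fin s → Fin N → ℕ) (he : ∀ l, InNP v (e l))
    (ω : Fin r → ℕ) (l : List (Fin N → ℕ))
    (hl : ∀ a ∈ l, 0 < gord v a ∧ (-((∑ i, a i : ℕ) : ℤ), (gord v a : ℤ)) ∈ S)
    (hGg : IsPol (Ug v ω * (l.map (fac v)).prod))
    (hGk : IsPol (US v (KP v ω) * (l.map (fac v)).prod))
    (hu : IsUnit (1 - ((u⁻¹ : Rˣ) : R))) (b0 b1 : Finset (Fin (r + s)) → R)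
    (g k : Finset (Fin (r + s)) → R)
    (hg : ∀ τ, cser (Fin.append v e) Finset.univ τ ≠ 0 →
      (1 - ((u⁻¹ : Rˣ) : R)) ^ r * g τ = evR u (GP v ω (rs τ)))
    (hk : ∀ τ, cser (Fin.append v e) Finset.univ τ ≠ 0 →
      (1 - ((u⁻¹ : Rˣ) : R)) ^ r * k τ = evR u (KP v ω (rs τ)))
    (hb0 : ∀ τ, cser (Fin.append v e) Finset.univ τ ≠ 0 → b0 τ = ((u : R) - 1) ^ (N - frc (Fin.append v e) Finset.univ τ) *
      ((u⁻¹ : Rˣ) : R) * (1 - g τ - (u : R) * k τ))
    (hb1 : ∀ τ, cser (Fin.append v e) Finset.univ τ ≠ 0 → b1 τ = ((u : R) - 1) ^ (N - frc (Fin.append v e) Finset.univ τ) *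
      ((u⁻¹ : Rˣ) : R) * (1 + ((u : R) - 1) * g τ)) :
    FR u (Fin.append v e) Finset.univ b0 b1 ∈ ratR u S := by
  have h0 := FR_XG u (Fin.append v e) r (fun τ => GP v ω (rs τ)) (fun τ => KP v ω (rs τ)) b0 b1 g k
    hg hk hb0 hb1
  have hUU : (PowerSeries.X - 1) * US (Fin.append v e) (fun τ => GP v ω (rs τ)) +
      US (Fin.append v e) (fun _ => (1 - Polynomial.X) ^ r) = Ug v ω := by
    rw [US_app v e hr he (GP v ω), US_app v e hr he (fun _ => (1 - Polynomial.X) ^ r)]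
    rfl
  rw [hUU, US_app v e hr he (KP v ω)] at h0
  set Y : R := ((u⁻¹ : Rˣ) : R) with hY
  obtain ⟨D, hD⟩ := hu
  have hgeo : (1 - PowerSeries.C Y * PowerSeries.X) * geoR u (-1) 1 = 1 := by
    have h1 := geoR_mul u (-1) 1 one_pos
    rw [zpow_neg_one] at h1
    have h2 : (1 : ℤ).toNat = 1 := rfl
    rw [h2, pow_one] at h1
    exact h1
  have hDi : PowerSeries.C (((D⁻¹ : Rˣ) : R) ^ r) * PowerSeries.C ((1 - Y) ^ r) = 1 := by
    rw [← map_mul, ← hD, ← mul_pow, Units.inv_mul, one_pow, map_one]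
  have h1 : FR u (Fin.append v e) Finset.univ b0 b1 = PowerSeries.C (((D⁻¹ : Rˣ) : R) ^ r) *
      (PowerSeries.C ((u : R) ^ N * Y) * (PowerSeries.map (evR u) (Ug v ω) -
        PowerSeries.C (u : R) * (1 - PowerSeries.C Y * PowerSeries.X) *
          PowerSeries.map (evR u) (US v (KP v ω)))) * geoR u (-1) 1 := by
    rw [← h0]
    linear_combination (-(FR u (Fin.append v e) Finset.univ b0 b1)) * hDi -
      (PowerSeries.C (((D⁻¹ : Rˣ) : R) ^ r) * PowerSeries.C ((1 - Y) ^ r) *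
        FR u (Fin.append v e) Finset.univ b0 b1) * hgeo
  rw [h1]
  have hG1 := ratR_mem (S := S) u v l hl _ hGg
  have hG2 := ratR_mem (S := S) u v l hl _ hGk
  refine (ratR u S).mul_mem ((ratR u S).mul_mem (CR_mem u S _) ((ratR u S).mul_mem
    (CR_mem u S _) ((ratR u S).sub_mem hG1 ((ratR u S).mul_mem ((ratR u S).mul_mem
      (CR_mem u S _) ((ratR u S).sub_mem (ratR u S).one_mem ((ratR u S).mul_mem
        (CR_mem u S _) (XR_mem u S)))) hG2)))) (geoR_mem u (p := ((-1 : ℤ), (1 : ℤ))) hS1)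

end ring

/-- **The theorem over one field.** -/
theorem hodgeXG_mem (hEHR : S_EHR) (hSER : S_SER) (hINDP : S_INDP) (hEXP : S_EXP)
    (hRATI : S_RATI)
    (hr : 0 < r) (K : Type) [Field K] [CharZero K] (φ : MK K →+* RatFunc ℚ) (hφ : ChiY φ)
    (v : Fin r → Fin N → ℕ) (hv0 : ∀ j, v j ≠ 0) (e : Fin s → Fin N → ℕ)
    (he : ∀ l, InNP v (e l)) (hm : Function.Injective (Fin.append v e)) (c : Fin (r + s) → K)
    (hc : ∀ j, c j ≠ 0)
    (hnd : Pool.Agent.Y229.CF.NonDP (Fin.append v e)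
      (fun j => algebraMap K (AlgebraicClosure K) (c j)))
    (hNon : Pool.Agent.Y229.CF.Mot.NonGJ Finset.univ (Fin.append v e) c) (S : Set (ℤ × ℤ))
    (hS1 : ((-1 : ℤ), (1 : ℤ)) ∈ S) (ω : Fin r → ℕ) (hG : Gen v ω) (l : List (Fin N → ℕ))
    (hl : ∀ a ∈ l, 0 < gord v a ∧ (-((∑ i, a i : ℕ) : ℤ), (gord v a : ℤ)) ∈ S)
    (hGg : IsPol (Ug v ω * (l.map (fac v)).prod))
    (hGk : IsPol (US v (KP v ω) * (l.map (fac v)).prod)) :
    PowerSeries.map φ (zeta (sp 0 (Fin.append v e) c 1) 0) ∈ ratR uX S := by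
  classical
  have hrs : 0 < r + s := by omega
  have hm0 := app_ne v e hv0 he
  set m := Fin.append v e with hmdef
  obtain ⟨b0, b1, z0, hz, hb0, hb1⟩ := zeta_FR m hrs c hNon
  have hu : Units.map (φ : MK K →* RatFunc ℚ) (Lu K) = uX := Units.ext hφ.1
  rw [hz, map_add, FR_map, hu, PowerSeries.map_C]
  refine (ratR uX S).add_mem ?_ (Pool.Agent.TH216.MF.CR_mem uX S _)
  have hX0 : (RatFunc.X : RatFunc ℚ) ≠ 0 := RatFunc.X_ne_zero
  have hX1 := X_sub_one_ne
  have hX1' : (1 - RatFunc.X : RatFunc ℚ) ≠ 0 := fun h => hX1 (by linear_combination -h)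
  have hui : ((uX⁻¹ : (RatFunc ℚ)ˣ) : RatFunc ℚ) = (RatFunc.X : RatFunc ℚ)⁻¹ := rfl
  have huv : ((uX : (RatFunc ℚ)ˣ) : RatFunc ℚ) = RatFunc.X := rfl
  have hev : ∀ p : Polynomial ℤ, evR uX p =
      Polynomial.eval₂ (Int.castRingHom (RatFunc ℚ)) (RatFunc.X : RatFunc ℚ)⁻¹ p := fun p => rfl
  have hdat : ∀ τ : Finset (Fin (r + s)), cser m Finset.univ τ ≠ 0 → ∃ x : Fin N → ℕ,
      (∀ i, 0 < x i) ∧ τ = amin m x ∧ (∀ i, 0 < (x i : ℚ)) ∧
      (∀ j, ((gord v x : ℕ) : ℚ) ≤ ∑ i, (x i : ℚ) * (v j i : ℚ)) ∧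
      0 < ((gord v x : ℕ) : ℚ) ∧
      ∀ j, j ∈ rs τ ↔ ∑ i, (x i : ℚ) * (v j i : ℚ) = ((gord v x : ℕ) : ℚ) := by
    intro τ hτ
    obtain ⟨x, hx, hxτ⟩ := cser_ex m τ hτ
    obtain ⟨h1, h2, h3, h4⟩ := face_data hr v hv0 x hx
    refine ⟨x, hx, hxτ.symm, h1, h2, h3, ?_⟩
    intro j
    rw [← hxτ, hmdef, rs_amin v e hr he x]
    exact h4 j
  -- the values of the classes
  have hcoef : ∀ d : ℕ, ((1 - Polynomial.X : Polynomial ℚ) ^ d).coeff 0 ≠ 0 := by
    intro d
    rw [Polynomial.coeff_zero_eq_eval_zero]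
    simp
  have hval1 : ∀ τ, cser m Finset.univ τ ≠ 0 → φ (b1 τ) * (RatFunc.X - 1) ^ frc m Finset.univ τ =
      ((RatFunc.X - 1) ^ N + (RatFunc.X - 1) ^ (N + 1) * gX v ω (rs τ)) / RatFunc.X := by
    intro τ hτ
    obtain ⟨x, hx, hxτ, h1, h2, h3, h4⟩ := hdat τ hτ
    have h5 := A0_eq hEHR hSER hINDP v ω hG _ _ h1 h2 h3 (rs τ) h4
    have h6 := Expd_of (A0 v ω (rs τ)) ((1 - Polynomial.X) ^ r) (hcoef r) _ (by
      rw [h5]
      push_cast
      rfl)
    have h7 := (hEXP r N v ω hG _ _ h1 h2 h3 (rs τ) h4).1 _ h6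
    have hDD : (PowerSeries.mk fun k => ((Dil m τ k).ncard : ℚ)) =
        PowerSeries.mk fun k => ((Dil v (rs τ) k).ncard : ℚ) := by
      congr 1
      funext k
      rw [hxτ, hmdef, Dil_app v e hr he x hx, rs_amin v e hr he x]
    have h8 := hφ.2 N (r + s) m τ c _ (fun j _ => hc j) (fun a _ b _ h => hm h)
      (by rw [hxτ]; exact nonL_face hrs m c hnd x hx) (by rw [hDD]; exact h6)
    have h9 := congrArg φ (hb1 τ)
    rw [map_mul, map_pow, map_sub, map_one, hφ.1] at h9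
    rw [h9]
    unfold clM
    rw [← ZT_zero, h8, h7]
    rfl
  have hval0 : ∀ τ, cser m Finset.univ τ ≠ 0 → φ (b0 τ) * (RatFunc.X - 1) ^ frc m Finset.univ τ =
      ((RatFunc.X - 1) ^ N + (RatFunc.X - 1) ^ (N + 1) *
        ∑ I ∈ (rs τ).powerset, (if TT v ω I then
        (Polynomial.aeval (RatFunc.X : RatFunc ℚ) (P1 v I)) / (1 - RatFunc.X) ^ I.card +
        (Polynomial.aeval (RatFunc.X : RatFunc ℚ) (P1 (vp v) (Ip I))) /
          (1 - RatFunc.X) ^ (I.card + 1) else 0)) / RatFunc.X := by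
    intro τ hτ
    obtain ⟨x, hx, hxτ, h1, h2, h3, h4⟩ := hdat τ hτ
    have h5 := A1_eq hEHR hSER hINDP v ω hG _ _ h1 h2 h3 (rs τ) h4
    have h6 := Expd_of (A1 v ω (rs τ)) ((1 - Polynomial.X) ^ (r + 1)) (hcoef (r + 1)) _ (by
      rw [h5]
      push_cast
      rfl)
    have h7 := (hEXP r N v ω hG _ _ h1 h2 h3 (rs τ) h4).2 _ h6
    have h10 : gord v x ≠ 0 := by
      have h11 : 0 < gord v x := by exact_mod_cast h3
      omega
    have h12 : NonL (vp m) (Ip τ) (cp1 c) := by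
      refine nonL_vp m c τ (by rw [hxτ]; exact nonL_face hrs m c hnd x hx) x (gord v x) h10 ?_
      intro j hj
      rw [hxτ] at hj
      have h13 := (Finset.mem_filter.1 hj).2
      rw [h13, hmdef, gord_app v e hr he x]
    have h14 : (PowerSeries.mk fun k => ((Dil (vp m) (Ip τ) k).ncard : ℚ)) =
        PowerSeries.mk fun k => ((Dil0 v (rs τ) k).ncard : ℚ) := by
      simp_rw [dil_vp]
      congr 1
      funext k
      rw [hxτ, hmdef, Dil0_app v e hr he x hx, rs_amin v e hr he x]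
    have h8 := hφ.2 N (r + s + 1) (vp m) (Ip τ) (cp1 c) _ (fun j _ => by
        refine Fin.cases ?_ (fun j' => ?_) j
        · exact neg_ne_zero.2 one_ne_zero
        · exact hc j') (injOn_vp m hm hm0 τ) h12 (by rw [h14]; exact h6)
    have h9 := congrArg φ (hb0 τ)
    rw [map_mul, map_pow, map_sub, map_one, hφ.1] at h9
    rw [h9]
    unfold clM
    rw [← ZT_one, h8, h7]
  have hpow : ∀ τ, (RatFunc.X - 1 : RatFunc ℚ) ^ N = (RatFunc.X - 1) ^ (N - frc m Finset.univ τ) *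
      (RatFunc.X - 1) ^ frc m Finset.univ τ := by
    intro τ
    rw [← pow_add, Nat.sub_add_cancel (frcN m τ)]
  refine FR_memXG uX hS1 hr v e he ω l hl hGg hGk ?_ _ _ (fun τ => gX v ω (rs τ))
    (fun τ => kX v ω (rs τ)) ?_ ?_ ?_ ?_
  · rw [hui, isUnit_iff_ne_zero]
    intro h
    apply hX1
    field_simp at h
    linear_combination h
  · -- the first class function
    intro τ hτ
    rw [hui, hev]
    change (1 - (RatFunc.X : RatFunc ℚ)⁻¹) ^ r * gX v ω (rs τ) = _
    unfold gX GP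
    rw [Finset.mul_sum, Polynomial.eval₂_finset_sum]
    refine Finset.sum_congr rfl fun I hI => ?_
    split_ifs with hT
    · have h1 := hRATI r N v I ((hINDP r N v ω hG).1 I hT) r (card_le_r I)
      rw [← h1]
      ring
    · simp
  · intro τ hτ
    obtain ⟨x, hx, hxτ, a1, a2, a3, a4⟩ := hdat τ hτ
    rw [hui, hev]
    change (1 - (RatFunc.X : RatFunc ℚ)⁻¹) ^ r * kX v ω (rs τ) = _
    unfold kX KP
    rw [Finset.mul_sum, Polynomial.eval₂_finset_sum]
    refine Finset.sum_congr rfl fun I hI => ?_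
    split_ifs with hT
    · have h1 := hRATI r N v I ((hINDP r N v ω hG).1 I hT) r (card_le_r I)
      have h2 := hRATI (r + 1) N (vp v) (Ip I) ((hINDP r N v ω hG).2 _ _ a3.ne' I hT
        fun j hj => (a4 j).1 (Finset.mem_powerset.1 hI hj)) (r + 1) (card_le_r _)
      rw [card_Ip] at h2
      rw [Polynomial.eval₂_sub, Polynomial.eval₂_neg, ← h1, ← h2]
      ring
    · simp
  · -- the classes `b0`
    intro τ hτ
    have h1 := hval0 τ hτ
    rw [hpow τ, pow_succ, hpow τ] at h1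
    have h2 : gX v ω (rs τ) + RatFunc.X * kX v ω (rs τ) = (1 - RatFunc.X) *
        ∑ I ∈ (rs τ).powerset, (if TT v ω I then
        (Polynomial.aeval (RatFunc.X : RatFunc ℚ) (P1 v I)) / (1 - RatFunc.X) ^ I.card +
        (Polynomial.aeval (RatFunc.X : RatFunc ℚ) (P1 (vp v) (Ip I))) /
          (1 - RatFunc.X) ^ (I.card + 1) else 0) := by
      unfold gX kX
      rw [Finset.mul_sum, Finset.mul_sum, ← Finset.sum_add_distrib]
      refine Finset.sum_congr rfl fun I _ => ?_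
      split_ifs
      · generalize (Polynomial.aeval (RatFunc.X : RatFunc ℚ)) (P1 (vp v) (Ip I)) /
          (1 - RatFunc.X) ^ (I.card + 1) = B
        generalize (Polynomial.aeval (RatFunc.X : RatFunc ℚ)) (P1 v I) /
          (1 - RatFunc.X) ^ I.card = A
        field_simp
        ring
      · simp
    rw [hui, huv]
    have h3 : (1 - gX v ω (rs τ) - RatFunc.X * kX v ω (rs τ)) = 1 + (RatFunc.X - 1) *
        ∑ I ∈ (rs τ).powerset, (if TT v ω I then
        (Polynomial.aeval (RatFunc.X : RatFunc ℚ) (P1 v I)) / (1 - RatFunc.X) ^ I.card +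
        (Polynomial.aeval (RatFunc.X : RatFunc ℚ) (P1 (vp v) (Ip I))) /
          (1 - RatFunc.X) ^ (I.card + 1) else 0) := by
      linear_combination -h2
    rw [h3]
    have hp : (RatFunc.X - 1 : RatFunc ℚ) ^ frc m Finset.univ τ ≠ 0 := pow_ne_zero _ hX1
    apply mul_right_cancel₀ hp
    rw [h1, div_eq_mul_inv]
    ring
  · intro τ hτ
    have h1 := hval1 τ hτ
    rw [hpow τ, pow_succ, hpow τ] at h1
    rw [hui, huv]
    have hp : (RatFunc.X - 1 : RatFunc ℚ) ^ frc m Finset.univ τ ≠ 0 := pow_ne_zero _ hX1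
    apply mul_right_cancel₀ hp
    rw [h1, div_eq_mul_inv]
    ring

end Pool.Agent.Y228.HX
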