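import Pool.Agent.Y228.HX.S4
import Pool.Agent.Y228.HX.S5

set_option autoImplicit false
set_option maxHeartbeats 400000

/-! # Project HX: the strong monodromy conjecture for generic coefficients, jets with `f = t ^ m` -/

namespace Pool.Agent.Y228.HX

open MvPolynomial Pool.Agent.H628R4.TP Pool.Agent.W425.MM Pool.Agent.W425.GN
open Pool.Agent.TH216.MF (ratR CR_mem IsPol fac)
open Pool.Agent.TH216.MC (pos_of_ray rootsL)
open Pool.Agent.W426.SM (gord ford IsRay face)
open Pool.Agent.W428.MOT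
open Pool.Agent.W425.ND (spa)
open Pool.Agent.W425.SV (NP)
open Pool.Agent.W375.MG (zetaG zetaW good_one zetaW_eq)

variable {r N : ℕ}

/-- from `zeta` to `zetaG` -/
lemma of_zeta {n : ℕ} {K : Type} [Field K] (f : MvPolynomial (Fin n) K)
    (φ : MK K →+* RatFunc ℚ) (S : Set (ℤ × ℤ))
    (h : PowerSeries.map φ (zeta f 0) ∈ ratR uX S) :
    PowerSeries.map φ (zetaG f (W00 K n) {1}) ∈ ratR uX S := by
  rw [zeta_zetaG, map_sub, PowerSeries.map_C] at h
  have := (ratR uX S).add_mem h (CR_mem uX S (φ (PowerSeries.coeff 0 (zetaG f (W00 K n) {1}))))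
  rwa [sub_add_cancel] at this

/-- **The strong monodromy conjecture for the `χ_y`-genus, generic coefficients.** -/
theorem strongE {F : Type} [Field F] [Algebra F ℂ] (hr : 0 < r)
    (v : Fin r → Fin N → ℕ) (hv : Function.Injective v) (hv0 : ∀ j, v j ≠ 0)
    (h : MvPolynomial (Fin N) F) (hh : ∀ w ∈ h.support, InNP v fun i => w i)
    (hvh : ∀ w ∈ h.support, ∀ j, ¬ ∀ x, w x = v j x) :
    ∃ (g : MvPolynomial (Fin r) F) (S : Finset (ℤ × ℤ)), g ≠ 0 ∧ (∀ p ∈ S, p.1 < 0 ∧ 0 < p.2) ∧
      ∀ (k : Type) [Field k] [Algebra F k] [Algebra k ℂ] [IsScalarTower F k ℂ] (c : Fin r → k),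
        aeval c g ≠ 0 →
        (∀ p ∈ S, ∀ b : Polynomial ℂ, IsLocalBFunction
          (spa v (fun j => algebraMap k ℂ (c j)) + MvPolynomial.map (algebraMap F ℂ) h) b →
            b.eval ((p.1 : ℂ) / p.2) = 0) ∧
        ∀ (K : Type) [Field K] [Algebra k K] (φ : MK K →+* RatFunc ℚ), ChiY φ →
          PowerSeries.map φ (zeta (spa v (fun j => algebraMap k K (c j)) +
            MvPolynomial.map ((algebraMap k K).comp (algebraMap F k)) h) 0) ∈ ratR uX S ∧
          ((∃ d : ℕ, (∀ j, ∑ i, v j i = d) ∧ ∀ w ∈ h.support, ∑ i, w i = d) ∨ Conv v →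
            PowerSeries.map φ (zetaW (spa v (fun j => algebraMap k K (c j)) +
              MvPolynomial.map ((algebraMap k K).comp (algebraMap F k)) h) Set.univ) ∈
                ratR uX S) := by
  classical
  have hh' : ∀ w ∈ h.support, NP v w := fun w hw => (hh w hw).np
  obtain ⟨g1, hg1, h1⟩ := rootsL (F := F) hr v hv hv0 h hh'
  obtain ⟨g2, hg2, h2⟩ := gen_nonDF pF4 hr v (we h) (we_np v h hh') (wc h)
  have hg3 : (∏ j : Fin r, (X j : MvPolynomial (Fin r) F)) ≠ 0 :=
    Finset.prod_ne_zero_iff.2 fun j _ => X_ne_zero j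
  obtain ⟨ω0, l, hG, hl, hUg, hUk⟩ := uniG hr v hv hv0 h hh'
  set S : Finset (ℤ × ℤ) := insert (-1, 1)
    (l.toFinset.image fun a => (-((∑ i, a i : ℕ) : ℤ), (gord v a : ℤ))) with hS
  have hSpos : ∀ p ∈ S, p.1 < 0 ∧ 0 < p.2 := by
    intro p hp
    rcases Finset.mem_insert.1 hp with rfl | hp
    · norm_num
    · obtain ⟨x, hx, rfl⟩ := Finset.mem_image.1 hp
      obtain ⟨hray, hg, -⟩ := hl x (List.mem_toFinset.1 hx)
      exact ⟨pos_of_ray hray, Int.natCast_pos.2 hg⟩
  refine ⟨g1 * g2 * ∏ j : Fin r, (X j : MvPolynomial (Fin r) F), S,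
    mul_ne_zero (mul_ne_zero hg1 hg2) hg3, hSpos, fun k _ _ _ _ c hc0 => ?_⟩
  have hc : aeval (fun j => algebraMap k ℂ (c j))
      (g1 * g2 * ∏ j : Fin r, (X j : MvPolynomial (Fin r) F)) ≠ 0 := by
    intro h0
    apply hc0
    have h3 : algebraMap k ℂ (aeval c
        (g1 * g2 * ∏ j : Fin r, (X j : MvPolynomial (Fin r) F))) = 0 := by
      rw [← h0, ← aeval_algebraMap_apply]
      rfl
    exact (map_eq_zero _).1 h3
  rw [map_mul, map_mul, map_prod] at hc
  have hcne : ∀ j, c j ≠ 0 := by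
    intro j hj
    have h5 := Finset.prod_ne_zero_iff.1 (right_ne_zero_of_mul hc) j (Finset.mem_univ j)
    rw [aeval_X, hj, map_zero] at h5
    exact h5 rfl
  have hb := h1 _ (left_ne_zero_of_mul (left_ne_zero_of_mul hc))
  have hnd := h2 _ (right_ne_zero_of_mul (left_ne_zero_of_mul hc))
  refine ⟨fun p hp b hb' => ?_, fun K _ _ φ hφ => ?_⟩
  · rcases Finset.mem_insert.1 hp with rfl | hp
    · have e : (((-1 : ℤ) : ℂ) / ((1 : ℤ) : ℂ)) = -1 := by
        push_cast
        ring
      rw [e]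
      exact (hb b hb').1
    · obtain ⟨x, hx, rfl⟩ := Finset.mem_image.1 hp
      obtain ⟨-, -, hP⟩ := hl x (List.mem_toFinset.1 hx)
      rw [← (hb b hb').2 _ hP]
      congr 1
      push_cast
      ring
  have hK : CharZero K := by
    have hkc : CharZero k := RingHom.charZero (algebraMap k ℂ)
    exact charZero_of_injective_algebraMap (algebraMap k K).injective
  have hnk : NonD (Fin.append v (we h)) (fun j => algebraMap k ℂ
      (Fin.append c (fun l => algebraMap F k (wc h l)) j)) := by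
    rw [append_map]
    simp only [← IsScalarTower.algebraMap_apply F k ℂ]
    exact hnd
  set m := Fin.append v (we h) with hm
  set c' : Fin (r + h.support.card) → K := Fin.append (fun j => algebraMap k K (c j))
    (fun l => (algebraMap k K).comp (algebraMap F k) (wc h l)) with hc'
  have hf : spa v (fun j => algebraMap k K (c j)) +
      MvPolynomial.map ((algebraMap k K).comp (algebraMap F k)) h = sp 0 m c' 1 :=
    sp_eq ((algebraMap k K).comp (algebraMap F k)) v (fun j => algebraMap k K (c j)) h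
  have hndA : NonD m (fun j => algebraMap K (AlgebraicClosure K) (c' j)) := by
    have h4 := nonD_ext (k := k) (L := AlgebraicClosure K) _ _ hnk
    have h5 : (fun j => algebraMap K (AlgebraicClosure K) (c' j)) =
        fun j => algebraMap k (AlgebraicClosure K)
          (Fin.append c (fun l => algebraMap F k (wc h l)) j) := by
      rw [hc', append_map, append_map]
      congr 1
    rw [h5]
    exact h4
  have hNG := nonG_of_nonD m c' hndA
  have hcn' : ∀ j, c' j ≠ 0 := by
    intro j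
    refine Fin.addCases (fun j => ?_) (fun l => ?_) j
    · rw [hc', Fin.append_left]
      exact (map_ne_zero _).2 (hcne j)
    · rw [hc', Fin.append_right]
      exact (map_ne_zero _).2 (mem_support_iff.1 (h.support.equivFin.symm l).2)
  have hS1 : ((-1 : ℤ), (1 : ℤ)) ∈ (S : Set (ℤ × ℤ)) :=
    Finset.mem_coe.2 (Finset.mem_insert_self _ _)
  have hz := hodgeXG_mem s_ehr Pool.Agent.Y625.HX.t_SER Pool.Agent.Y26.HX.t_INDP s_exp
    Pool.Agent.Y212.HX.t_RATI hr K φ hφ v hv0 (we h)
    (fun l => hh _ (h.support.equivFin.symm l).2) (app_inj v hv h hvh) c' hcn'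
    (fun u _ z hz h0 => hndA u z hz h0) (fun u _ z h1 h2 => hNG u z h1 h2) (S : Set (ℤ × ℤ)) hS1
    ω0 hG l (fun a ha => ⟨(hl a ha).2.1, Finset.mem_coe.2 (Finset.mem_insert_of_mem
      (Finset.mem_image.2 ⟨a, List.mem_toFinset.2 ha, rfl⟩))⟩) hUg hUk
  have hz0 := of_zeta _ φ _ hz
  refine ⟨?_, fun hG' => ?_⟩
  · rw [hf]
    exact hz
  · rw [hf, zetaW_eq]
    rcases hG' with ⟨d, hvd, hhd⟩ | hC
    · have hd : 0 < d := by
        have h1 := hvd ⟨0, hr⟩
        by_contra h2
        apply hv0 ⟨0, hr⟩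
        funext i
        have h3 : v ⟨0, hr⟩ i ≤ ∑ i, v ⟨0, hr⟩ i :=
          Finset.single_le_sum (f := fun i => v ⟨0, hr⟩ i) (fun _ _ => Nat.zero_le _)
            (Finset.mem_univ i)
        change v ⟨0, hr⟩ i = 0
        omega
      refine form_globalE hd _ ?_ φ _ (fun p hp => (hSpos p (Finset.mem_coe.1 hp)).2) _ good_one
        hz0
      rw [← hf]
      exact (hom_sumX v _ hvd).add ((hom_of h d hhd).map _)
    · refine conv_globalE m (by omega) c' (fun u _ z h1 h2 => hNG u z h1 h2) ?_ φ hφ.1 _ hS1 _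
        good_one hz0
      intro i
      obtain ⟨j, hj⟩ := hC i
      refine ⟨Fin.castAdd _ j, fun i' hi' => ?_⟩
      rw [hm, Fin.append_left]
      exact hj i' hi'

end Pool.Agent.Y228.HX
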