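import Mathlib

set_option autoImplicit false

/-! # Project HX: definitions (Mathlib only) -/

namespace Pool.Agent.Y228.HX

/-! ## Regular triangulations -/

section tri

variable {r N : ℕ}

/-- `c` is an affine relation between the `v j`, `j ∈ I` -/
def AffRel (v : Fin r → Fin N → ℕ) (I : Finset (Fin r)) (c : Fin r → ℚ) : Prop :=
  (∀ j, j ∉ I → c j = 0) ∧ ∑ j, c j = 0 ∧ ∀ i, ∑ j, c j * (v j i : ℚ) = 0

/-- the `v j`, `j ∈ I`, are affinely independent -/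
def Ind (v : Fin r → Fin N → ℕ) (I : Finset (Fin r)) : Prop :=
  ∀ c : Fin r → ℚ, AffRel v I c → c = 0

/-- generic heights: a set on which all the affine relations kill `ω` is affinely independent -/
def Gen (v : Fin r → Fin N → ℕ) (ω : Fin r → ℕ) : Prop :=
  ∀ I : Finset (Fin r), (∀ c : Fin r → ℚ, AffRel v I c → ∑ j, c j * (ω j : ℚ) = 0) → Ind v I

/-- the compact cells of the regular subdivision of the Newton polyhedron with heights `ω` -/
def TT (v : Fin r → Fin N → ℕ) (ω : Fin r → ℕ) (I : Finset (Fin r)) : Prop :=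
  ∀ ρ : ℚ, ∃ (w : Fin N → ℚ) (a : ℚ), (∀ i, ρ ≤ w i) ∧
    (∀ j, a ≤ ∑ i, w i * (v j i : ℚ) + (ω j : ℚ)) ∧
    ∀ j ∈ I, ∑ i, w i * (v j i : ℚ) + (ω j : ℚ) = a

/-- the Moebius transform -/
noncomputable def mob (e : Finset (Fin r) → ℂ) (I : Finset (Fin r)) : ℂ :=
  ∑ J ∈ I.powerset, (-1) ^ (I.card + J.card) * e J

/-- the class function of the triangulation -/
noncomputable def eT (v : Fin r → Fin N → ℕ) (ω : Fin r → ℕ) (e : Finset (Fin r) → ℂ)
    (κ : Finset (Fin r)) : ℂ :=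
  ∑ I ∈ κ.powerset, open Classical in if TT v ω I then mob e I else 0

/-- the heights moved by `ρ |v j|` -/
def hts (v : Fin r → Fin N → ℕ) (ω : Fin r → ℕ) (ρ : ℕ) (j : Fin r) : ℕ := ω j + ρ * ∑ i, v j i

end tri

/-! ## Sequences of power series with a recurrence -/

/-- a linear recurrence with polynomial coefficients, whose lowest coefficient vanishes at most at
`T = 0` -/
def Ann (Z : ℕ → PowerSeries ℂ) : Prop :=
  ∃ (K : ℕ) (d : ℕ → Polynomial ℂ), (∀ T0 : ℂ, T0 ≠ 0 → (d 0).eval T0 ≠ 0) ∧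
    ∀ m, ∑ k ∈ Finset.range (K + 1), (d k : PowerSeries ℂ) * Z (m + k) = 0

/-- the sum over a closed cell -/
noncomputable def ZI {r N : ℕ} (q : ℕ) (v : Fin r → Fin N → ℕ) (h : Fin r → ℕ)
    (I : Finset (Fin r)) (m : ℕ) : PowerSeries ℂ :=
  PowerSeries.mk fun t => ∑' x : Fin N → ℕ, open Classical in
    if (∀ i, 0 < x i) ∧ (∀ j, t ≤ ∑ i, x i * v j i + m * h j) ∧
      (∀ j ∈ I, ∑ i, x i * v j i + m * h j = t) then (q : ℂ)⁻¹ ^ (∑ i, x i) else 0

/-! ## Simplicial cones -/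

section cones

/-- a simplicial cone (of any dimension `p`): generators and dual functionals -/
structure Smp (W : Type) [AddCommGroup W] [Module ℚ W] (p : ℕ) where
  g : Fin p → W
  φ : Fin p → (W →ₗ[ℚ] ℚ)
  dual : ∀ i j, φ i (g j) = if i = j then 1 else 0

variable {W : Type} [AddCommGroup W] [Module ℚ W] {p : ℕ}

/-- the projection to the linear span of the cone -/
def Smp.pr (s : Smp W p) (x : W) : W := ∑ i, s.φ i x • s.g i

/-- the half-open cone of the points `x` such that `x + ε ξ` is in the interior for small `ε > 0` -/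
def Smp.In (s : Smp W p) (ξ x : W) : Prop := ∀ i, 0 ≤ s.φ i x ∧ (s.φ i ξ < 0 → 0 < s.φ i x)

/-- the indicator -/
noncomputable def indi (P : Prop) : ℤ := open Classical in if P then 1 else 0

end cones

/-! ## Box points -/

section boxes

variable {R N : ℕ}

/-- the points `(x, k)` with `x = ∑ λ_j v_j`, `k = ∑ λ_j`, `0 ≤ λ_j < 1` -/
def Box0 (v : Fin R → Fin N → ℕ) (I : Finset (Fin R)) : Set ((Fin N → ℤ) × ℤ) :=
  {y | ∃ l : Fin R → ℚ, (∀ j, j ∉ I → l j = 0) ∧ (∀ j ∈ I, 0 ≤ l j ∧ l j < 1) ∧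
    (∀ i, (y.1 i : ℚ) = ∑ j, l j * (v j i : ℚ)) ∧ (y.2 : ℚ) = ∑ j, l j}

/-- the points `(x, k)` with `x = ∑ λ_j v_j`, `k = ∑ λ_j`, `0 < λ_j ≤ 1` -/
def Box1 (v : Fin R → Fin N → ℕ) (I : Finset (Fin R)) : Set ((Fin N → ℤ) × ℤ) :=
  {y | ∃ l : Fin R → ℚ, (∀ j, j ∉ I → l j = 0) ∧ (∀ j ∈ I, 0 < l j ∧ l j ≤ 1) ∧
    (∀ i, (y.1 i : ℚ) = ∑ j, l j * (v j i : ℚ)) ∧ (y.2 : ℚ) = ∑ j, l j}

/-- the number of the points at the level `k` -/
noncomputable def nBox0 (v : Fin R → Fin N → ℕ) (I : Finset (Fin R)) (k : ℕ) : ℕ :=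
  Set.ncard {y | y ∈ Box0 v I ∧ y.2 = k}

/-- the number of the points at the level `k` -/
noncomputable def nBox1 (v : Fin R → Fin N → ℕ) (I : Finset (Fin R)) (k : ℕ) : ℕ :=
  Set.ncard {y | y ∈ Box1 v I ∧ y.2 = k}

/-- the polynomial `∑ t ^ k` over the box points -/
noncomputable def P0 (v : Fin R → Fin N → ℕ) (I : Finset (Fin R)) : Polynomial ℚ :=
  ∑ k ∈ Finset.range (R + 1), Polynomial.C (nBox0 v I k : ℚ) * Polynomial.X ^ k

/-- the polynomial `∑ t ^ k` over the box points -/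
noncomputable def P1 (v : Fin R → Fin N → ℕ) (I : Finset (Fin R)) : Polynomial ℚ :=
  ∑ k ∈ Finset.range (R + 1), Polynomial.C (nBox1 v I k : ℚ) * Polynomial.X ^ k

/-- the lattice points of the relatively open cone at the level `k` -/
def Rel (v : Fin R → Fin N → ℕ) (I : Finset (Fin R)) (k : ℕ) : Set (Fin N → ℤ) :=
  {x | ∃ l : Fin R → ℚ, (∀ j, j ∉ I → l j = 0) ∧ (∀ j ∈ I, 0 < l j) ∧
    (∀ i, (x i : ℚ) = ∑ j, l j * (v j i : ℚ)) ∧ (k : ℚ) = ∑ j, l j}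

/-- the lattice points of `k` times the convex hull of the `v j`, `j ∈ κ` -/
def Dil (v : Fin R → Fin N → ℕ) (κ : Finset (Fin R)) (k : ℕ) : Set (Fin N → ℤ) :=
  {x | ∃ l : Fin R → ℚ, (∀ j, j ∉ κ → l j = 0) ∧ (∀ j, 0 ≤ l j) ∧
    (∀ i, (x i : ℚ) = ∑ j, l j * (v j i : ℚ)) ∧ (k : ℚ) = ∑ j, l j}

/-- the lattice points of `k` times the convex hull of `0` and the `v j`, `j ∈ κ` -/
def Dil0 (v : Fin R → Fin N → ℕ) (κ : Finset (Fin R)) (k : ℕ) : Set (Fin N → ℤ) :=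
  {x | ∃ l : Fin R → ℚ, (∀ j, j ∉ κ → l j = 0) ∧ (∀ j, 0 ≤ l j) ∧
    (∀ i, (x i : ℚ) = ∑ j, l j * (v j i : ℚ)) ∧ ∑ j, l j ≤ (k : ℚ)}

/-- the coefficients of the value at `q` of the Ehrhart series of a simplex -/
noncomputable def gI (q : ℕ) (v : Fin R → Fin N → ℕ) (I : Finset (Fin R)) : ℂ :=
  open Classical in if Ind v I then
    (-1) ^ I.card * (Polynomial.aeval ((q : ℂ)⁻¹) (P0 v I)) / (1 - (q : ℂ)⁻¹) ^ I.card else 0

/-- the value at `q` of the Ehrhart series of a simplex, as a function of its vertices -/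
noncomputable def gE (q : ℕ) (v : Fin R → Fin N → ℕ) (J : Finset (Fin R)) : ℂ :=
  ∑ I ∈ J.powerset, gI q v I

end boxes

end Pool.Agent.Y228.HX
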