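import Pool.Agent.Y228.HX.Defs

set_option autoImplicit false

/-! # Project HX: exact statements of the jobs (Mathlib only) -/

namespace Pool.Agent.Y228.HX

/-- HX-ANN -/
def S_ANN : Prop :=
  (∀ Z Z' : ℕ → PowerSeries ℂ, Ann Z → Ann Z' → Ann fun m => Z m + Z' m) ∧
  ∀ (Z : ℕ → PowerSeries ℂ) (c : PowerSeries ℂ), Ann Z → Ann fun m => c * Z m

/-- HX-CUT: cutting a simplicial cone by hyperplanes -/
def S_CUT : Prop :=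
  ∀ (W : Type) [AddCommGroup W] [Module ℚ W] (p : ℕ) (s : Smp W p) (L : List (W →ₗ[ℚ] ℚ)),
    ∃ (S : List (Smp W p)) (F : List (W →ₗ[ℚ] ℚ)),
      (∀ f ∈ F, ∃ x, s.pr x = x ∧ f x ≠ 0) ∧
      (∀ s' ∈ S, (∀ x, s'.pr x = s.pr x) ∧
        ∀ l ∈ L, (∀ i, 0 ≤ l (s'.g i)) ∨ ∀ i, l (s'.g i) ≤ 0) ∧
      ∀ ξ : W, (∀ f ∈ F, f ξ ≠ 0) → (∀ s' ∈ S, ∀ i, s'.φ i ξ ≠ 0) ∧
        ∀ x, indi (s.In ξ x) = (S.map fun s' => indi (s'.In ξ x)).sum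

/-- HX-FAN: a complete fan in the span of a simplicial cone, adapted to hyperplanes -/
def S_FAN : Prop :=
  ∀ (W : Type) [AddCommGroup W] [Module ℚ W] (p : ℕ) (s : Smp W p) (L : List (W →ₗ[ℚ] ℚ)),
    ∃ (S : List (Smp W p)) (F : List (W →ₗ[ℚ] ℚ)),
      (∀ f ∈ F, ∃ x, s.pr x = x ∧ f x ≠ 0) ∧
      (∀ s' ∈ S, (∀ x, s'.pr x = s.pr x) ∧
        ∀ l ∈ L, (∀ i, 0 ≤ l (s'.g i)) ∨ ∀ i, l (s'.g i) ≤ 0) ∧
      ∀ ξ : W, (∀ f ∈ F, f ξ ≠ 0) → (∀ s' ∈ S, ∀ i, s'.φ i ξ ≠ 0) ∧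
        ∀ x, (S.map fun s' => indi (s'.In ξ x)).sum = 1

/-- HX-SUB: a rational subspace is the span of a simplicial cone -/
def S_SUB : Prop :=
  ∀ (W : Type) [AddCommGroup W] [Module ℚ W] [FiniteDimensional ℚ W] (E : List (W →ₗ[ℚ] ℚ)),
    ∃ (p : ℕ) (s : Smp W p), ∀ x, s.pr x = x ↔ ∀ l ∈ E, l x = 0

/-- HX-GENX: generic points near a given point -/
def S_GENX : Prop :=
  ∀ (W : Type) [AddCommGroup W] [Module ℚ W] (p : ℕ) (s : Smp W p) (F L : List (W →ₗ[ℚ] ℚ)),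
    (∀ f ∈ F, ∃ x, s.pr x = x ∧ f x ≠ 0) → ∀ ξ0 : W, s.pr ξ0 = ξ0 →
      ∃ ξ : W, s.pr ξ = ξ ∧ (∀ f ∈ F, f ξ ≠ 0) ∧
        ∀ l ∈ L, (0 < l ξ0 → 0 < l ξ) ∧ (l ξ0 < 0 → l ξ < 0)

/-- HX-SEL: half-open decomposition of a cone -/
def S_SEL : Prop :=
  ∀ (W : Type) [AddCommGroup W] [Module ℚ W] (p : ℕ) (s0 : Smp W p) (L : List (W →ₗ[ℚ] ℚ))
    (ξ0 : W), s0.pr ξ0 = ξ0 → (∀ l ∈ L, l ξ0 ≠ 0) →
    ∃ (S : List (Smp W p)) (ξ : W), s0.pr ξ = ξ ∧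
      (∀ l ∈ L, (0 < l ξ0 → 0 < l ξ) ∧ (l ξ0 < 0 → l ξ < 0)) ∧
      (∀ s' ∈ S, (∀ x, s'.pr x = s0.pr x) ∧ (∀ i, s'.φ i ξ ≠ 0) ∧ ∀ l ∈ L, ∀ i, 0 ≤ l (s'.g i)) ∧
      ∀ x, s0.pr x = x → indi (∀ l ∈ L, 0 ≤ l x ∧ (l ξ0 < 0 → 0 < l x)) =
        (S.map fun s' => indi (s'.In ξ x)).sum

/-- the lattice points of a half-open cone -/
def CX {A W : Type} [AddCommGroup A] [AddCommGroup W] [Module ℚ W] (ι : A →+ W) {p : ℕ}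
    (s : Smp W p) (B : Finset (Fin p)) (x : A) : Prop :=
  s.pr (ι x) = ι x ∧ ∀ i, 0 ≤ s.φ i (ι x) ∧ (i ∈ B → 0 < s.φ i (ι x))

/-- HX-CONE: the recurrence for a half-open simplicial cone -/
def S_CONE : Prop :=
  ∀ (A W : Type) [AddCommGroup A] [AddCommGroup W] [Module ℚ W] (ι : A →+ W) (p : ℕ)
    (s : Smp W p) (γ : Fin p → A) (B : Finset (Fin p)) (wt al mm : W →ₗ[ℚ] ℚ)
    (wtA alA mmA : A →+ ℤ) (q : ℕ), 2 ≤ q → (∀ i, ι (γ i) = s.g i) →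
    (∀ x, wt (ι x) = (wtA x : ℚ)) → (∀ x, al (ι x) = (alA x : ℚ)) →
    (∀ x, mm (ι x) = (mmA x : ℚ)) →
    (∀ i, 0 ≤ wtA (γ i) ∧ 0 ≤ alA (γ i) ∧ 0 ≤ mmA (γ i)) → (∃ i, i ∉ B ∧ 0 < mmA (γ i)) →
    (∀ m t : ℕ, Summable fun x : A => open Classical in
      if CX ι s B x ∧ mmA x = m ∧ alA x = t then (q : ℝ)⁻¹ ^ (wtA x).toNat else 0) →
    Ann fun m => PowerSeries.mk fun t => ∑' x : A, open Classical in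
      if CX ι s B x ∧ mmA x = m ∧ alA x = t then (q : ℂ)⁻¹ ^ (wtA x).toNat else 0

/-- HX-ZI: the recurrence for the sums over the closed cells -/
def S_ZI : Prop :=
  ∀ (r N q : ℕ), 2 ≤ q → ∀ (v : Fin r → Fin N → ℕ) (h : Fin r → ℕ) (I : Finset (Fin r))
    (zw : Fin N → ℚ) (za : ℚ), (∀ i, zw i < 0) → 0 < za →
    (∀ j ∈ I, ∑ i, zw i * (v j i : ℚ) + (h j : ℚ) = za) →
    (∀ j, j ∉ I → za < ∑ i, zw i * (v j i : ℚ) + (h j : ℚ)) → Ann (ZI q v h I)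

/-- HX-ZPT -/
def S_ZPT : Prop :=
  ∀ (r N : ℕ) (v : Fin r → Fin N → ℕ) (ω : Fin r → ℕ), (∀ j, v j ≠ 0) → Gen v ω →
    ∃ ρ0 : ℕ, ∀ ρ, ρ0 ≤ ρ →
      (∀ I, TT v ω I → ∃ (zw : Fin N → ℚ) (za : ℚ), (∀ i, zw i < 0) ∧ 0 < za ∧
        (∀ j ∈ I, ∑ i, zw i * (v j i : ℚ) + (hts v ω ρ j : ℚ) = za) ∧
        ∀ j, j ∉ I → za < ∑ i, zw i * (v j i : ℚ) + (hts v ω ρ j : ℚ)) ∧
      ∀ I, ¬ TT v ω I → ∀ (m : ℕ) (x : Fin N → ℕ) (t : ℕ), 0 < m →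
        (∀ j, t ≤ ∑ i, x i * v j i + m * hts v ω ρ j) →
        ¬ ∀ j ∈ I, ∑ i, x i * v j i + m * hts v ω ρ j = t

/-- HX-LP: the regular triangulation of a compact face -/
def S_LP : Prop :=
  ∀ (r N : ℕ) (v : Fin r → Fin N → ℕ) (ω : Fin r → ℕ), Gen v ω →
    ∀ (wk : Fin N → ℚ) (mk : ℚ), (∀ i, 0 < wk i) → (∀ j, mk ≤ ∑ i, wk i * (v j i : ℚ)) →
    ∀ l : Fin r → ℚ, (∀ j, 0 ≤ l j) → (∀ j, l j ≠ 0 → ∑ i, wk i * (v j i : ℚ) = mk) →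
    ∃! I : Finset (Fin r), (∀ j ∈ I, ∑ i, wk i * (v j i : ℚ) = mk) ∧ TT v ω I ∧
      ∃ μ : Fin r → ℚ, (∀ j, j ∉ I → μ j = 0) ∧ (∀ j ∈ I, 0 < μ j) ∧
        (∀ i, ∑ j, μ j * (v j i : ℚ) = ∑ j, l j * (v j i : ℚ)) ∧ ∑ j, μ j = ∑ j, l j

/-- HX-BOX: the box polynomials -/
def S_BOX : Prop :=
  ∀ (R N : ℕ) (v : Fin R → Fin N → ℕ) (I : Finset (Fin R)), Ind v I →
    (Box0 v I).Finite ∧ (Box1 v I).Finite ∧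
    ∀ q : ℕ, 2 ≤ q →
      Polynomial.aeval (q : ℂ) (P1 v I) / (1 - (q : ℂ)) ^ I.card = gI q v I

/-- HX-SER: the series of an open simplicial cone -/
def S_SER : Prop :=
  ∀ (R N : ℕ) (v : Fin R → Fin N → ℕ) (I : Finset (Fin R)), Ind v I →
    (∀ k, (Rel v I k).Finite) ∧
    (1 - PowerSeries.X) ^ I.card * PowerSeries.mk (fun k => ((Rel v I k).ncard : ℚ)) =
      (P1 v I : PowerSeries ℚ)

/-- HX-EHR: the lattice points of the dilations of a compact face -/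
def S_EHR : Prop :=
  ∀ (r N : ℕ) (v : Fin r → Fin N → ℕ) (ω : Fin r → ℕ), Gen v ω →
    ∀ (wk : Fin N → ℚ) (mk : ℚ), (∀ i, 0 < wk i) → (∀ j, mk ≤ ∑ i, wk i * (v j i : ℚ)) →
    0 < mk → ∀ κ : Finset (Fin r), (∀ j, j ∈ κ ↔ ∑ i, wk i * (v j i : ℚ) = mk) → ∀ k : ℕ,
      (Dil v κ k).ncard = ∑ I ∈ κ.powerset, (open Classical in
        if TT v ω I then (Rel v I k).ncard else 0) ∧
      (Dil0 v κ k).ncard = ∑ I ∈ κ.powerset, (open Classical in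
        if TT v ω I then (Rel v I k).ncard +
          (Rel (Fin.cons 0 v : Fin (r + 1) → Fin N → ℕ) (insert 0 (I.map (Fin.succEmb r))) k).ncard
        else 0)

/-- HX-KREL: the relation for `gI` -/
def S_KREL : Prop :=
  ∀ (q R N : ℕ), 2 ≤ q → ∀ (v : Fin R → Fin N → ℕ) (i : Fin N) (j0 : Fin R)
    (I : Finset (Fin R)), v j0 i = 1 → (∀ j ∈ I, v j i = 0) →
    ((q : ℂ) - 1) * gI q v (insert j0 I) + q * gI q v I = 0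

end Pool.Agent.Y228.HX
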