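import Pool.Agent.Y228.HX.W4
import Pool.Agent.Y434.HX.ANN
import Pool.Agent.Y259.HX.CUT
import Pool.Agent.Y620.HX.FAN
import Pool.Agent.Y100.HX.SUB
import Pool.Agent.Y50.HX.GENX
import Pool.Agent.Y591.HX.SEL
import Pool.Agent.Y568.HX.CONE
import Pool.Agent.Y780.HX.ZI
import Pool.Agent.Y688.HX.ZPT
import Pool.Agent.Y921.HX.LP
import Pool.Agent.Y155.HX.BOX
import Pool.Agent.Y625.HX.SER
import Pool.Agent.Y212.HX.EHR
import Pool.Agent.Y212.HX.RATI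
import Pool.Agent.Y26.HX.KREL
import Pool.Agent.Y26.HX.GENREL
import Pool.Agent.Y26.HX.EXP
import Pool.Agent.Y26.HX.INDP
import Pool.Agent.Y26.HX.KR2
import Pool.Agent.Y188.HX.FAR

set_option autoImplicit false
set_option maxHeartbeats 400000

/-! # Project HX: the theorem -/

namespace Pool.Agent.Y228.HX

open Pool.Agent.W428.MOT
open Pool.Agent.TH216.MF (ratR IsPol fac)
open Pool.Agent.W426.SM (gord)
open Pool.Agent.W425.ND (spa)
open Pool.Agent.Y229.CF (NondegC)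

lemma s_zi : S_ZI := Pool.Agent.Y780.HX.t_ZI Pool.Agent.Y434.HX.t_ANN Pool.Agent.Y100.HX.t_SUB
  (Pool.Agent.Y591.HX.t_SEL (Pool.Agent.Y620.HX.t_FAN Pool.Agent.Y259.HX.t_CUT)
    Pool.Agent.Y50.HX.t_GENX) Pool.Agent.Y568.HX.t_CONE

lemma s_ehr : S_EHR := Pool.Agent.Y212.HX.t_EHR Pool.Agent.Y921.HX.t_LP

lemma s_kr2 : S_KR2 := Pool.Agent.Y26.HX.t_KR2 Pool.Agent.Y26.HX.t_KREL

lemma s_exp : S_EXP := Pool.Agent.Y26.HX.t_EXP s_ehr Pool.Agent.Y625.HX.t_SER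
  Pool.Agent.Y26.HX.t_INDP

/-- the formal part, without hypotheses -/
theorem uni_all {r N : ℕ} (hr : 0 < r)
    (v : Fin r → Fin N → ℕ) (hv : Function.Injective v) (hv0 : ∀ j, v j ≠ 0) (a : Fin r → ℂ)
    (hnd : NondegC v a) :
    ∃ (S : Finset (ℤ × ℤ)) (ω0 : Fin r → ℕ) (l : List (Fin N → ℕ)), Gen v ω0 ∧
      ((-1 : ℤ), (1 : ℤ)) ∈ S ∧
      (∀ p ∈ S, p.1 < 0 ∧ 0 < p.2 ∧ ∀ b : Polynomial ℂ,
        Pool.Agent.H628R4.TP.IsLocalBFunction (spa v a) b →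
          ∃ i : ℤ, b.eval ((p.1 : ℂ) / p.2 - i) = 0) ∧
      (∀ a ∈ l, 0 < gord v a ∧ (-((∑ i, a i : ℕ) : ℤ), (gord v a : ℤ)) ∈ S) ∧
      IsPol (Ug v ω0 * (l.map (fac v)).prod) ∧
      IsPol (US v (KP v ω0) * (l.map (fac v)).prod) :=
  uni Pool.Agent.Y434.HX.t_ANN s_zi Pool.Agent.Y688.HX.t_ZPT Pool.Agent.Y188.HX.t_FAR s_ehr
    Pool.Agent.Y625.HX.t_SER Pool.Agent.Y26.HX.t_INDP Pool.Agent.Y155.HX.t_BOX s_kr2
    Pool.Agent.Y26.HX.t_GENREL hr v hv hv0 a hnd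

/-- **The motivic monodromy conjecture for the `χ_y`-genus, for all nondegenerate polynomials.** -/
theorem hodge (k : Type) [Field k] [Algebra k ℂ] {n r : ℕ} (hr : 0 < r)
    (v : Fin r → Fin n → ℕ) (c : Fin r → k) (hv : Function.Injective v) (hv0 : ∀ j, v j ≠ 0)
    (hc : ∀ j, c j ≠ 0) (hnd : NondegC v (fun j => algebraMap k ℂ (c j))) :
    ∃ S : Finset (ℤ × ℤ),
      (∀ p ∈ S, p.1 < 0 ∧ 0 < p.2 ∧ ∀ b : Polynomial ℂ,
        Pool.Agent.H628R4.TP.IsLocalBFunction (spa v (fun j => algebraMap k ℂ (c j))) b →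
          ∃ i : ℤ, b.eval ((p.1 : ℂ) / p.2 - i) = 0) ∧
      ∀ (K : Type) [Field K] [Algebra k K] (φ : MK K →+* RatFunc ℚ), ChiY φ →
        PowerSeries.map φ (zeta (spa v (fun j => algebraMap k K (c j))) 0) ∈ ratR uX S := by
  classical
  obtain ⟨S, ω0, l, hG, hS1, hS, hl, hUg, hUk⟩ := uni_all hr v hv hv0 _ hnd
  refine ⟨S, hS, fun K _ _ φ hφ => ?_⟩
  have hkc : CharZero k := RingHom.charZero (algebraMap k ℂ)
  have hK : CharZero K := charZero_of_injective_algebraMap (algebraMap k K).injective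
  have hspa : ∀ {K : Type} [Field K] (c' : Fin r → K), spa v c' = sp 0 v c' 1 := by
    intro K _ c'
    unfold sp spa
    simp
  rw [hspa]
  have hnd' : Pool.Agent.Y229.CF.NonDP v (fun j => algebraMap K (AlgebraicClosure K)
      (algebraMap k K (c j))) := by
    have h1 := Pool.Agent.Y229.CF.taskB1' k (AlgebraicClosure K) v c hr hnd
    have h2 : (fun j => algebraMap k (AlgebraicClosure K) (c j)) =
        fun j => algebraMap K (AlgebraicClosure K) (algebraMap k K (c j)) := by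
      funext j
      exact IsScalarTower.algebraMap_apply k K (AlgebraicClosure K) (c j)
    rwa [h2] at h1
  exact hodge_mem s_ehr Pool.Agent.Y625.HX.t_SER Pool.Agent.Y26.HX.t_INDP s_exp
    Pool.Agent.Y212.HX.t_RATI hr K φ hφ v hv hv0 (fun j => algebraMap k K (c j))
    (fun j => (map_ne_zero _).2 (hc j)) hnd'
    (Pool.Agent.Y229.CF.nonG_of' k K v c hr hnd) S (Finset.mem_coe.2 hS1) ω0 hG l
    (fun a ha => ⟨(hl a ha).1, Finset.mem_coe.2 (hl a ha).2⟩) hUg hUk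

end Pool.Agent.Y228.HX
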