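import Pool.Agent.Y228.HX.Stm2

set_option autoImplicit false
set_option maxHeartbeats 400000

/-! # Project HX: the main theorem on the recurrences -/

namespace Pool.Agent.Y228.HX

open Filter Pool.Agent.W425.SV
open Pool.Agent.TH216.MF (RelG KilU KRelJ RecJ aJ Wt norm_pow_inv rec_poly)
open Pool.Agent.W803.SM (summable_half)

variable {r N : ℕ}

lemma sum_mob (J : Finset (Fin r)) : ∀ e : Finset (Fin r) → ℂ,
    ∑ I ∈ J.powerset, mob e I = e J := by
  classical
  induction J using Finset.induction_on with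
  | empty =>
    intro e
    unfold mob
    simp
  | insert a J ha ih =>
    intro e
    rw [Finset.sum_powerset_insert ha]
    have h1 : ∀ I ∈ J.powerset, mob e (insert a I) =
        mob (fun K => e (insert a K)) I - mob e I := by
      intro I hI
      have haI : a ∉ I := fun h => ha (Finset.mem_powerset.1 hI h)
      unfold mob
      rw [Finset.sum_powerset_insert haI, Finset.card_insert_of_notMem haI]
      have h2 : ∀ K ∈ I.powerset, (-1 : ℂ) ^ (I.card + 1 + (insert a K).card) * e (insert a K) =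
          (-1) ^ (I.card + K.card) * e (insert a K) := by
        intro K hK
        have haK : a ∉ K := fun h => haI (Finset.mem_powerset.1 hK h)
        rw [Finset.card_insert_of_notMem haK]
        congr 1
        rw [show I.card + 1 + (K.card + 1) = (I.card + K.card) + 2 by ring, pow_add]
        norm_num
      rw [Finset.sum_congr rfl h2]
      have h3 : ∀ K ∈ I.powerset, (-1 : ℂ) ^ (I.card + 1 + K.card) * e K =
          -((-1) ^ (I.card + K.card) * e K) := by
        intro K _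
        rw [show I.card + 1 + K.card = (I.card + K.card) + 1 by ring, pow_succ]
        ring
      rw [Finset.sum_congr rfl h3, Finset.sum_neg_distrib]
      ring
    rw [Finset.sum_congr rfl h1, Finset.sum_sub_distrib, ih, ih]
    ring

/-- moving the heights -/
lemma kilU_hts (v : Fin r → Fin N → ℕ) (ω : Fin r → ℕ) (ρ : ℕ) (c : Fin r → ℤ)
    (h : KilU v (fun j => -(ω j : ℤ)) c) : KilU v (fun j => -(hts v ω ρ j : ℤ)) c := by
  obtain ⟨l, h0, h1, h2, h3⟩ := h
  refine ⟨l, h0, h1, h2, ?_⟩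
  have h4 : ∑ j, ((c j : ℝ) + l j) * ((-(hts v ω ρ j : ℤ) : ℤ) : ℝ) =
      ∑ j, ((c j : ℝ) + l j) * ((-(ω j : ℤ) : ℤ) : ℝ) -
        ρ * ∑ i, ∑ j, ((c j : ℝ) + l j) * (v j i : ℝ) := by
    rw [Finset.sum_comm, Finset.mul_sum, ← Finset.sum_sub_distrib]
    refine Finset.sum_congr rfl fun j _ => ?_
    unfold hts
    push_cast
    rw [← Finset.mul_sum]
    ring
  rw [h4]
  have h5 : ∑ i, ∑ j, ((c j : ℝ) + l j) * (v j i : ℝ) ≤ 0 :=
    Finset.sum_nonpos fun i _ => h2 i
  have h6 : (0 : ℝ) ≤ ρ := by positivity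
  nlinarith

/-- the terms of the closed sums -/
noncomputable def tI (q : ℕ) (v : Fin r → Fin N → ℕ) (h : Fin r → ℕ) (m t : ℕ)
    (f : Finset (Fin r) → ℂ) (x : Fin N → ℕ) : ℂ := open Classical in
  if (∀ i, 0 < x i) ∧ ∀ j, t ≤ ∑ i, x i * v j i + m * h j then
    (q : ℂ)⁻¹ ^ (∑ i, x i) * ∑ I ∈ (Finset.univ.filter fun j =>
      ∑ i, x i * v j i + m * h j = t).powerset, f I else 0

/-- the terms of `ZI` -/
noncomputable def zt (q : ℕ) (v : Fin r → Fin N → ℕ) (h : Fin r → ℕ) (I : Finset (Fin r))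
    (m t : ℕ) (x : Fin N → ℕ) : ℂ := open Classical in
  if (∀ i, 0 < x i) ∧ (∀ j, t ≤ ∑ i, x i * v j i + m * h j) ∧
      (∀ j ∈ I, ∑ i, x i * v j i + m * h j = t) then (q : ℂ)⁻¹ ^ (∑ i, x i) else 0

lemma coeff_ZI (q : ℕ) (v : Fin r → Fin N → ℕ) (h : Fin r → ℕ) (I : Finset (Fin r))
    (m t : ℕ) : PowerSeries.coeff t (ZI q v h I m) = ∑' x : Fin N → ℕ, zt q v h I m t x := by
  unfold ZI zt
  rw [PowerSeries.coeff_mk]

lemma summable_zt (q : ℕ) (hq : 2 ≤ q) (v : Fin r → Fin N → ℕ) (h : Fin r → ℕ)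
    (I : Finset (Fin r)) (m t : ℕ) : Summable (zt q v h I m t) := by
  classical
  refine Summable.of_norm_bounded (g := fun x : Fin N → ℕ => ∏ i, ((1 : ℝ) / 2) ^ x i)
    summable_half fun x => ?_
  unfold zt
  split_ifs
  · exact norm_pow_inv q hq x
  · rw [norm_zero]
    positivity

lemma sum_zt (q : ℕ) (v : Fin r → Fin N → ℕ) (h : Fin r → ℕ) (m t : ℕ)
    (f : Finset (Fin r) → ℂ) (x : Fin N → ℕ) :
    ∑ I : Finset (Fin r), f I * zt q v h I m t x = tI q v h m t f x := by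
  classical
  unfold tI
  by_cases hx : (∀ i, 0 < x i) ∧ ∀ j, t ≤ ∑ i, x i * v j i + m * h j
  · rw [if_pos hx, Finset.mul_sum]
    rw [← Finset.sum_subset (Finset.subset_univ (Finset.univ.filter fun j =>
      ∑ i, x i * v j i + m * h j = t).powerset)]
    · refine Finset.sum_congr rfl fun I hI => ?_
      rw [Finset.mem_powerset] at hI
      unfold zt
      rw [if_pos ⟨hx.1, hx.2, fun j hj => (Finset.mem_filter.1 (hI hj)).2⟩]
      ring
    · intro I _ hI
      unfold zt
      rw [if_neg, mul_zero]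
      rintro ⟨-, -, h3⟩
      exact hI (Finset.mem_powerset.2 fun j hj => Finset.mem_filter.2 ⟨Finset.mem_univ _, h3 j hj⟩)
  · rw [if_neg hx]
    refine Finset.sum_eq_zero fun I _ => ?_
    unfold zt
    rw [if_neg fun h3 => hx ⟨h3.1, h3.2.1⟩, mul_zero]

lemma sum_ZI (q : ℕ) (hq : 2 ≤ q) (v : Fin r → Fin N → ℕ) (h : Fin r → ℕ) (m t : ℕ)
    (f : Finset (Fin r) → ℂ) :
    ∑ I : Finset (Fin r), f I * PowerSeries.coeff t (ZI q v h I m) =
      ∑' x : Fin N → ℕ, tI q v h m t f x := by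
  have h1 : ∀ I : Finset (Fin r), f I * PowerSeries.coeff t (ZI q v h I m) =
      ∑' x : Fin N → ℕ, f I * zt q v h I m t x := fun I => by
    rw [coeff_ZI, tsum_mul_left]
  rw [Finset.sum_congr rfl fun I _ => h1 I]
  rw [← Summable.tsum_finsetSum (f := fun (I : Finset (Fin r)) (x : Fin N → ℕ) =>
    f I * zt q v h I m t x) fun I _ => (summable_zt q hq v h I m t).mul_left (f I)]
  exact tsum_congr fun x => sum_zt q v h m t f x

/-- the series of the family -/
noncomputable def bS (q : ℕ) (v : Fin r → Fin N → ℕ) (ω : Fin r → ℕ) (h : Fin r → ℕ)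
    (e : Finset (Fin r) → ℂ) (m : ℕ) : PowerSeries ℂ :=
  ∑ I : Finset (Fin r), PowerSeries.C (open Classical in if TT v ω I then mob e I else 0) *
    ZI q v h I m

lemma coeff_bS (q : ℕ) (hq : 2 ≤ q) (v : Fin r → Fin N → ℕ) (ω : Fin r → ℕ) (h : Fin r → ℕ)
    (e : Finset (Fin r) → ℂ) (m t : ℕ) :
    PowerSeries.coeff t (bS q v ω h e m) = ∑' x : Fin N → ℕ, tI q v h m t
      (fun I => open Classical in if TT v ω I then mob e I else 0) x := by
  classical
  rw [← sum_ZI q hq]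
  unfold bS
  rw [map_sum]
  refine Finset.sum_congr rfl fun I _ => ?_
  rw [PowerSeries.coeff_C_mul]

lemma coeff_bS_pos (q : ℕ) (hq : 2 ≤ q) (v : Fin r → Fin N → ℕ) (ω : Fin r → ℕ) (h : Fin r → ℕ)
    (e : Finset (Fin r) → ℂ) (m t : ℕ) (hm : ∀ I, ¬ TT v ω I → ∀ x : Fin N → ℕ,
      (∀ j, t ≤ ∑ i, x i * v j i + m * h j) → ¬ ∀ j ∈ I, ∑ i, x i * v j i + m * h j = t) :
    PowerSeries.coeff t (bS q v ω h e m) = aM q v e h m t := by
  classical
  rw [coeff_bS q hq]
  unfold aM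
  refine tsum_congr fun x => ?_
  unfold tI
  have h0 : (∀ j, (t : ℤ) ≤ ((∑ i, x i * v j i + m * h j : ℕ) : ℤ)) ↔
      ∀ j, t ≤ ∑ i, x i * v j i + m * h j := forall_congr' fun j => by
    exact_mod_cast Iff.rfl
  by_cases hx : (∀ i, 0 < x i) ∧ ∀ j, t ≤ ∑ i, x i * v j i + m * h j
  · rw [if_pos hx, if_pos ⟨hx.1, h0.2 hx.2⟩]
    have h1 : (Finset.univ.filter fun j => ((∑ i, x i * v j i + m * h j : ℕ) : ℤ) = t) =
        Finset.univ.filter fun j => ∑ i, x i * v j i + m * h j = t := by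
      refine Finset.filter_congr fun j _ => ?_
      exact_mod_cast Iff.rfl
    rw [h1, ← sum_mob _ e]
    congr 1
    refine Finset.sum_congr rfl fun I hI => ?_
    have hT : TT v ω I := by
      by_contra hcon
      refine hm I hcon x hx.2 fun j hj => ?_
      exact (Finset.mem_filter.1 (Finset.mem_powerset.1 hI hj)).2
    simp only [if_pos hT]
  · rw [if_neg hx, if_neg fun h => hx ⟨h.1, h0.1 h.2⟩]

lemma coeff_bS_zero (q : ℕ) (hq : 2 ≤ q) (v : Fin r → Fin N → ℕ) (ω : Fin r → ℕ) (h : Fin r → ℕ)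
    (e : Finset (Fin r) → ℂ) (t : ℕ) :
    PowerSeries.coeff t (bS q v ω h e 0) = aJ q v (eT v ω e) Finset.univ t := by
  classical
  rw [coeff_bS q hq]
  unfold aJ
  refine tsum_congr fun x => ?_
  unfold tI Wt eT
  have h0 : (∀ j, (t : ℤ) ≤ ((∑ i, x i * v j i : ℕ) : ℤ)) ↔
      ∀ j, t ≤ ∑ i, x i * v j i + 0 * h j := forall_congr' fun j => by
    rw [zero_mul, add_zero]
    exact_mod_cast Iff.rfl
  have h00 : (∀ i, x i ≠ 0 ↔ i ∈ (Finset.univ : Finset (Fin N))) ↔ ∀ i, 0 < x i :=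
    forall_congr' fun i => by
      simp [Nat.pos_iff_ne_zero]
  have h1 : (Finset.univ.filter fun j => ((∑ i, x i * v j i : ℕ) : ℤ) = t) =
      Finset.univ.filter fun j => ∑ i, x i * v j i + 0 * h j = t := by
    refine Finset.filter_congr fun j _ => ?_
    rw [zero_mul, add_zero]
    exact_mod_cast Iff.rfl
  by_cases hx : ∀ i, 0 < x i
  · rw [if_pos (h00.2 hx)]
    by_cases hy : ∀ j, t ≤ ∑ i, x i * v j i + 0 * h j
    · rw [if_pos ⟨hx, hy⟩, if_pos (h0.2 hy), h1]
    · rw [if_neg fun h => hy h.2, if_neg fun h => hy (h0.1 h), mul_zero]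
  · rw [if_neg fun h => hx h.1, if_neg fun h => hx (h00.1 h)]

lemma Ann_zero : Ann fun _ => 0 :=
  ⟨0, fun _ => 1, fun _ _ => by simp, fun m => by simp⟩

lemma Ann_bS (hANN : S_ANN) (q : ℕ) (v : Fin r → Fin N → ℕ) (ω : Fin r → ℕ) (h : Fin r → ℕ)
    (e : Finset (Fin r) → ℂ) (hA : ∀ I, TT v ω I → Ann (ZI q v h I)) : Ann (bS q v ω h e) := by
  classical
  have key : ∀ s : Finset (Finset (Fin r)), Ann fun m => ∑ I ∈ s,
      PowerSeries.C (if TT v ω I then mob e I else 0) * ZI q v h I m := by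
    intro s
    induction s using Finset.induction_on with
    | empty =>
      simp only [Finset.sum_empty]
      exact Ann_zero
    | insert I s hI ih =>
      simp only [Finset.sum_insert hI]
      refine hANN.1 _ _ ?_ ih
      by_cases hT : TT v ω I
      · exact hANN.2 _ _ (hA I hT)
      · simp only [if_neg hT, map_zero, zero_mul]
        exact Ann_zero
  exact key Finset.univ

/-- going down -/
lemma descentA {b : ℕ → PowerSeries ℂ} (hb : Ann b) (T0 : ℂ) (hT0 : T0 ≠ 0) (Q : Polynomial ℂ)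
    (hQ : Q.eval T0 ≠ 0) (hfar : ∀ᶠ m : ℕ in atTop, ∃ A : Polynomial ℂ,
      (Q : PowerSeries ℂ) * b m = A) :
    ∃ Q' A : Polynomial ℂ, Q'.eval T0 ≠ 0 ∧ (Q' : PowerSeries ℂ) * b 0 = A := by
  obtain ⟨K, d, hd, hrec⟩ := hb
  obtain ⟨M, hM⟩ := eventually_atTop.1 hfar
  have key : ∀ n : ℕ, ∀ m, M - n ≤ m → ∃ A : Polynomial ℂ,
      (((d 0) ^ n * Q : Polynomial ℂ) : PowerSeries ℂ) * b m = A := by
    intro n
    induction n with
    | zero =>
      intro m hm
      rw [pow_zero, one_mul]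
      exact hM m (by simpa using hm)
    | succ n ih =>
      intro m hm
      have h1 := hrec m
      rw [Finset.sum_range_succ'] at h1
      simp only [add_zero] at h1
      choose! A hA using ih
      refine ⟨-∑ k ∈ Finset.range K, d (k + 1) * A (m + (k + 1)), ?_⟩
      have h2 : (((d 0) ^ (n + 1) * Q : Polynomial ℂ) : PowerSeries ℂ) * b m =
          (((d 0) ^ n * Q : Polynomial ℂ) : PowerSeries ℂ) * ((d 0 : PowerSeries ℂ) * b m) := by
        rw [pow_succ]
        push_cast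
        ring
      have h3 : (d 0 : PowerSeries ℂ) * b m = -∑ k ∈ Finset.range K,
          (d (k + 1) : PowerSeries ℂ) * b (m + (k + 1)) := by
        linear_combination h1
      rw [h2, h3, mul_neg, Finset.mul_sum, Polynomial.coe_neg]
      congr 1
      have h4 : ((∑ k ∈ Finset.range K, d (k + 1) * A (m + (k + 1)) : Polynomial ℂ) :
          PowerSeries ℂ) = ∑ k ∈ Finset.range K, (d (k + 1) : PowerSeries ℂ) *
            (A (m + (k + 1)) : PowerSeries ℂ) := by
        have h5 := map_sum (Polynomial.coeToPowerSeries.ringHom (R := ℂ))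
          (fun k => d (k + 1) * A (m + (k + 1))) (Finset.range K)
        rw [Polynomial.coeToPowerSeries.ringHom_apply] at h5
        rw [h5]
        refine Finset.sum_congr rfl fun k _ => ?_
        rw [Polynomial.coeToPowerSeries.ringHom_apply, Polynomial.coe_mul]
      rw [h4]
      refine Finset.sum_congr rfl fun k _ => ?_
      rw [← hA (m + (k + 1)) (by omega)]
      ring
  obtain ⟨A, hA⟩ := key M 0 (by omega)
  refine ⟨(d 0) ^ M * Q, A, ?_, hA⟩
  rw [Polynomial.eval_mul, Polynomial.eval_pow]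
  exact mul_ne_zero (pow_ne_zero _ (hd T0 hT0)) hQ

/-- from the product to the recurrence -/
lemma rec_of_poly (a : ℤ → ℂ) (Q A : Polynomial ℂ)
    (h : (Q : PowerSeries ℂ) * PowerSeries.mk (fun t : ℕ => a t) = (A : PowerSeries ℂ)) :
    ∀ᶠ t : ℤ in atTop, ∑ m ∈ Finset.range (Q.natDegree + 1), Q.coeff m * a (t - m) = 0 := by
  filter_upwards [eventually_ge_atTop ((Q.natDegree + A.natDegree + 1 : ℕ) : ℤ)] with t ht
  obtain ⟨n, rfl⟩ := Int.eq_ofNat_of_zero_le (a := t) (by omega)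
  have hn : Q.natDegree + A.natDegree + 1 ≤ n := by exact_mod_cast ht
  have h1 := congrArg (PowerSeries.coeff n) h
  rw [Polynomial.coeff_coe, Polynomial.coeff_eq_zero_of_natDegree_lt (by omega),
    PowerSeries.coeff_mul, Finset.Nat.sum_antidiagonal_eq_sum_range_succ_mk] at h1
  simp only [Polynomial.coeff_coe, PowerSeries.coeff_mk] at h1
  rw [← h1]
  apply Finset.sum_subset_zero_on_sdiff
  · intro m hm
    rw [Finset.mem_range] at hm ⊢
    omega
  · intro m hm
    rw [Finset.mem_sdiff, Finset.mem_range, Finset.mem_range] at hm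
    rw [Polynomial.coeff_eq_zero_of_natDegree_lt (by omega), zero_mul]
  · intro m hm
    rw [Finset.mem_range] at hm
    congr 2
    omega

/-- **The recurrence for the class function of a generic regular triangulation**, at all the
levels which are not roots. No condition on the polyhedron. -/
theorem main_T (hANN : S_ANN) (hZI : S_ZI) (hZPT : S_ZPT) (hFAR : S_FAR) (q : ℕ) (hq : 2 ≤ q)
    (v : Fin r → Fin N → ℕ) (hv0 : ∀ j, v j ≠ 0) (ω : Fin r → ℕ) (hG : Gen v ω)
    (p : Polynomial ℂ) (hrel : RelG v (Kil1 v) (KilU v fun j => -(ω j : ℤ)) p)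
    (e : Finset (Fin r) → ℂ) (he : KRelJ q v Finset.univ e) (T0 : ℂ) (hT0 : T0 ≠ 0)
    (hp : p.eval ((-Real.log ‖T0‖ / Real.log q : ℝ) : ℂ) ≠ 0) :
    RecJ q v (eT v ω e) Finset.univ T0 := by
  classical
  obtain ⟨ρ, hρ⟩ := hZPT r N v ω hv0 hG
  obtain ⟨h1, h2⟩ := hρ ρ le_rfl
  set h := hts v ω ρ with hh
  have hrel' : RelG v (Kil1 v) (KilU v fun j => -(h j : ℤ)) p := by
    obtain ⟨M, n, n0, c, B, q', c0, q0, hc, hc0, hr⟩ := hrel
    exact ⟨M, n, n0, c, B, q', c0, q0, hc, fun k => kilU_hts v ω ρ _ (hc0 k), hr⟩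
  obtain ⟨Q, hQ, hfar⟩ := hFAR r N q hq v h p hrel' e he T0 hT0 hp
  have hAnn : Ann (bS q v ω h e) := by
    refine Ann_bS hANN q v ω h e fun I hI => ?_
    obtain ⟨zw, za, h3, h4, h5, h6⟩ := h1 I hI
    exact hZI r N q hq v h I zw za h3 h4 h5 h6
  have hbm : ∀ m, 0 < m → bS q v ω h e m = PowerSeries.mk fun t : ℕ => aM q v e h m t := by
    intro m hm
    ext t
    rw [PowerSeries.coeff_mk]
    refine coeff_bS_pos q hq v ω h e m t fun I hI x hx => ?_
    exact h2 I hI m x t hm hx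
  have hb0 : bS q v ω h e 0 = PowerSeries.mk fun t : ℕ => aJ q v (eT v ω e) Finset.univ t := by
    ext t
    rw [PowerSeries.coeff_mk]
    exact coeff_bS_zero q hq v ω h e t
  have hfar' : ∀ᶠ m : ℕ in atTop, ∃ A : Polynomial ℂ,
      (Q : PowerSeries ℂ) * bS q v ω h e m = A := by
    filter_upwards [hfar, eventually_gt_atTop 0] with m h3 h4
    rw [hbm m h4]
    exact rec_poly (fun t => aM q v e h m t) Q h3
  obtain ⟨Q', A, hQ', hA⟩ := descentA hAnn T0 hT0 Q hQ hfar'
  refine ⟨Q', hQ', ?_⟩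
  rw [hb0] at hA
  exact rec_of_poly _ Q' A hA

end Pool.Agent.Y228.HX
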