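import Pool.Agent.Y228.HX.All
import Pool.Agent.TH216.LX.Lx3

set_option autoImplicit false
set_option maxHeartbeats 400000

/-! # Project HX: generic coefficients, the formal part -/

namespace Pool.Agent.Y228.HX

open MvPolynomial Pool.Agent.H628R4.TP Pool.Agent.W425.MM Pool.Agent.W425.GN
open Pool.Agent.W425.SV (NP RelV Kil1)
open Pool.Agent.TH216.MF (RelG KilU IsPol fac)
open Pool.Agent.TH216.LX (relLX)
open Pool.Agent.W426.SM (gord IsRay face)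
open Pool.Agent.W425.ND (spa)

variable {r N : ℕ}

/-- the relation at `α`, with generic heights -/
theorem relGen [NeZero r] {F : Type} [Field F] (v : Fin r → Fin N → ℕ)
    (hv : Function.Injective v) (hv0 : ∀ j, v j ≠ 0) (h : MvPolynomial (Fin N) F)
    (hh : ∀ w ∈ h.support, NP v w) (α : ℚ) (hn : ¬ HPL v h α 0) :
    ∃ (ω : Fin r → ℕ) (p : Polynomial ℂ), Gen v ω ∧
      RelG v (Kil1 v) (KilU v fun j => -(ω j : ℤ)) p ∧ p.eval (α : ℂ) ≠ 0 := by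
  unfold HPL at hn
  push Not at hn
  obtain ⟨F', _, _, a, h', ha, hs, b', hb', hnd⟩ := hn
  have hb0 : b' ≠ 0 := fun h => hnd (h ▸ dvd_zero _)
  have hJ := (feqL_iff _ b').2 hb'
  obtain ⟨θ, hθ⟩ := Pool.Agent.W422.GC.exists_heights r
  obtain ⟨p, q, hbp, hp⟩ := Pool.Agent.W422.GC.rel_of_unit True _ unit_cond v a
    hv hv0 ha h' (fun w hw => hh w (hs w hw)) θ hθ b' hb0 hJ
  have hp0 : p ≠ 0 := by
    rintro rfl
    apply hb0
    rw [hbp]
    simp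
  obtain ⟨ω, hG, h1⟩ := Pool.Agent.Y26.HX.t_GENREL r N v θ True p hθ hp
  refine ⟨ω, p, hG, h1, Pool.Agent.TH216.MC.eval_ne_of_mult hp0 _ ?_⟩
  have h1 : (Polynomial.X + 1) * p ∣ b' := ⟨q, hbp⟩
  have h2 := Polynomial.rootMultiplicity_le_rootMultiplicity_of_dvd hb0 h1 (α : ℂ)
  refine h2.trans ?_
  by_contra hcon
  push Not at hcon
  exact hnd ((Polynomial.le_rootMultiplicity_iff hb0).1 hcon)

/-- **The formal part, generic coefficients.** -/
theorem uniG (hr : 0 < r) {F : Type} [Field F] (v : Fin r → Fin N → ℕ)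
    (hv : Function.Injective v) (hv0 : ∀ j, v j ≠ 0) (h : MvPolynomial (Fin N) F)
    (hh : ∀ w ∈ h.support, NP v w) :
    ∃ (ω0 : Fin r → ℕ) (l : List (Fin N → ℕ)), Gen v ω0 ∧
      (∀ a ∈ l, IsRay v a ∧ 0 < gord v a ∧
        HPL v h (-(((∑ i, a i : ℕ) : ℚ) / gord v a)) 0) ∧
      IsPol (Ug v ω0 * (l.map (fac v)).prod) ∧
      IsPol (US v (KP v ω0) * (l.map (fac v)).prod) := by
  classical
  have hne : NeZero r := ⟨by omega⟩
  obtain ⟨θ0, hθ0⟩ := Pool.Agent.W422.GC.exists_heights r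
  obtain ⟨ω0, hG0, -⟩ := Pool.Agent.Y26.HX.t_GENREL r N v θ0 True 0 hθ0 ⟨0, 0, 0, fun k => k.elim0,
    fun k => k.elim0, fun k => k.elim0, fun k => k.elim0, fun k => k.elim0, fun k => k.elim0,
    fun k => k.elim0, by simp⟩
  obtain ⟨l, hl, hUg, hUk⟩ := formalHX Pool.Agent.Y434.HX.t_ANN s_zi Pool.Agent.Y688.HX.t_ZPT
    Pool.Agent.Y188.HX.t_FAR s_ehr Pool.Agent.Y625.HX.t_SER Pool.Agent.Y26.HX.t_INDP
    Pool.Agent.Y155.HX.t_BOX s_kr2 hr v hv0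
    (fun σ => ¬ HPL v h (-σ) 0) (fun σ hσ => relGen v hv hv0 h hh (-σ) hσ) ω0 hG0
  exact ⟨ω0, l, hG0, fun a ha => ⟨(hl a ha).1, (hl a ha).2.1, not_not.1 (hl a ha).2.2⟩, hUg, hUk⟩

end Pool.Agent.Y228.HX
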