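import Pool.Agent.Y228.HX.S1
import Pool.Agent.Y228.HX.N4

set_option autoImplicit false
set_option maxHeartbeats 400000

/-! # Project HX: further exponents in the Newton polyhedron -/

namespace Pool.Agent.Y228.HX

open Pool.Agent.TH216.MF (frc cser FR evR geoR_mul ratR ratR_mem CR_mem geoR_mem IsPol fac)
open Pool.Agent.W426.SM (gord ford IsRay face)
open Pool.Agent.W803.SM (filt gord_le)
open Pool.Agent.W428.MOT
open Pool.Agent.W425.SV (NP)

variable {r N s : ℕ}

/-- the exponent `w` is in the Newton polyhedron of the `v j` -/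
def InNP (v : Fin r → Fin N → ℕ) (w : Fin N → ℕ) : Prop :=
  ∃ l : Fin r → ℚ, (∀ j, 0 ≤ l j) ∧ ∑ j, l j = 1 ∧ ∀ i, ∑ j, l j * (v j i : ℚ) ≤ (w i : ℚ)

lemma InNP.np {v : Fin r → Fin N → ℕ} {w : Fin N →₀ ℕ} (h : InNP v fun i => w i) : NP v w := by
  obtain ⟨l, h1, h2, h3⟩ := h
  refine ⟨fun j => ((l j : ℚ) : ℝ), fun j => ?_, ?_, fun i => ?_⟩
  · have h4 := h1 j
    change (0 : ℝ) ≤ ((l j : ℚ) : ℝ)
    exact_mod_cast h4
  · change ∑ j, ((l j : ℚ) : ℝ) = 1
    exact_mod_cast h2
  · change ∑ j, ((l j : ℚ) : ℝ) * (v j i : ℝ) ≤ (w i : ℝ)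
    have h4 : ∑ j, l j * (v j i : ℚ) ≤ (w i : ℚ) := h3 i
    exact_mod_cast h4

/-- the indices of the `v j` -/
def rs (τ : Finset (Fin (r + s))) : Finset (Fin r) :=
  Finset.univ.filter fun j => Fin.castAdd s j ∈ τ

section app

variable (v : Fin r → Fin N → ℕ) (e : Fin s → Fin N → ℕ)

lemma gord_app (hr : 0 < r) (he : ∀ l, InNP v (e l)) (x : Fin N → ℕ) :
    gord (Fin.append v e) x = gord v x := by
  refine (Pool.Agent.W425.GN.pRAY v e hr (fun l => ?_) x).1
  refine InNP.np ?_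
  exact he l

lemma rs_amin (hr : 0 < r) (he : ∀ l, InNP v (e l)) (x : Fin N → ℕ) :
    rs (amin (Fin.append v e) x) = amin v x := by
  ext j
  unfold rs amin
  simp only [Finset.mem_filter, Finset.mem_univ, true_and, Fin.append_left, gord_app v e hr he]

lemma face_conv (hr : 0 < r) (he : ∀ l, InNP v (e l)) (x : Fin N → ℕ) (hx : ∀ i, 0 < x i)
    (l : Fin s) (hl : Fin.natAdd r l ∈ amin (Fin.append v e) x) :
    ∃ a : Fin r → ℚ, (∀ j, j ∉ amin v x → a j = 0) ∧ (∀ j, 0 ≤ a j) ∧ ∑ j, a j = 1 ∧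
      ∀ i, ∑ j, a j * (v j i : ℚ) = (e l i : ℚ) := by
  obtain ⟨a, h1, h2, h3⟩ := he l
  have h4 : ∑ i, x i * e l i = gord v x := by
    have := (Finset.mem_filter.1 hl).2
    rwa [Fin.append_right, gord_app v e hr he] at this
  have h4' : ∑ i, (x i : ℚ) * (e l i : ℚ) = (gord v x : ℚ) := by
    rw [← h4]
    push_cast
    rfl
  have h5 : ∀ j, (gord v x : ℚ) ≤ ∑ i, (x i : ℚ) * (v j i : ℚ) := by
    intro j
    have := gord_le v x j
    exact_mod_cast this
  have h6 : ∑ i, (x i : ℚ) * ∑ j, a j * (v j i : ℚ) =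
      ∑ j, a j * ∑ i, (x i : ℚ) * (v j i : ℚ) := by
    simp only [Finset.mul_sum]
    rw [Finset.sum_comm]
    refine Finset.sum_congr rfl fun j _ => Finset.sum_congr rfl fun i _ => ?_
    ring
  have h7 : (gord v x : ℚ) ≤ ∑ j, a j * ∑ i, (x i : ℚ) * (v j i : ℚ) := by
    calc (gord v x : ℚ) = ∑ j, a j * (gord v x : ℚ) := by rw [← Finset.sum_mul, h2, one_mul]
      _ ≤ _ := Finset.sum_le_sum fun j _ => mul_le_mul_of_nonneg_left (h5 j) (h1 j)
  have h8 : ∀ i ∈ (Finset.univ : Finset (Fin N)), (x i : ℚ) * ∑ j, a j * (v j i : ℚ) ≤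
      (x i : ℚ) * (e l i : ℚ) := fun i _ =>
    mul_le_mul_of_nonneg_left (h3 i) (Nat.cast_nonneg _)
  have h9 : ∑ i, (x i : ℚ) * ∑ j, a j * (v j i : ℚ) = ∑ i, (x i : ℚ) * (e l i : ℚ) := by
    refine le_antisymm (Finset.sum_le_sum h8) ?_
    rw [h4', h6]
    exact h7
  have h10 := (Finset.sum_eq_sum_iff_of_le h8).1 h9
  have h11 : ∀ i, ∑ j, a j * (v j i : ℚ) = (e l i : ℚ) := by
    intro i
    have h12 := h10 i (Finset.mem_univ i)
    have h13 : (x i : ℚ) ≠ 0 := by exact_mod_cast (hx i).ne'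
    exact mul_left_cancel₀ h13 h12
  refine ⟨a, fun j hj => ?_, h1, h2, h11⟩
  have h14 : ∑ j, a j * (gord v x : ℚ) = ∑ j, a j * ∑ i, (x i : ℚ) * (v j i : ℚ) := by
    rw [← Finset.sum_mul, h2, one_mul, ← h6, h9, h4']
  have h15 := (Finset.sum_eq_sum_iff_of_le fun j _ =>
    mul_le_mul_of_nonneg_left (h5 j) (h1 j)).1 h14 j (Finset.mem_univ j)
  by_contra hne
  apply hj
  have h16 := mul_left_cancel₀ hne h15
  unfold amin
  rw [Finset.mem_filter]
  exact ⟨Finset.mem_univ _, by exact_mod_cast h16.symm⟩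

lemma free_app (hr : 0 < r) (he : ∀ l, InNP v (e l)) (x : Fin N → ℕ) (hx : ∀ i, 0 < x i) :
    free 0 (Fin.append v e) Finset.univ (amin (Fin.append v e) x) =
      free 0 v Finset.univ (amin v x) := by
  ext i
  unfold free
  simp only [Finset.mem_filter, Finset.mem_univ, true_and, Pi.zero_apply]
  constructor
  · intro h j hj
    have h1 : Fin.castAdd s j ∈ amin (Fin.append v e) x := by
      rw [← rs_amin v e hr he x] at hj
      exact (Finset.mem_filter.1 hj).2
    have := h _ h1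
    rwa [Fin.append_left] at this
  · intro h j
    refine Fin.addCases (fun j hj => ?_) (fun l hl => ?_) j
    · rw [Fin.append_left]
      refine h j ?_
      rw [← rs_amin v e hr he x]
      exact Finset.mem_filter.2 ⟨Finset.mem_univ _, hj⟩
    · rw [Fin.append_right]
      obtain ⟨a, h1, h2, h3, h4⟩ := face_conv v e hr he x hx l hl
      have h5 : (e l i : ℚ) = 0 := by
        rw [← h4 i]
        refine Finset.sum_eq_zero fun j _ => ?_
        by_cases hj : j ∈ amin v x
        · rw [h j hj]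
          simp
        · rw [h1 j hj, zero_mul]
      exact_mod_cast h5

lemma coeff_USu (E : Finset (Fin r) → Polynomial ℤ) (M : ℕ) :
    PowerSeries.coeff M (US v E) =
      ∑ u ∈ (Fintype.piFinset fun _ : Fin N => Finset.range (M + 2)).filter
        (fun u => Adm Finset.univ u ∧ ford 0 v 1 u = M),
        (1 - Polynomial.X) ^ (N - frc v Finset.univ (amin v u)) * E (amin v u) *
          wt 0 v Finset.univ (amin v u) M u := by
  classical
  unfold US
  rw [map_sum]
  rw [← Finset.sum_fiberwise _ (fun u => amin v u)]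
  refine Finset.sum_congr rfl fun τ _ => ?_
  rw [PowerSeries.coeff_C_mul]
  unfold cser
  rw [PowerSeries.coeff_mk]
  unfold cp
  rw [Finset.mul_sum]
  have h1 : (Fintype.piFinset fun _ : Fin N => Finset.range (M + 2)).filter
      (fun u => Adm Finset.univ u ∧ amin v u = τ ∧ ford 0 v 1 u = M) =
      ((Fintype.piFinset fun _ : Fin N => Finset.range (M + 2)).filter
      (fun u => Adm Finset.univ u ∧ ford 0 v 1 u = M)).filter (fun u => amin v u = τ) := by
    ext u
    simp only [Finset.mem_filter]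
    tauto
  rw [h1]
  refine Finset.sum_congr rfl fun u hu => ?_
  rw [(Finset.mem_filter.1 hu).2]

lemma US_app (hr : 0 < r) (he : ∀ l, InNP v (e l)) (G : Finset (Fin r) → Polynomial ℤ) :
    US (Fin.append v e) (fun τ => G (rs τ)) = US v G := by
  classical
  ext1 M
  rw [coeff_USu, coeff_USu]
  have hf : ∀ u : Fin N → ℕ, ford 0 (Fin.append v e) 1 u = ford 0 v 1 u := by
    intro u
    unfold ford
    rw [gord_app v e hr he]
  have h1 : (Fintype.piFinset fun _ : Fin N => Finset.range (M + 2)).filter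
      (fun u => Adm Finset.univ u ∧ ford 0 (Fin.append v e) 1 u = M) =
      (Fintype.piFinset fun _ : Fin N => Finset.range (M + 2)).filter
      (fun u => Adm Finset.univ u ∧ ford 0 v 1 u = M) := by
    refine Finset.filter_congr fun u _ => ?_
    rw [hf]
  rw [h1]
  refine Finset.sum_congr rfl fun u hu => ?_
  have hu' : ∀ i, 0 < u i := fun i =>
    Nat.pos_of_ne_zero (((Finset.mem_filter.1 hu).2.1 i).2 (Finset.mem_univ i))
  have h2 := free_app v e hr he u hu'
  unfold frc wt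
  rw [h2, rs_amin v e hr he]

/-- the dilations -/
lemma Dil_app (hr : 0 < r) (he : ∀ l, InNP v (e l)) (x : Fin N → ℕ) (hx : ∀ i, 0 < x i)
    (k : ℕ) : Dil (Fin.append v e) (amin (Fin.append v e) x) k = Dil v (amin v x) k := by
  classical
  ext y
  have hmem : ∀ j, Fin.castAdd s j ∈ amin (Fin.append v e) x ↔ j ∈ amin v x := by
    intro j
    rw [← rs_amin v e hr he x]
    unfold rs
    rw [Finset.mem_filter]
    simp
  constructor
  · rintro ⟨l, h1, h2, h3, h4⟩
    have hc : ∀ t : Fin s, ∃ a : Fin r → ℚ, (∀ j, j ∉ amin v x → l (Fin.natAdd r t) * a j = 0) ∧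
        (∀ j, 0 ≤ l (Fin.natAdd r t) * a j) ∧
        ∑ j, l (Fin.natAdd r t) * a j = l (Fin.natAdd r t) ∧
        ∀ i, ∑ j, l (Fin.natAdd r t) * a j * (v j i : ℚ) = l (Fin.natAdd r t) * (e t i : ℚ) := by
      intro t
      by_cases ht : Fin.natAdd r t ∈ amin (Fin.append v e) x
      · obtain ⟨a, a1, a2, a3, a4⟩ := face_conv v e hr he x hx t ht
        refine ⟨a, fun j hj => by rw [a1 j hj, mul_zero], fun j => mul_nonneg (h2 _) (a2 j), ?_,
          fun i => ?_⟩
        · rw [← Finset.mul_sum, a3, mul_one]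
        · rw [← a4 i, Finset.mul_sum]
          refine Finset.sum_congr rfl fun j _ => by ring
      · have h0 := h1 _ ht
        refine ⟨fun _ => 0, fun j _ => by simp, fun j => by simp, ?_, fun i => ?_⟩
        · rw [h0]
          simp
        · rw [h0]
          simp
    choose a a1 a2 a3 a4 using hc
    refine ⟨fun j => l (Fin.castAdd s j) + ∑ t, l (Fin.natAdd r t) * a t j, fun j hj => ?_,
      fun j => ?_, fun i => ?_, ?_⟩
    · change l (Fin.castAdd s j) + ∑ t, l (Fin.natAdd r t) * a t j = 0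
      rw [h1 _ (fun h => hj ((hmem j).1 h)), zero_add]
      exact Finset.sum_eq_zero fun t _ => a1 t j hj
    · exact add_nonneg (h2 _) (Finset.sum_nonneg fun t _ => a2 t j)
    · rw [h3 i, Fin.sum_univ_add]
      simp only [Fin.append_left, Fin.append_right, add_mul, Finset.sum_add_distrib]
      congr 1
      simp only [Finset.sum_mul]
      rw [Finset.sum_comm]
      exact Finset.sum_congr rfl fun t _ => (a4 t i).symm
    · rw [h4, Fin.sum_univ_add, Finset.sum_add_distrib]
      congr 1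
      rw [Finset.sum_comm]
      exact Finset.sum_congr rfl fun t _ => (a3 t).symm
  · rintro ⟨l, h1, h2, h3, h4⟩
    refine ⟨Fin.append l (fun _ => 0), fun j => ?_, fun j => ?_, fun i => ?_, ?_⟩
    · refine Fin.addCases (fun j hj => ?_) (fun t _ => ?_) j
      · rw [Fin.append_left]
        exact h1 j fun h => hj ((hmem j).2 h)
      · rw [Fin.append_right]
    · refine Fin.addCases (fun j => ?_) (fun t => ?_) j
      · rw [Fin.append_left]
        exact h2 j
      · rw [Fin.append_right]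
    · rw [h3 i, Fin.sum_univ_add]
      simp only [Fin.append_left, Fin.append_right, zero_mul, Finset.sum_const_zero, add_zero]
    · rw [h4, Fin.sum_univ_add]
      simp only [Fin.append_left, Fin.append_right, Finset.sum_const_zero, add_zero]

end app

section ring

variable {R : Type} [CommRing R] (u : Rˣ)

/-- **The class formula** for any class function. -/
theorem FR_NG (v : Fin r → Fin N → ℕ) (D : ℕ) (G : Finset (Fin r) → Polynomial ℤ)
    (b0 b1 : Finset (Fin r) → R) (g : Finset (Fin r) → R)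
    (hg : ∀ τ, cser v Finset.univ τ ≠ 0 →
      (1 - ((u⁻¹ : Rˣ) : R)) ^ D * g τ = evR u (G τ))
    (hb0 : ∀ τ, cser v Finset.univ τ ≠ 0 → b0 τ = ((u : R) - 1) *
      (((u : R) - 1) ^ (N - frc v Finset.univ τ) * ((u⁻¹ : Rˣ) : R) * (1 - g τ)))
    (hb1 : ∀ τ, cser v Finset.univ τ ≠ 0 → b1 τ = ((u : R) - 1) *
      (((u : R) - 1) ^ (N - frc v Finset.univ τ) * ((u⁻¹ : Rˣ) : R) *
        (1 + ((u : R) - 1) * g τ))) :
    PowerSeries.C ((1 - ((u⁻¹ : Rˣ) : R)) ^ D) * FR u v Finset.univ b0 b1 *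
      (1 - PowerSeries.C ((u⁻¹ : Rˣ) : R) * PowerSeries.X) =
      PowerSeries.C (((u : R) - 1) * ((u : R) ^ N * ((u⁻¹ : Rˣ) : R))) *
        PowerSeries.map (evR u) ((PowerSeries.X - 1) * US v G +
          US v (fun _ => (1 - Polynomial.X) ^ D)) := by
  set Y : R := ((u⁻¹ : Rˣ) : R) with hY
  have huY : (u : R) * Y = 1 := Units.mul_inv u
  have hgeo : geoR u (-1) 1 * (1 - PowerSeries.C Y * PowerSeries.X) = 1 := by
    have h1 := geoR_mul u (-1) 1 one_pos
    rw [zpow_neg_one] at h1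
    have h2 : (1 : ℤ).toNat = 1 := rfl
    rw [h2, pow_one] at h1
    rw [mul_comm]
    exact h1
  have hUg : PowerSeries.map (evR u) ((PowerSeries.X - 1) * US v G +
      US v (fun _ => (1 - Polynomial.X) ^ D)) = (PowerSeries.X - 1) *
      PowerSeries.map (evR u) (US v G) +
        PowerSeries.map (evR u) (US v (fun _ => (1 - Polynomial.X) ^ D)) := by
    rw [map_add (PowerSeries.map (evR u)), map_mul (PowerSeries.map (evR u)),
      map_sub (PowerSeries.map (evR u)), map_one (PowerSeries.map (evR u)), PowerSeries.map_X]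
  rw [hUg, map_US, map_US]
  rw [← hY]
  unfold FR
  rw [Finset.mul_sum, Finset.sum_mul]
  rw [Finset.mul_sum, ← Finset.sum_add_distrib, Finset.mul_sum]
  refine Finset.sum_congr rfl fun τ _ => ?_
  by_cases hτ : cser v Finset.univ τ = 0
  · rw [hτ, map_zero]
    ring
  set Cs := PowerSeries.map (evR u) (cser v Finset.univ τ) with hCs
  set fr := frc v Finset.univ τ with hfr
  have h1 : (u : R) ^ fr * ((u : R) - 1) ^ (N - fr) = (u : R) ^ N * (1 - Y) ^ (N - fr) := by
    have h2 : ((u : R) - 1) = (u : R) * (1 - Y) := by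
      linear_combination huY
    rw [h2, mul_pow, ← mul_assoc, ← pow_add, Nat.add_sub_cancel' (frcN v τ)]
  have hpow : evR u ((1 - Polynomial.X) ^ D : Polynomial ℤ) = (1 - Y) ^ D := by
    rw [map_pow, map_sub, map_one, Pool.Agent.TH216.MF.evR_X]
  rw [hpow, ← hg τ hτ, hb0 τ hτ, hb1 τ hτ]
  simp only [map_mul, map_sub, map_add, map_one, map_pow] at h1 hgeo ⊢
  have h1' := congrArg (PowerSeries.C (R := R)) h1
  simp only [map_mul, map_sub, map_one, map_pow] at h1'
  have huY' := congrArg (PowerSeries.C (R := R)) huY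
  simp only [map_mul, map_one] at huY'
  generalize PowerSeries.C (R := R) (u : R) = U at *
  generalize PowerSeries.C (R := R) Y = y at *
  generalize PowerSeries.C (R := R) (g τ) = gg at *
  generalize (PowerSeries.X : PowerSeries R) = T at *
  generalize geoR u (-1) 1 = G' at *
  generalize (1 - y) ^ D = D' at *
  generalize (U - 1) ^ (N - fr) = A at *
  generalize (1 - y) ^ (N - fr) = B at *
  generalize U ^ fr = F at *
  generalize U ^ N = E at *
  linear_combination (U - 1) * ((D' * Cs * y * ((1 - gg) * (1 - y * T) +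
    (1 + (U - 1) * gg) * y * T)) * h1'
    + (D' * F * A * y * Cs * y * T * (1 + (U - 1) * gg)) * hgeo +
      (D' * E * B * Cs * y * T * gg) * huY')

/-- membership, with further exponents -/
theorem FR_memNG {S : Set (ℤ × ℤ)} (hS1 : ((-1 : ℤ), (1 : ℤ)) ∈ S) (hr : 0 < r)
    (v : Fin r → Fin N → ℕ) (e : Fin s → Fin N → ℕ) (he : ∀ l, InNP v (e l))
    (ω : Fin r → ℕ) (l : List (Fin N → ℕ))
    (hl : ∀ a ∈ l, 0 < gord v a ∧ (-((∑ i, a i : ℕ) : ℤ), (gord v a : ℤ)) ∈ S)
    (hGg : IsPol (Ug v ω * (l.map (fac v)).prod))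
    (hu : IsUnit (1 - ((u⁻¹ : Rˣ) : R))) (b0 b1 : Finset (Fin (r + s)) → R)
    (g : Finset (Fin (r + s)) → R)
    (hg : ∀ τ, cser (Fin.append v e) Finset.univ τ ≠ 0 →
      (1 - ((u⁻¹ : Rˣ) : R)) ^ r * g τ = evR u (GP v ω (rs τ)))
    (hb0 : ∀ τ, cser (Fin.append v e) Finset.univ τ ≠ 0 → b0 τ = ((u : R) - 1) *
      (((u : R) - 1) ^ (N - frc (Fin.append v e) Finset.univ τ) * ((u⁻¹ : Rˣ) : R) * (1 - g τ)))
    (hb1 : ∀ τ, cser (Fin.append v e) Finset.univ τ ≠ 0 → b1 τ = ((u : R) - 1) *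
      (((u : R) - 1) ^ (N - frc (Fin.append v e) Finset.univ τ) * ((u⁻¹ : Rˣ) : R) *
        (1 + ((u : R) - 1) * g τ))) :
    FR u (Fin.append v e) Finset.univ b0 b1 ∈ ratR u S := by
  have h0 := FR_NG u (Fin.append v e) r (fun τ => GP v ω (rs τ)) b0 b1 g hg hb0 hb1
  have hUU : (PowerSeries.X - 1) * US (Fin.append v e) (fun τ => GP v ω (rs τ)) +
      US (Fin.append v e) (fun _ => (1 - Polynomial.X) ^ r) = Ug v ω := by
    rw [US_app v e hr he (GP v ω), US_app v e hr he (fun _ => (1 - Polynomial.X) ^ r)]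
    rfl
  rw [hUU] at h0
  set Y : R := ((u⁻¹ : Rˣ) : R) with hY
  obtain ⟨D, hD⟩ := hu
  have hgeo : (1 - PowerSeries.C Y * PowerSeries.X) * geoR u (-1) 1 = 1 := by
    have h1 := geoR_mul u (-1) 1 one_pos
    rw [zpow_neg_one] at h1
    have h2 : (1 : ℤ).toNat = 1 := rfl
    rw [h2, pow_one] at h1
    exact h1
  have hDi : PowerSeries.C (((D⁻¹ : Rˣ) : R) ^ r) * PowerSeries.C ((1 - Y) ^ r) = 1 := by
    rw [← map_mul, ← hD, ← mul_pow, Units.inv_mul, one_pow, map_one]
  have h1 : FR u (Fin.append v e) Finset.univ b0 b1 = PowerSeries.C (((D⁻¹ : Rˣ) : R) ^ r) *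
      (PowerSeries.C (((u : R) - 1) * ((u : R) ^ N * Y)) * PowerSeries.map (evR u) (Ug v ω)) *
        geoR u (-1) 1 := by
    rw [← h0]
    linear_combination (-(FR u (Fin.append v e) Finset.univ b0 b1)) * hDi -
      (PowerSeries.C (((D⁻¹ : Rˣ) : R) ^ r) * PowerSeries.C ((1 - Y) ^ r) *
        FR u (Fin.append v e) Finset.univ b0 b1) * hgeo
  rw [h1]
  have hG1 := ratR_mem (S := S) u v l hl _ hGg
  exact (ratR u S).mul_mem ((ratR u S).mul_mem (CR_mem u S _) ((ratR u S).mul_mem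
    (CR_mem u S _) hG1)) (geoR_mem u (p := ((-1 : ℤ), (1 : ℤ))) hS1)

end ring

end Pool.Agent.Y228.HX
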