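import Pool.Agent.Y228.HX.S2
import Pool.Agent.Y228.HX.G2

set_option autoImplicit false
set_option maxHeartbeats 400000

/-! # Project HX: the strong monodromy conjecture for generic coefficients -/

namespace Pool.Agent.Y228.HX

open MvPolynomial
open Pool.Agent.TH216.MF (frc cser FR evR geoR_mul ratR ratR_mem CR_mem XR_mem geoR_mem IsPol fac)
open Pool.Agent.W426.SM (gord ford IsRay face)
open Pool.Agent.W803.SM (filt gord_le)
open Pool.Agent.W428.MOT Pool.Agent.W749.MT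
open Pool.Agent.W749.NM (zetaN JetN)
open Pool.Agent.W425.ND (spa)
open Pool.Agent.W425.SV (NP)
open Pool.Agent.W375.MG (Good GB0 GB1 zetaG zetaOrd JetG good_units zetaOrd_eq)
open Pool.Agent.Y229.CF.Mot (NonGJ)

variable {r N s : ℕ}

/-- **The theorem over one field, naive zeta function.** -/
theorem hodgeNG_mem (hr : 0 < r) (K : Type) [Field K] [CharZero K] (φ : MK K →+* RatFunc ℚ)
    (hφ : ChiY φ)
    (v : Fin r → Fin N → ℕ) (hv0 : ∀ j, v j ≠ 0) (e : Fin s → Fin N → ℕ)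
    (he : ∀ l, InNP v (e l)) (hm : Function.Injective (Fin.append v e)) (c : Fin (r + s) → K)
    (hc : ∀ j, c j ≠ 0)
    (hnd : Pool.Agent.Y229.CF.NonDP (Fin.append v e)
      (fun j => algebraMap K (AlgebraicClosure K) (c j)))
    (hNon : Pool.Agent.Y229.CF.Mot.NonGJ Finset.univ (Fin.append v e) c) (S : Set (ℤ × ℤ))
    (hS1 : ((-1 : ℤ), (1 : ℤ)) ∈ S) (ω : Fin r → ℕ) (hG : Gen v ω) (l : List (Fin N → ℕ))
    (hl : ∀ a ∈ l, 0 < gord v a ∧ (-((∑ i, a i : ℕ) : ℤ), (gord v a : ℤ)) ∈ S)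
    (hGg : IsPol (Ug v ω * (l.map (fac v)).prod)) :
    PowerSeries.map φ (zetaN (sp 0 (Fin.append v e) c 1) 0) ∈ ratR uX S := by
  classical
  have hrs : 0 < r + s := by omega
  set m := Fin.append v e with hmdef
  obtain ⟨b0, b1, z0, hz, hb0, hb1⟩ := zetaN_FR m hrs c hNon
  have hu : Units.map (φ : MK K →* RatFunc ℚ) (Lu K) = uX := Units.ext hφ.1
  rw [hz, map_mul, map_add, FR_map, hu, PowerSeries.map_C, PowerSeries.map_C]
  refine (ratR uX S).mul_mem (CR_mem uX S _) ((ratR uX S).add_mem ?_ (CR_mem uX S _))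
  have hX0 : (RatFunc.X : RatFunc ℚ) ≠ 0 := RatFunc.X_ne_zero
  have hX1 := X_sub_one_ne
  have hX1' : (1 - RatFunc.X : RatFunc ℚ) ≠ 0 := fun h => hX1 (by linear_combination -h)
  have hui : ((uX⁻¹ : (RatFunc ℚ)ˣ) : RatFunc ℚ) = (RatFunc.X : RatFunc ℚ)⁻¹ := rfl
  have huv : ((uX : (RatFunc ℚ)ˣ) : RatFunc ℚ) = RatFunc.X := rfl
  have hev : ∀ p : Polynomial ℤ, evR uX p =
      Polynomial.eval₂ (Int.castRingHom (RatFunc ℚ)) (RatFunc.X : RatFunc ℚ)⁻¹ p := fun p => rfl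
  have hdat : ∀ τ : Finset (Fin (r + s)), cser m Finset.univ τ ≠ 0 → ∃ x : Fin N → ℕ,
      (∀ i, 0 < x i) ∧ τ = amin m x ∧ (∀ i, 0 < (x i : ℚ)) ∧
      (∀ j, ((gord v x : ℕ) : ℚ) ≤ ∑ i, (x i : ℚ) * (v j i : ℚ)) ∧
      0 < ((gord v x : ℕ) : ℚ) ∧
      ∀ j, j ∈ rs τ ↔ ∑ i, (x i : ℚ) * (v j i : ℚ) = ((gord v x : ℕ) : ℚ) := by
    intro τ hτ
    obtain ⟨x, hx, hxτ⟩ := cser_ex m τ hτ
    obtain ⟨h1, h2, h3, h4⟩ := face_data hr v hv0 x hx
    refine ⟨x, hx, hxτ.symm, h1, h2, h3, ?_⟩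
    intro j
    rw [← hxτ, hmdef, rs_amin v e hr he x]
    exact h4 j
  have hcoef : ∀ d : ℕ, ((1 - Polynomial.X : Polynomial ℚ) ^ d).coeff 0 ≠ 0 := by
    intro d
    rw [Polynomial.coeff_zero_eq_eval_zero]
    simp
  have hval : ∀ τ, cser m Finset.univ τ ≠ 0 →
      φ (clM {z : Pt K (Fin N) | (∀ i, z i ≠ 0) ∧ gbar m (cb c) τ z = 0}) =
      ((RatFunc.X - 1) ^ N + (RatFunc.X - 1) ^ (N + 1) * gX v ω (rs τ)) / RatFunc.X := by
    intro τ hτ
    obtain ⟨x, hx, hxτ, h1, h2, h3, h4⟩ := hdat τ hτ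
    have h5 := A0_eq s_ehr Pool.Agent.Y625.HX.t_SER Pool.Agent.Y26.HX.t_INDP v ω hG _ _ h1 h2 h3
      (rs τ) h4
    have h6 := Expd_of (A0 v ω (rs τ)) ((1 - Polynomial.X) ^ r) (hcoef r) _ (by
      rw [h5]
      push_cast
      rfl)
    have h7 := (s_exp r N v ω hG _ _ h1 h2 h3 (rs τ) h4).1 _ h6
    have hDD : (PowerSeries.mk fun k => ((Dil m τ k).ncard : ℚ)) =
        PowerSeries.mk fun k => ((Dil v (rs τ) k).ncard : ℚ) := by
      congr 1
      funext k
      rw [hxτ, hmdef, Dil_app v e hr he x hx, rs_amin v e hr he x]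
    have h8 := hφ.2 N (r + s) m τ c _ (fun j _ => hc j) (fun a _ b _ h => hm h)
      (by rw [hxτ]; exact nonL_face hrs m c hnd x hx) (by rw [hDD]; exact h6)
    unfold clM
    rw [← ZT_zero, h8, h7]
    rfl
  have hpow : ∀ τ, (RatFunc.X - 1 : RatFunc ℚ) ^ N = (RatFunc.X - 1) ^ (N - frc m Finset.univ τ) *
      (RatFunc.X - 1) ^ frc m Finset.univ τ := by
    intro τ
    rw [← pow_add, Nat.sub_add_cancel (frcN m τ)]
  refine FR_memNG uX hS1 hr v e he ω l hl hGg ?_ _ _ (fun τ => gX v ω (rs τ)) ?_ ?_ ?_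
  · rw [hui, isUnit_iff_ne_zero]
    intro h
    apply hX1
    field_simp at h
    linear_combination h
  · intro τ hτ
    rw [hui, hev]
    change (1 - (RatFunc.X : RatFunc ℚ)⁻¹) ^ r * gX v ω (rs τ) = _
    unfold gX GP
    rw [Finset.mul_sum, Polynomial.eval₂_finset_sum]
    refine Finset.sum_congr rfl fun I hI => ?_
    split_ifs with hT
    · have h1 := Pool.Agent.Y212.HX.t_RATI r N v I ((Pool.Agent.Y26.HX.t_INDP r N v ω hG).1 I hT) r
        (card_le_r I)
      rw [← h1]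
      ring
    · simp
  · intro τ hτ
    have h9 := congrArg φ (hb0 τ)
    rw [map_mul, map_pow, map_sub, map_sub, map_pow, map_sub, map_one, hφ.1, hval τ hτ, pow_succ,
      hpow τ] at h9
    rw [hui, huv]
    have hp : (RatFunc.X - 1 : RatFunc ℚ) ^ frc m Finset.univ τ ≠ 0 := pow_ne_zero _ hX1
    apply mul_right_cancel₀ hp
    rw [h9]
    field_simp
    ring
  · intro τ hτ
    have h9 := congrArg φ (hb1 τ)
    rw [map_mul, map_pow, map_mul, map_sub, map_one, hφ.1, hval τ hτ, pow_succ, hpow τ] at h9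
    rw [hui, huv]
    have hp : (RatFunc.X - 1 : RatFunc ℚ) ^ frc m Finset.univ τ ≠ 0 := pow_ne_zero _ hX1
    apply mul_right_cancel₀ hp
    rw [h9]
    field_simp
    try ring

/-- **convenient polynomials: the global zeta function from the local one** -/
theorem conv_globalE {n : ℕ} {K : Type} [Field K] [CharZero K] (m : Fin r → Fin n → ℕ) (hr0 : 0 < r) (c : Fin r → K)
    (hNon : NonGJ ∅ m c) (hC : Conv m) (φ : MK K →+* RatFunc ℚ)
    (hφ : φ ((Lu K : (MK K)ˣ) : MK K) = RatFunc.X) (S : Set (ℤ × ℤ))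
    (hS1 : ((-1 : ℤ), (1 : ℤ)) ∈ S) (E : Set (AlgebraicClosure K)) (hE : Good E)
    (h' : PowerSeries.map φ (zetaG (sp 0 m c 1) (W00 K n) E) ∈ ratR uX S) :
    PowerSeries.map φ (zetaG (sp 0 m c 1) Set.univ E) ∈ ratR uX S := by
  classical
  have hu : Units.map (φ : MK K →* RatFunc ℚ) (Lu K) = uX := Units.ext hφ
  obtain ⟨M, hM⟩ := zetaG_FRs m hr0 c hNon
  obtain ⟨z1, h1⟩ := hM Set.univ E Constr.univ hE
  obtain ⟨z2, h2⟩ := hM (W00 K n) E (Pool.Agent.W425.MM.constr_pt (0 : Fin n → K)) hE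
  have hmem : ∀ b0 b1 J, J ≠ Finset.univ → PowerSeries.map φ (FR (Lu K) m J b0 b1) ∈ ratR uX S := by
    intro b0 b1 J hJ
    rw [FR_map, hu]
    exact FR_conv uX S hS1 hr0 m hC J hJ _ _
  have e0 : ∀ τ, GB0 0 m c 1 Set.univ E Finset.univ τ =
      GB0 0 m c 1 (W00 K n) E Finset.univ τ := by
    intro τ
    ext z
    simp only [GB0, Set.mem_ofPred_eq, Finset.mem_univ, if_true, Set.mem_univ, true_and]
    have h3 : (fun _ : Fin n => (0 : AlgebraicClosure K)) ∈ W00 K n := by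
      rw [mem_W00]
      intro i
      rfl
    simp only [h3, true_and]
  have e1 : ∀ τ, GB1 0 m c 1 Set.univ E Finset.univ τ =
      GB1 0 m c 1 (W00 K n) E Finset.univ τ := by
    intro τ
    ext z
    simp only [GB1, Set.mem_ofPred_eq, Finset.mem_univ, if_true, Set.mem_univ, true_and]
    have h3 : (fun _ : Fin n => (0 : AlgebraicClosure K)) ∈ W00 K n := by
      rw [mem_W00]
      intro i
      rfl
    simp only [h3, true_and]
  rw [← Finset.add_sum_erase _ _ (Finset.mem_univ (Finset.univ : Finset (Fin n)))] at h1 h2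
  rw [h2] at h'
  rw [map_add, map_add, map_sum, PowerSeries.map_C] at h'
  rw [h1, map_add, map_add, map_sum, PowerSeries.map_C]
  have h4 : ∀ W, ∑ J ∈ (Finset.univ : Finset (Finset (Fin n))).erase Finset.univ,
      PowerSeries.map φ (FR (Lu K) m J (fun τ => M.χ _ (GB0 0 m c 1 W E J τ))
        (fun τ => M.χ _ (GB1 0 m c 1 W E J τ))) ∈ ratR uX S := fun W =>
    (ratR uX S).sum_mem fun J hJ => hmem _ _ J (Finset.ne_of_mem_erase hJ)
  have h5 : PowerSeries.map φ (FR (Lu K) m Finset.univ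
      (fun τ => M.χ _ (GB0 0 m c 1 Set.univ E Finset.univ τ))
      (fun τ => M.χ _ (GB1 0 m c 1 Set.univ E Finset.univ τ))) ∈ ratR uX S := by
    have h6 : (fun τ => M.χ _ (GB0 0 m c 1 Set.univ E Finset.univ τ)) =
        fun τ => M.χ _ (GB0 0 m c 1 (W00 K n) E Finset.univ τ) := funext fun τ => by rw [e0]
    have h7 : (fun τ => M.χ _ (GB1 0 m c 1 Set.univ E Finset.univ τ)) =
        fun τ => M.χ _ (GB1 0 m c 1 (W00 K n) E Finset.univ τ) := funext fun τ => by rw [e1]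
    rw [h6, h7]
    have h8 := (ratR uX S).sub_mem ((ratR uX S).sub_mem h' (CR_mem uX S (φ z2)))
      (h4 (W00 K n))
    have h9 : ∀ A B D : PowerSeries (RatFunc ℚ), A + B + D - D - B = A := fun A B D => by ring
    rwa [h9] at h8
  exact (ratR uX S).add_mem ((ratR uX S).add_mem h5 (h4 _)) (CR_mem uX S _)

/-- **forms: the global zeta function from the local one** -/
theorem form_globalE {n : ℕ} {K : Type} [Field K] [CharZero K] {d : ℕ} (hd : 0 < d) (f : MvPolynomial (Fin n) K)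
    (hf : f.IsHomogeneous d) (φ : MK K →+* RatFunc ℚ) (S : Set (ℤ × ℤ)) (hS : ∀ p ∈ S, 0 < p.2)
    (E : Set (AlgebraicClosure K)) (hE : Good E)
    (h' : PowerSeries.map φ (zetaG f (W00 K n) E) ∈ ratR uX S) :
    PowerSeries.map φ (zetaG f Set.univ E) ∈ ratR uX S := by
  have hW0 : W00 K n = {0} := by
    unfold W00
    congr 1
    funext i
    simp
  have h0 : Constr ({0} : Set (Pt K (Fin n))) := by
    have h1 := Pool.Agent.W425.MM.constr_pt (K := K) (0 : Fin n → K)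
    have e : ({fun i => algebraMap K (AlgebraicClosure K) ((0 : Fin n → K) i)} :
        Set (Pt K (Fin n))) = {0} := by
      congr 1
      funext i
      simp
    rwa [e] at h1
  rw [hW0] at h'
  rw [Pool.Agent.Y228.ND4.zeta_hom hd hf hE h0, map_mul, map_pow, PowerSeries.map_X,
    map_mul, PowerSeries.map_C] at h'
  have h1 : ∀ (d : ℕ) (G : PowerSeries (RatFunc ℚ)), PowerSeries.X ^ d * G ∈ ratR uX S →
      G ∈ ratR uX S := by
    intro d
    induction d with
    | zero =>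
      intro G hG
      rwa [pow_zero, one_mul] at hG
    | succ d ih =>
      intro G hG
      refine ih G (ratR_divX uX hS _ ?_)
      rw [← mul_assoc, ← pow_succ']
      exact hG
  have h2 := h1 d _ h'
  set A : MK K := (((Lu K) ^ (-(n : ℤ)) : (MK K)ˣ) : MK K) with hA
  set B : MK K := (((Lu K) ^ (n : ℤ) : (MK K)ˣ) : MK K) with hB
  have h3 : B * A = 1 := by
    rw [hA, hB, ← Units.val_mul, ← zpow_add, add_neg_cancel, zpow_zero, Units.val_one]
  have h4 : PowerSeries.map φ (zetaG f Set.univ E) = PowerSeries.C (φ B) *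
      (PowerSeries.C (φ A) * PowerSeries.map φ (zetaG f Set.univ E)) := by
    rw [← mul_assoc, ← map_mul, ← map_mul, h3, map_one, map_one, one_mul]
  rw [h4]
  exact (ratR uX S).mul_mem (CR_mem uX S _) h2


/-- the naive zeta function at the origin -/
lemma zetaN_zetaG {n : ℕ} {K : Type} [Field K] (f : MvPolynomial (Fin n) K) :
    zetaN f 0 = PowerSeries.C (((Lu K) ^ (-(n : ℤ)) : (MK K)ˣ) : MK K) *
      (zetaG f (W00 K n) {a | a ≠ 0} -
        PowerSeries.C (PowerSeries.coeff 0 (zetaG f (W00 K n) {a | a ≠ 0}))) := by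
  unfold zetaN
  congr 1
  ext d
  rw [map_sub, PowerSeries.coeff_C]
  by_cases hd : d = 0
  · subst hd
    rw [if_pos rfl, sub_self, PowerSeries.coeff_mk, if_pos rfl]
  · rw [if_neg hd, sub_zero, PowerSeries.coeff_mk, if_neg hd, zetaG, PowerSeries.coeff_mk]
    have h3 : JetN f (0 : Fin n → K) d = JetG f (W00 K n) {a | a ≠ 0} d := by
      ext z
      simp only [JetN, JetG, W00, Set.mem_ofPred_eq, Set.mem_singleton_iff, funext_iff]
    rw [h3]

lemma W00_eq {n : ℕ} {K : Type} [Field K] : W00 K n = {0} := by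
  unfold W00
  congr 1
  funext i
  simp

/-- from `zetaN` to `zetaG` -/
lemma of_zetaN {n : ℕ} {K : Type} [Field K] (f : MvPolynomial (Fin n) K)
    (φ : MK K →+* RatFunc ℚ) (S : Set (ℤ × ℤ))
    (h : PowerSeries.map φ (zetaN f 0) ∈ ratR uX S) :
    PowerSeries.map φ (zetaG f (W00 K n) {a | a ≠ 0}) ∈ ratR uX S := by
  rw [zetaN_zetaG, map_mul, map_sub, PowerSeries.map_C, PowerSeries.map_C] at h
  set A : MK K := (((Lu K) ^ (-(n : ℤ)) : (MK K)ˣ) : MK K) with hA
  set B : MK K := (((Lu K) ^ (n : ℤ) : (MK K)ˣ) : MK K) with hB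
  have h3 : B * A = 1 := by
    rw [hA, hB, ← Units.val_mul, ← zpow_add, add_neg_cancel, zpow_zero, Units.val_one]
  set Z := zetaG f (W00 K n) {a | a ≠ 0} with hZ
  have h4 : PowerSeries.map φ Z = PowerSeries.C (φ B) * (PowerSeries.C (φ A) *
      (PowerSeries.map φ Z - PowerSeries.C (φ (PowerSeries.coeff 0 Z)))) +
        PowerSeries.C (φ (PowerSeries.coeff 0 Z)) := by
    rw [← mul_assoc, ← map_mul, ← map_mul, h3, map_one, map_one, one_mul, sub_add_cancel]
  rw [h4]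
  exact (ratR uX S).add_mem ((ratR uX S).mul_mem (CR_mem uX S _) h) (CR_mem uX S _)

end Pool.Agent.Y228.HX
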