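import Pool.Agent.Y228.HX.Stm
import Pool.Agent.TH216.MF.MotA
import Pool.Agent.TH216.MF.ExtL

set_option autoImplicit false

/-! # Project HX: exact statements of the jobs which use the library -/

namespace Pool.Agent.Y228.HX

open Filter Pool.Agent.W425.SV
open Pool.Agent.TH216.MF (RelG KilU KRelJ)

/-- HX-GENREL: integral generic heights -/
def S_GENREL : Prop :=
  ∀ (r N : ℕ) (v : Fin r → Fin N → ℕ) (θ : Fin r → ℝ) (loc : Prop) (p : Polynomial ℂ),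
    LinearIndependent ℚ θ → RelV v θ loc p →
    ∃ ω : Fin r → ℕ, Gen v ω ∧ RelG v (Kil1 v) (KilU v fun j => -(ω j : ℤ)) p

/-- the coefficients for the polynomial with the heights `m h_j` -/
noncomputable def aM {r N : ℕ} (q : ℕ) (v : Fin r → Fin N → ℕ) (e : Finset (Fin r) → ℂ)
    (h : Fin r → ℕ) (m : ℕ) (t : ℤ) : ℂ :=
  ∑' x : Fin N → ℕ, open Classical in
    if (∀ i, 0 < x i) ∧ ∀ j, t ≤ ((∑ i, x i * v j i + m * h j : ℕ) : ℤ) then
      (q : ℂ)⁻¹ ^ (∑ i, x i) *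
        e (Finset.univ.filter fun j => ((∑ i, x i * v j i + m * h j : ℕ) : ℤ) = t) else 0

/-- HX-FAR: far away the terms are killed -/
def S_FAR : Prop :=
  ∀ (r N q : ℕ), 2 ≤ q → ∀ (v : Fin r → Fin N → ℕ) (h : Fin r → ℕ) (p : Polynomial ℂ),
    RelG v (Kil1 v) (KilU v fun j => -(h j : ℤ)) p →
    ∀ e : Finset (Fin r) → ℂ, KRelJ q v Finset.univ e → ∀ T0 : ℂ, T0 ≠ 0 →
    p.eval ((-Real.log ‖T0‖ / Real.log q : ℝ) : ℂ) ≠ 0 →
    ∃ Q : Polynomial ℂ, Q.eval T0 ≠ 0 ∧ ∀ᶠ m : ℕ in atTop, ∀ᶠ t : ℤ in atTop,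
      ∑ k ∈ Finset.range (Q.natDegree + 1), Q.coeff k * aM q v e h m (t - k) = 0

end Pool.Agent.Y228.HX
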