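import Pool.Agent.Y228.HX.Stm
import Mathlib.FieldTheory.RatFunc.AsPolynomial

set_option autoImplicit false

/-! # Project HX: second batch of statements (Mathlib only) -/

namespace Pool.Agent.Y228.HX

/-- the box polynomial, over the integers -/
noncomputable def P0Z {R N : ℕ} (v : Fin R → Fin N → ℕ) (I : Finset (Fin R)) : Polynomial ℤ :=
  ∑ k ∈ Finset.range (R + 1), Polynomial.C (nBox0 v I k : ℤ) * Polynomial.X ^ k

/-- `(1 - Y) ^ D` times the value of the Ehrhart series of a simplex at `1 / Y` -/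
noncomputable def gN {R N : ℕ} (v : Fin R → Fin N → ℕ) (I : Finset (Fin R)) (D : ℕ) :
    Polynomial ℤ :=
  open Classical in if Ind v I then
    (-1) ^ I.card * P0Z v I * (1 - Polynomial.X) ^ (D - I.card) else 0

/-- the exponents together with `0` -/
def vp {R N : ℕ} (v : Fin R → Fin N → ℕ) : Fin (R + 1) → Fin N → ℕ := Fin.cons 0 v

/-- `I` together with `0` -/
def Ip {R : ℕ} (I : Finset (Fin R)) : Finset (Fin (R + 1)) := insert 0 (I.map (Fin.succEmb R))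

/-- the coefficients for the second class function -/
noncomputable def kI {R N : ℕ} (q : ℕ) (v : Fin R → Fin N → ℕ) (I : Finset (Fin R)) : ℂ :=
  -(1 - (q : ℂ)⁻¹) * gI q (vp v) (Ip I) - gI q v I

/-- the second class function -/
noncomputable def kF {R N : ℕ} (q : ℕ) (v : Fin R → Fin N → ℕ) (J : Finset (Fin R)) : ℂ :=
  ∑ I ∈ J.powerset, kI q v I

/-- HX-RATI: the value at `u = 1 / Y` of the Ehrhart series of a simplex, as a rational function -/
def S_RATI : Prop :=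
  ∀ (R N : ℕ) (v : Fin R → Fin N → ℕ) (I : Finset (Fin R)), Ind v I → ∀ D : ℕ, I.card ≤ D →
    (Polynomial.aeval (RatFunc.X : RatFunc ℚ) (P1 v I)) / (1 - RatFunc.X) ^ I.card *
      (1 - (RatFunc.X : RatFunc ℚ)⁻¹) ^ D =
      Polynomial.eval₂ (Int.castRingHom (RatFunc ℚ)) (RatFunc.X : RatFunc ℚ)⁻¹ (gN v I D)

/-- the rational function `E` has the power series expansion `S` at `0` -/
def Expd (E : RatFunc ℚ) (S : PowerSeries ℚ) : Prop :=
  ∃ A B : Polynomial ℚ, B.coeff 0 ≠ 0 ∧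
    E * algebraMap (Polynomial ℚ) (RatFunc ℚ) B = algebraMap (Polynomial ℚ) (RatFunc ℚ) A ∧
    (B : PowerSeries ℚ) * S = A

/-- HX-EXP: the Ehrhart series of a compact face and of its cone over `0` -/
def S_EXP : Prop :=
  ∀ (r N : ℕ) (v : Fin r → Fin N → ℕ) (ω : Fin r → ℕ), Gen v ω →
    ∀ (wk : Fin N → ℚ) (mk : ℚ), (∀ i, 0 < wk i) → (∀ j, mk ≤ ∑ i, wk i * (v j i : ℚ)) →
    0 < mk → ∀ κ : Finset (Fin r), (∀ j, j ∈ κ ↔ ∑ i, wk i * (v j i : ℚ) = mk) →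
    (∀ E : RatFunc ℚ, Expd E (PowerSeries.mk fun k => ((Dil v κ k).ncard : ℚ)) →
      E = ∑ I ∈ κ.powerset, (open Classical in if TT v ω I then
        (Polynomial.aeval (RatFunc.X : RatFunc ℚ) (P1 v I)) / (1 - RatFunc.X) ^ I.card else 0)) ∧
    ∀ E : RatFunc ℚ, Expd E (PowerSeries.mk fun k => ((Dil0 v κ k).ncard : ℚ)) →
      E = ∑ I ∈ κ.powerset, (open Classical in if TT v ω I then
        (Polynomial.aeval (RatFunc.X : RatFunc ℚ) (P1 v I)) / (1 - RatFunc.X) ^ I.card +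
        (Polynomial.aeval (RatFunc.X : RatFunc ℚ) (P1 (vp v) (Ip I))) /
          (1 - RatFunc.X) ^ (I.card + 1) else 0)

/-- HX-INDP: independence of the cells -/
def S_INDP : Prop :=
  ∀ (r N : ℕ) (v : Fin r → Fin N → ℕ) (ω : Fin r → ℕ), Gen v ω →
    (∀ I, TT v ω I → Ind v I) ∧
    ∀ (wk : Fin N → ℚ) (mk : ℚ), mk ≠ 0 → ∀ I, TT v ω I →
      (∀ j ∈ I, ∑ i, wk i * (v j i : ℚ) = mk) → Ind (vp v) (Ip I)

/-- HX-KR2: the two class functions -/
def S_KR2 : Prop :=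
  (∀ (R : ℕ) (f : Finset (Fin R) → ℂ) (I : Finset (Fin R)),
    mob (fun J => ∑ I ∈ J.powerset, f I) I = f I) ∧
  ∀ (q R N : ℕ), 2 ≤ q → ∀ (v : Fin R → Fin N → ℕ),
    gE q v ∅ = 1 ∧ kF q v ∅ = 0 ∧
    (∀ (i : Fin N) (j0 : Fin R) (τ : Finset (Fin R)), v j0 i = 1 → (∀ j ∈ τ, v j i = 0) →
      ((q : ℂ) - 1) * gE q v (insert j0 τ) + gE q v τ = 0 ∧
      ((q : ℂ) - 1) * kF q v (insert j0 τ) + kF q v τ = 0) ∧
    ∀ (I : Finset (Fin R)) (D : ℕ), I.card ≤ D →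
      Polynomial.eval₂ (Int.castRingHom ℂ) ((q : ℂ)⁻¹) (gN v I D) =
        (1 - (q : ℂ)⁻¹) ^ D * gI q v I

end Pool.Agent.Y228.HX
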