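import Pool.Agent.Y228.HX.Main
import Pool.Agent.Y228.HX.Stm3
import Pool.Agent.TH216.MF.MotE

set_option autoImplicit false
set_option maxHeartbeats 400000

/-! # Project HX: the universal series -/

namespace Pool.Agent.Y228.HX

open Filter Pool.Agent.W425.SV
open Pool.Agent.TH216.MF
open Pool.Agent.W426.SM (gord ford IsRay)
open Pool.Agent.W803.SM (filt summable_half)
open Pool.Agent.W428.MOT (amin free Adm cp Phi S_CP2 S_RAT geoR)

variable {r N : ℕ}

/-- the first class function, as polynomials in `Y = 1 / u`, times `(1 - Y) ^ r` -/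
noncomputable def GP (v : Fin r → Fin N → ℕ) (ω : Fin r → ℕ) (τ : Finset (Fin r)) :
    Polynomial ℤ := ∑ I ∈ τ.powerset, open Classical in if TT v ω I then gN v I r else 0

/-- the second class function, as polynomials in `Y = 1 / u`, times `(1 - Y) ^ r` -/
noncomputable def KP (v : Fin r → Fin N → ℕ) (ω : Fin r → ℕ) (τ : Finset (Fin r)) :
    Polynomial ℤ := ∑ I ∈ τ.powerset, open Classical in
  if TT v ω I then -gN (vp v) (Ip I) (r + 1) - gN v I r else 0

/-- the universal series of a class function -/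
noncomputable def US (v : Fin r → Fin N → ℕ) (E : Finset (Fin r) → Polynomial ℤ) :
    PowerSeries (Polynomial ℤ) :=
  ∑ τ, PowerSeries.C ((1 - Polynomial.X) ^ (N - frc v Finset.univ τ) * E τ) *
    cser v Finset.univ τ

/-- the first universal series -/
noncomputable def Ug (v : Fin r → Fin N → ℕ) (ω : Fin r → ℕ) : PowerSeries (Polynomial ℤ) :=
  (PowerSeries.X - 1) * US v (GP v ω) + US v (fun _ => (1 - Polynomial.X) ^ r)

lemma frcN (v : Fin r → Fin N → ℕ) (τ : Finset (Fin r)) : frc v Finset.univ τ ≤ N := by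
  have h := frc_le v Finset.univ τ
  rwa [Finset.card_univ, Fintype.card_fin] at h

lemma coeff_US (hr : 0 < r) {q : ℕ} (hq : 2 ≤ q) (v : Fin r → Fin N → ℕ)
    (E : Finset (Fin r) → Polynomial ℤ) (e : Finset (Fin r) → ℂ)
    (hE : ∀ τ, evq q (E τ) = (1 - (q : ℂ)⁻¹) ^ r * e τ) (M : ℕ) :
    evq q (PowerSeries.coeff M (US v E)) =
      (1 - (q : ℂ)⁻¹) ^ (N + r) * Sm q v Finset.univ e M := by
  unfold US
  rw [map_sum, map_sum]
  have h1 : ∀ τ, evq q (PowerSeries.coeff M (PowerSeries.C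
      ((1 - Polynomial.X) ^ (N - frc v Finset.univ τ) * E τ) * cser v Finset.univ τ)) =
      ((1 - (q : ℂ)⁻¹) ^ (N - frc v Finset.univ τ) * ((1 - (q : ℂ)⁻¹) ^ r * e τ)) *
        evq q (cp 0 v 1 Finset.univ τ M M) := by
    intro τ
    rw [PowerSeries.coeff_C_mul, map_mul, map_mul, map_pow, map_sub, map_one, evq_X, hE]
    unfold cser
    rw [PowerSeries.coeff_mk]
  rw [Finset.sum_congr rfl fun τ _ => h1 τ, sum_cp_eval hr q hq v Finset.univ
    (fun τ => (1 - (q : ℂ)⁻¹) ^ (N - frc v Finset.univ τ) * ((1 - (q : ℂ)⁻¹) ^ r * e τ))]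
  unfold Sm
  rw [← tsum_mul_left]
  refine tsum_congr fun x => ?_
  rw [mul_comm ((1 - (q : ℂ)⁻¹) ^ (N + r)) (iv _ _), iv_mul]
  congr 1
  have h2 : (1 - (q : ℂ)⁻¹) ^ (N - frc v Finset.univ (filt v x)) *
      (1 - (q : ℂ)⁻¹) ^ frc v Finset.univ (filt v x) = (1 - (q : ℂ)⁻¹) ^ N := by
    rw [← pow_add, Nat.sub_add_cancel (frcN v _)]
  rw [pow_add]
  linear_combination ((q : ℂ)⁻¹ ^ (∑ i, x i) * ((1 - (q : ℂ)⁻¹) ^ r * e (filt v x))) * h2

lemma evq_GP (hKR : S_KR2) {q : ℕ} (hq : 2 ≤ q) (v : Fin r → Fin N → ℕ) (ω : Fin r → ℕ)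
    (τ : Finset (Fin r)) : evq q (GP v ω τ) = (1 - (q : ℂ)⁻¹) ^ r * eT v ω (gE q v) τ := by
  classical
  obtain ⟨h1, h2⟩ := hKR
  obtain ⟨-, -, -, h3⟩ := h2 q r N hq v
  unfold GP eT
  rw [map_sum, Finset.mul_sum]
  refine Finset.sum_congr rfl fun I hI => ?_
  split_ifs with hT
  · have h4 : mob (gE q v) I = gI q v I := h1 r (gI q v) I
    have h5 : I.card ≤ r := (Finset.card_le_univ I).trans (by rw [Fintype.card_fin])
    rw [h4, ← h3 I r h5]
    rfl
  · rw [map_zero, mul_zero]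

lemma evq_KP (hKR : S_KR2) {q : ℕ} (hq : 2 ≤ q) (v : Fin r → Fin N → ℕ) (ω : Fin r → ℕ)
    (τ : Finset (Fin r)) : evq q (KP v ω τ) = (1 - (q : ℂ)⁻¹) ^ r * eT v ω (kF q v) τ := by
  classical
  obtain ⟨h1, h2⟩ := hKR
  obtain ⟨-, -, -, h3⟩ := h2 q r N hq v
  obtain ⟨-, -, -, h3'⟩ := h2 q (r + 1) N hq (vp v)
  unfold KP eT
  rw [map_sum, Finset.mul_sum]
  refine Finset.sum_congr rfl fun I hI => ?_
  split_ifs with hT
  · have h4 : mob (kF q v) I = kI q v I := h1 r (kI q v) I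
    have h5 : I.card ≤ r := (Finset.card_le_univ I).trans (by rw [Fintype.card_fin])
    have h6 : (Ip I).card ≤ r + 1 := (Finset.card_le_univ (Ip I)).trans (by rw [Fintype.card_fin])
    have h7 : evq q (gN v I r) = (1 - (q : ℂ)⁻¹) ^ r * gI q v I := h3 I r h5
    have h8 : evq q (gN (vp v) (Ip I) (r + 1)) =
        (1 - (q : ℂ)⁻¹) ^ (r + 1) * gI q (vp v) (Ip I) := h3' (Ip I) (r + 1) h6
    rw [h4, map_sub, map_neg, h7, h8]
    unfold kI
    ring
  · rw [map_zero, mul_zero]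

/-- the values of the second universal series -/
lemma h_rec (hr : 0 < r) (q : ℕ) (hq : 2 ≤ q) (v : Fin r → Fin N → ℕ)
    (E : Finset (Fin r) → Polynomial ℤ) (e : Finset (Fin r) → ℂ)
    (hE : ∀ τ, evq q (E τ) = (1 - (q : ℂ)⁻¹) ^ r * e τ) (he : e ∅ = 0)
    (T0 : ℂ) (h : RecJ q v e Finset.univ T0) :
    ∃ Q A : Polynomial ℂ, Q.eval T0 ≠ 0 ∧
      (Q : PowerSeries ℂ) * PowerSeries.map (evq q) (US v E) = (A : PowerSeries ℂ) := by
  obtain ⟨Q, hQ, hrec⟩ := h
  obtain ⟨A, hA⟩ := rec_poly _ Q hrec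
  refine ⟨Q, Polynomial.C ((1 - (q : ℂ)⁻¹) ^ (N + r)) * A, hQ, ?_⟩
  have h1 : PowerSeries.map (evq q) (US v E) = PowerSeries.C ((1 - (q : ℂ)⁻¹) ^ (N + r)) *
      PowerSeries.mk (fun t : ℕ => aJ q v e Finset.univ t) := by
    ext M
    rw [PowerSeries.coeff_map, PowerSeries.coeff_C_mul, PowerSeries.coeff_mk,
      coeff_US hr hq v E e hE, aJ_eq hr q v Finset.univ _ he]
  rw [h1]
  push_cast
  rw [← hA]
  ring

/-- the values of the first universal series -/
lemma g_rec (hr : 0 < r) (q : ℕ) (hq : 2 ≤ q) (v : Fin r → Fin N → ℕ)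
    (E : Finset (Fin r) → Polynomial ℤ) (e : Finset (Fin r) → ℂ)
    (hE : ∀ τ, evq q (E τ) = (1 - (q : ℂ)⁻¹) ^ r * e τ) (he : e ∅ = 1)
    (T0 : ℂ) (h : RecJ q v e Finset.univ T0) :
    ∃ Q A : Polynomial ℂ, Q.eval T0 ≠ 0 ∧
      (Q : PowerSeries ℂ) * PowerSeries.map (evq q) ((PowerSeries.X - 1) * US v E +
        US v (fun _ => (1 - Polynomial.X) ^ r)) = (A : PowerSeries ℂ) := by
  obtain ⟨Q, hQ, hrec⟩ := h
  obtain ⟨A, hA⟩ := rec_poly _ Q hrec
  obtain ⟨B, hB0, hB⟩ := aJ_diff hr q hq v Finset.univ e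
  rw [he] at hB0 hB
  have h1E : ∀ τ : Finset (Fin r), evq q ((fun _ => (1 - Polynomial.X) ^ r) τ) =
      (1 - (q : ℂ)⁻¹) ^ r * (fun _ : Finset (Fin r) => (1 : ℂ)) τ := by
    intro τ
    simp only [map_pow, map_sub, map_one, evq_X, mul_one]
  have h1 : PowerSeries.map (evq q) ((PowerSeries.X - 1) * US v E +
        US v (fun _ => (1 - Polynomial.X) ^ r)) = PowerSeries.C ((1 - (q : ℂ)⁻¹) ^ (N + r)) *
        (PowerSeries.C B + (PowerSeries.X - 1) *
          PowerSeries.mk (fun t : ℕ => aJ q v e Finset.univ t)) := by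
    ext M
    rw [PowerSeries.coeff_map, PowerSeries.coeff_C_mul, sub_mul, sub_mul, one_mul,
      one_mul, map_add, map_add, map_sub, map_sub, map_add, map_sub]
    rcases M with _ | M
    · rw [PowerSeries.coeff_zero_X_mul, PowerSeries.coeff_zero_X_mul, coeff_US hr hq v E e hE,
        coeff_US hr hq v _ _ h1E, PowerSeries.coeff_zero_C, PowerSeries.coeff_mk, hB0, map_zero]
      ring
    · rw [PowerSeries.coeff_succ_X_mul, PowerSeries.coeff_succ_X_mul, coeff_US hr hq v E e hE,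
        coeff_US hr hq v E e hE, coeff_US hr hq v _ _ h1E, PowerSeries.coeff_C,
        if_neg (Nat.succ_ne_zero M), PowerSeries.coeff_mk, PowerSeries.coeff_mk, hB M]
      ring
  refine ⟨Q, Polynomial.C ((1 - (q : ℂ)⁻¹) ^ (N + r)) * (Polynomial.C B * Q +
    (Polynomial.X - 1) * A), hQ, ?_⟩
  rw [h1]
  push_cast
  rw [← hA]
  ring

/-- **The formal theorem.** -/
theorem formalX (hr : 0 < r) (v : Fin r → Fin N → ℕ) (Bad : ℚ → Prop)
    (Φ : Fin 2 → PowerSeries (Polynomial ℤ))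
    (hΦ : ∀ x, ∃ c : Fin 2 → Finset (Fin r) → Polynomial ℤ,
      Φ x = (PowerSeries.X - 1) * (∑ τ, PowerSeries.C (c 0 τ) * cser v Finset.univ τ) +
        ∑ τ, PowerSeries.C (c 1 τ) * cser v Finset.univ τ)
    (hB : ∀ x, ∀ q : ℕ, 2 ≤ q → ∀ T0 : ℂ, T0 ≠ 0 → ∀ σ : ℚ, Bad σ →
      Real.log ‖T0‖ / Real.log q = (σ : ℝ) → ∃ Q A : Polynomial ℂ, Q.eval T0 ≠ 0 ∧
        (Q : PowerSeries ℂ) * PowerSeries.map (evq q) (Φ x) = (A : PowerSeries ℂ)) :
    ∃ l : List (Fin N → ℕ), (∀ a ∈ l, IsRay v a ∧ 0 < gord v a ∧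
        ¬ Bad (((∑ i, a i : ℕ) : ℚ) / gord v a)) ∧
      ∀ x, IsPol (Φ x * (l.map (fac v)).prod) := by
  classical
  have hford : ∀ a : Fin N → ℕ, ford 0 v 1 a = gord v a := fun a => by
    unfold ford
    simp
  have h3 : S_RAT := Pool.Agent.W29.MTRat.main Pool.Agent.W346.MTCp2.main
    Pool.Agent.W230.MTZCF.main
  choose l P hl hP using fun τ : Finset (Fin r) => h3 (0 : Fin N → ℕ) v 1 Finset.univ τ hr one_pos
  simp only [hford] at hl hP
  set L := (Finset.univ : Finset (Finset (Fin r))).toList.flatMap l with hL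
  have hLm : ∀ a ∈ L, IsRay v a ∧ 0 < gord v a := by
    intro a ha
    rw [hL, List.mem_flatMap] at ha
    obtain ⟨τ, -, ha⟩ := ha
    exact hl τ a ha
  have hprod : (L.map (fac v)).prod = ∏ τ, ((l τ).map (fac v)).prod := by
    rw [hL, prod_flat, Finset.prod_map_toList]
  have hc : ∀ τ, IsPol (cser v Finset.univ τ * (L.map (fac v)).prod) := by
    intro τ
    rw [hprod, ← Finset.mul_prod_erase _ _ (Finset.mem_univ τ), ← mul_assoc]
    have h4 : IsPol (cser v Finset.univ τ * ((l τ).map (fac v)).prod) := ⟨P τ, hP τ⟩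
    refine h4.mul ?_
    have h5 : ∀ s : Finset (Finset (Fin r)), IsPol (∏ τ ∈ s, ((l τ).map (fac v)).prod) := by
      intro s
      induction s using Finset.induction_on with
      | empty => simpa using IsPol.one
      | insert a s ha ih =>
        rw [Finset.prod_insert ha]
        exact (IsPol.facs v _).mul ih
    exact h5 _
  have hsum : ∀ c : Finset (Fin r) → Polynomial ℤ,
      IsPol ((∑ τ, PowerSeries.C (c τ) * cser v Finset.univ τ) * (L.map (fac v)).prod) := by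
    intro c
    rw [Finset.sum_mul]
    refine IsPol.sum _ _ fun τ _ => ?_
    rw [mul_assoc]
    exact (IsPol.C _).mul (hc τ)
  have hG : ∀ x, IsPol (Φ x * (L.map (fac v)).prod) := by
    intro x
    obtain ⟨c, hcx⟩ := hΦ x
    rw [hcx, add_mul, mul_assoc]
    exact ((IsPol.X.sub IsPol.one).mul (hsum _)).add (hsum _)
  set p : (Fin N → ℕ) → Prop := fun a => Bad (((∑ i, a i : ℕ) : ℚ) / gord v a) with hp
  refine ⟨L.filter fun a => ¬ p a, fun a ha => ?_, fun x => ?_⟩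
  · rw [List.mem_filter] at ha
    obtain ⟨h4, h5⟩ := hLm a ha.1
    have h6 : ¬ p a := by simpa using ha.2
    exact ⟨h4, h5, h6⟩
  · obtain ⟨P', hP'⟩ := hG x
    rw [prod_split v p L] at hP'
    refine univ_good v _ _ _ P' hP' (fun a ha => (hLm a (List.mem_filter.1 ha).1).2) ?_
    intro q hq T0 a ha h0
    have ha1 := hLm a (List.mem_filter.1 ha).1
    have hpa : p a := by simpa using (List.mem_filter.1 ha).2
    refine hB x q hq T0 ?_ _ hpa ?_
    · rintro rfl
      unfold fq at h0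
      simp [ha1.2.ne'] at h0
    · have h1 : (q : ℂ)⁻¹ ^ (∑ i, a i) * T0 ^ gord v a = 1 := by
        unfold fq at h0
        rw [Polynomial.eval_sub, Polynomial.eval_one, Polynomial.eval_mul, Polynomial.eval_C,
          Polynomial.eval_pow, Polynomial.eval_X] at h0
        linear_combination -h0
      have h2 := congrArg norm h1
      rw [norm_mul, norm_pow, norm_pow, norm_inv, Complex.norm_natCast, norm_one] at h2
      have hq0 : (0 : ℝ) < q := by
        have : 0 < q := by omega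
        exact_mod_cast this
      have hT : ‖T0‖ ^ gord v a = (q : ℝ) ^ (∑ i, a i) := by
        rw [inv_pow] at h2
        field_simp at h2
        linarith
      have hlog := congrArg Real.log hT
      rw [Real.log_pow, Real.log_pow] at hlog
      have hg : ((gord v a : ℕ) : ℝ) ≠ 0 := by exact_mod_cast ha1.2.ne'
      have hlq : Real.log q ≠ 0 := (Real.log_pos (by exact_mod_cast (by omega : 1 < q))).ne'
      push_cast at hlog ⊢
      field_simp
      linarith

section ring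

variable {R : Type} [CommRing R] (u : Rˣ)

lemma map_US (v : Fin r → Fin N → ℕ) (E : Finset (Fin r) → Polynomial ℤ) :
    PowerSeries.map (evR u) (US v E) = ∑ τ, PowerSeries.C ((1 - ((u⁻¹ : Rˣ) : R)) ^
      (N - frc v Finset.univ τ) * evR u (E τ)) *
        PowerSeries.map (evR u) (cser v Finset.univ τ) := by
  unfold US
  rw [map_sum]
  refine Finset.sum_congr rfl fun τ _ => ?_
  rw [map_mul, PowerSeries.map_C, map_mul, map_pow, map_sub, map_one, evR_X]

/-- **The class formula.** `g τ` and `k τ` are the values of the two class functions. -/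
theorem FR_X (v : Fin r → Fin N → ℕ) (ω : Fin r → ℕ) (b0 b1 : Finset (Fin r) → R)
    (g k : Finset (Fin r) → R)
    (hg : ∀ τ, cser v Finset.univ τ ≠ 0 →
      (1 - ((u⁻¹ : Rˣ) : R)) ^ r * g τ = evR u (GP v ω τ))
    (hk : ∀ τ, cser v Finset.univ τ ≠ 0 →
      (1 - ((u⁻¹ : Rˣ) : R)) ^ r * k τ = evR u (KP v ω τ))
    (hb0 : ∀ τ, cser v Finset.univ τ ≠ 0 → b0 τ = ((u : R) - 1) ^ (N - frc v Finset.univ τ) *
      ((u⁻¹ : Rˣ) : R) * (1 - g τ - (u : R) * k τ))
    (hb1 : ∀ τ, cser v Finset.univ τ ≠ 0 → b1 τ = ((u : R) - 1) ^ (N - frc v Finset.univ τ) *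
      ((u⁻¹ : Rˣ) : R) * (1 + ((u : R) - 1) * g τ)) :
    PowerSeries.C ((1 - ((u⁻¹ : Rˣ) : R)) ^ r) * FR u v Finset.univ b0 b1 *
      (1 - PowerSeries.C ((u⁻¹ : Rˣ) : R) * PowerSeries.X) =
      PowerSeries.C ((u : R) ^ N * ((u⁻¹ : Rˣ) : R)) * (PowerSeries.map (evR u) (Ug v ω) -
        PowerSeries.C (u : R) * (1 - PowerSeries.C ((u⁻¹ : Rˣ) : R) * PowerSeries.X) *
          PowerSeries.map (evR u) (US v (KP v ω))) := by
  set Y : R := ((u⁻¹ : Rˣ) : R) with hY
  have huY : (u : R) * Y = 1 := Units.mul_inv u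
  have hgeo : geoR u (-1) 1 * (1 - PowerSeries.C Y * PowerSeries.X) = 1 := by
    have h1 := geoR_mul u (-1) 1 one_pos
    rw [zpow_neg_one] at h1
    have h2 : (1 : ℤ).toNat = 1 := rfl
    rw [h2, pow_one] at h1
    rw [mul_comm]
    exact h1
  have hUg : PowerSeries.map (evR u) (Ug v ω) = (PowerSeries.X - 1) *
      PowerSeries.map (evR u) (US v (GP v ω)) +
        PowerSeries.map (evR u) (US v (fun _ => (1 - Polynomial.X) ^ r)) := by
    unfold Ug
    rw [map_add (PowerSeries.map (evR u)), map_mul (PowerSeries.map (evR u)),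
      map_sub (PowerSeries.map (evR u)), map_one (PowerSeries.map (evR u)), PowerSeries.map_X]
  rw [hUg, map_US, map_US, map_US]
  rw [← hY]
  unfold FR
  rw [Finset.mul_sum, Finset.sum_mul]
  rw [Finset.mul_sum, Finset.mul_sum, ← Finset.sum_add_distrib, ← Finset.sum_sub_distrib,
    Finset.mul_sum]
  refine Finset.sum_congr rfl fun τ _ => ?_
  by_cases hτ : cser v Finset.univ τ = 0
  · rw [hτ, map_zero]
    ring
  set Cs := PowerSeries.map (evR u) (cser v Finset.univ τ) with hCs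
  set fr := frc v Finset.univ τ with hfr
  have h1 : (u : R) ^ fr * ((u : R) - 1) ^ (N - fr) = (u : R) ^ N * (1 - Y) ^ (N - fr) := by
    have h2 : ((u : R) - 1) = (u : R) * (1 - Y) := by
      linear_combination huY
    rw [h2, mul_pow, ← mul_assoc, ← pow_add, Nat.add_sub_cancel' (frcN v τ)]
  have hpow : evR u ((1 - Polynomial.X) ^ r : Polynomial ℤ) = (1 - Y) ^ r := by
    rw [map_pow, map_sub, map_one, evR_X]
  rw [hpow, ← hg τ hτ, ← hk τ hτ, hb0 τ hτ, hb1 τ hτ]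
  simp only [map_mul, map_sub, map_add, map_one, map_pow] at h1 hgeo ⊢
  have h1' := congrArg (PowerSeries.C (R := R)) h1
  simp only [map_mul, map_sub, map_one, map_pow] at h1'
  have huY' := congrArg (PowerSeries.C (R := R)) huY
  simp only [map_mul, map_one] at huY'
  generalize PowerSeries.C (R := R) (u : R) = U at *
  generalize PowerSeries.C (R := R) Y = y at *
  generalize PowerSeries.C (R := R) (g τ) = gg at *
  generalize PowerSeries.C (R := R) (k τ) = kk at *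
  generalize (PowerSeries.X : PowerSeries R) = T at *
  generalize geoR u (-1) 1 = G at *
  generalize (1 - y) ^ r = D at *
  generalize (U - 1) ^ (N - fr) = A at *
  generalize (1 - y) ^ (N - fr) = B at *
  generalize U ^ fr = F at *
  generalize U ^ N = E at *
  linear_combination (D * Cs * y * ((1 - gg - U * kk) * (1 - y * T) + (1 + (U - 1) * gg) * y * T)) * h1'
    + (D * F * A * y * Cs * y * T * (1 + (U - 1) * gg)) * hgeo + (D * E * B * Cs * y * T * gg) * huY'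

/-- membership -/
theorem FR_memX {S : Set (ℤ × ℤ)} (hS1 : ((-1 : ℤ), (1 : ℤ)) ∈ S) (v : Fin r → Fin N → ℕ)
    (ω : Fin r → ℕ) (l : List (Fin N → ℕ))
    (hl : ∀ a ∈ l, 0 < gord v a ∧ (-((∑ i, a i : ℕ) : ℤ), (gord v a : ℤ)) ∈ S)
    (hGg : IsPol (Ug v ω * (l.map (fac v)).prod))
    (hGk : IsPol (US v (KP v ω) * (l.map (fac v)).prod))
    (hu : IsUnit (1 - ((u⁻¹ : Rˣ) : R))) (b0 b1 : Finset (Fin r) → R)
    (g k : Finset (Fin r) → R)
    (hg : ∀ τ, cser v Finset.univ τ ≠ 0 →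
      (1 - ((u⁻¹ : Rˣ) : R)) ^ r * g τ = evR u (GP v ω τ))
    (hk : ∀ τ, cser v Finset.univ τ ≠ 0 →
      (1 - ((u⁻¹ : Rˣ) : R)) ^ r * k τ = evR u (KP v ω τ))
    (hb0 : ∀ τ, cser v Finset.univ τ ≠ 0 → b0 τ = ((u : R) - 1) ^ (N - frc v Finset.univ τ) *
      ((u⁻¹ : Rˣ) : R) * (1 - g τ - (u : R) * k τ))
    (hb1 : ∀ τ, cser v Finset.univ τ ≠ 0 → b1 τ = ((u : R) - 1) ^ (N - frc v Finset.univ τ) *
      ((u⁻¹ : Rˣ) : R) * (1 + ((u : R) - 1) * g τ)) :
    FR u v Finset.univ b0 b1 ∈ ratR u S := by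
  have h0 := FR_X u v ω b0 b1 g k hg hk hb0 hb1
  set Y : R := ((u⁻¹ : Rˣ) : R) with hY
  obtain ⟨D, hD⟩ := hu
  have hgeo : (1 - PowerSeries.C Y * PowerSeries.X) * geoR u (-1) 1 = 1 := by
    have h1 := geoR_mul u (-1) 1 one_pos
    rw [zpow_neg_one] at h1
    have h2 : (1 : ℤ).toNat = 1 := rfl
    rw [h2, pow_one] at h1
    exact h1
  have hDi : PowerSeries.C (((D⁻¹ : Rˣ) : R) ^ r) * PowerSeries.C ((1 - Y) ^ r) = 1 := by
    rw [← map_mul, ← hD, ← mul_pow, Units.inv_mul, one_pow, map_one]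
  have h1 : FR u v Finset.univ b0 b1 = PowerSeries.C (((D⁻¹ : Rˣ) : R) ^ r) *
      (PowerSeries.C ((u : R) ^ N * Y) * (PowerSeries.map (evR u) (Ug v ω) -
        PowerSeries.C (u : R) * (1 - PowerSeries.C Y * PowerSeries.X) *
          PowerSeries.map (evR u) (US v (KP v ω)))) * geoR u (-1) 1 := by
    rw [← h0]
    linear_combination (-(FR u v Finset.univ b0 b1)) * hDi -
      (PowerSeries.C (((D⁻¹ : Rˣ) : R) ^ r) * PowerSeries.C ((1 - Y) ^ r) *
        FR u v Finset.univ b0 b1) * hgeo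
  rw [h1]
  have hG1 := ratR_mem (S := S) u v l hl _ hGg
  have hG2 := ratR_mem (S := S) u v l hl _ hGk
  refine (ratR u S).mul_mem ((ratR u S).mul_mem (CR_mem u S _) ((ratR u S).mul_mem
    (CR_mem u S _) ((ratR u S).sub_mem hG1 ((ratR u S).mul_mem ((ratR u S).mul_mem
      (CR_mem u S _) ((ratR u S).sub_mem (ratR u S).one_mem ((ratR u S).mul_mem
        (CR_mem u S _) (XR_mem u S)))) hG2)))) (geoR_mem u (p := ((-1 : ℤ), (1 : ℤ))) hS1)

end ring

end Pool.Agent.Y228.HX
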