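import Pool.Agent.Y228.HX.U

set_option autoImplicit false
set_option maxHeartbeats 400000

/-! # Project HX: independence of the triangulation, the formal theorem -/

namespace Pool.Agent.Y228.HX

open Filter Pool.Agent.W425.SV
open Pool.Agent.TH216.MF
open Pool.Agent.W426.SM (gord ford IsRay)
open Pool.Agent.W803.SM (filt gord_le exists_gord)
open Pool.Agent.W428.MOT (amin free Adm)

variable {r N : ℕ}

/-- the numerator of the Ehrhart series -/
noncomputable def A0 (v : Fin r → Fin N → ℕ) (ω : Fin r → ℕ) (κ : Finset (Fin r)) :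
    Polynomial ℚ := ∑ I ∈ κ.powerset, open Classical in
  if TT v ω I then (1 - Polynomial.X) ^ (r - I.card) * P1 v I else 0

/-- the numerator of the Ehrhart series of the cone over `0` -/
noncomputable def A1 (v : Fin r → Fin N → ℕ) (ω : Fin r → ℕ) (κ : Finset (Fin r)) :
    Polynomial ℚ := ∑ I ∈ κ.powerset, open Classical in
  if TT v ω I then (1 - Polynomial.X) ^ (r + 1 - I.card) * P1 v I +
    (1 - Polynomial.X) ^ (r - I.card) * P1 (vp v) (Ip I) else 0

lemma coe_sumP {ι : Type} (s : Finset ι) (f : ι → Polynomial ℚ) :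
    ((∑ x ∈ s, f x : Polynomial ℚ) : PowerSeries ℚ) = ∑ x ∈ s, (f x : PowerSeries ℚ) := by
  have h5 := map_sum (Polynomial.coeToPowerSeries.ringHom (R := ℚ)) f s
  simpa only [Polynomial.coeToPowerSeries.ringHom_apply] using h5

lemma card_le_r (I : Finset (Fin r)) : I.card ≤ r :=
  (Finset.card_le_univ I).trans (by rw [Fintype.card_fin])

lemma one_sub_ne {q : ℕ} (hq : 2 ≤ q) : (1 - (q : ℂ)) ≠ 0 := by
  intro h
  have h1 : (q : ℂ) = 1 := by linear_combination -h
  have h2 : q = 1 := by exact_mod_cast h1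
  omega

lemma card_Ip (I : Finset (Fin r)) : (Ip I).card = I.card + 1 := by
  unfold Ip
  rw [Finset.card_insert_of_notMem, Finset.card_map]
  intro h
  obtain ⟨j, -, hj⟩ := Finset.mem_map.1 h
  exact absurd hj (Fin.succ_ne_zero j)

section

variable (hEHR : S_EHR) (hSER : S_SER) (hINDP : S_INDP) (hBOX : S_BOX) (hKR : S_KR2)
  (v : Fin r → Fin N → ℕ) (ω : Fin r → ℕ) (hG : Gen v ω) (wk : Fin N → ℚ) (mk : ℚ)
  (hpos : ∀ i, 0 < wk i) (hle : ∀ j, mk ≤ ∑ i, wk i * (v j i : ℚ)) (hmk : 0 < mk)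
  (κ : Finset (Fin r)) (hκ : ∀ j, j ∈ κ ↔ ∑ i, wk i * (v j i : ℚ) = mk)

include hEHR hSER hINDP hG hpos hle hmk hκ in
lemma A0_eq : (A0 v ω κ : PowerSeries ℚ) = (1 - PowerSeries.X) ^ r *
    PowerSeries.mk fun k => ((Dil v κ k).ncard : ℚ) := by
  classical
  have h1 : (PowerSeries.mk fun k => ((Dil v κ k).ncard : ℚ)) = ∑ I ∈ κ.powerset,
      (if TT v ω I then PowerSeries.mk (fun k => ((Rel v I k).ncard : ℚ)) else 0) := by
    ext k
    rw [PowerSeries.coeff_mk, map_sum, (hEHR r N v ω hG wk mk hpos hle hmk κ hκ k).1]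
    push_cast
    refine Finset.sum_congr rfl fun I _ => ?_
    split_ifs
    · rw [PowerSeries.coeff_mk]
    · simp
  rw [h1, Finset.mul_sum]
  unfold A0
  rw [coe_sumP]
  refine Finset.sum_congr rfl fun I _ => ?_
  split_ifs with hT
  · have h2 := (hSER r N v I ((hINDP r N v ω hG).1 I hT)).2
    have h3 := card_le_r I
    have e0 : (1 - PowerSeries.X : PowerSeries ℚ) ^ r =
      (1 - PowerSeries.X) ^ (r - I.card) * (1 - PowerSeries.X) ^ I.card := by
      rw [← pow_add]; congr 1; omega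
    rw [e0, mul_assoc, h2]
    push_cast
    ring
  · simp

include hEHR hSER hINDP hG hpos hle hmk hκ in
lemma A1_eq : (A1 v ω κ : PowerSeries ℚ) = (1 - PowerSeries.X) ^ (r + 1) *
    PowerSeries.mk fun k => ((Dil0 v κ k).ncard : ℚ) := by
  classical
  have h1 : (PowerSeries.mk fun k => ((Dil0 v κ k).ncard : ℚ)) = ∑ I ∈ κ.powerset,
      (if TT v ω I then PowerSeries.mk (fun k => ((Rel v I k).ncard : ℚ)) +
        PowerSeries.mk (fun k => ((Rel (vp v) (Ip I) k).ncard : ℚ)) else 0) := by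
    ext k
    rw [PowerSeries.coeff_mk, map_sum, (hEHR r N v ω hG wk mk hpos hle hmk κ hκ k).2]
    push_cast
    refine Finset.sum_congr rfl fun I _ => ?_
    split_ifs
    · rw [map_add, PowerSeries.coeff_mk, PowerSeries.coeff_mk]
      push_cast
      rfl
    · simp
  rw [h1, Finset.mul_sum]
  unfold A1
  rw [coe_sumP]
  refine Finset.sum_congr rfl fun I hI => ?_
  split_ifs with hT
  · have h2 := (hSER r N v I ((hINDP r N v ω hG).1 I hT)).2
    have h2' := (hSER (r + 1) N (vp v) (Ip I) ((hINDP r N v ω hG).2 wk mk hmk.ne' I hT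
      fun j hj => (hκ j).1 (Finset.mem_powerset.1 hI hj))).2
    rw [card_Ip] at h2'
    have h3 := card_le_r I
    obtain ⟨d, hd⟩ : ∃ d, r = d + I.card := ⟨r - I.card, by omega⟩
    have e1 : r + 1 - I.card = d + 1 := by omega
    have e2 : r - I.card = d := by omega
    rw [e1, e2, mul_add, Polynomial.coe_add, Polynomial.coe_mul, Polynomial.coe_mul, ← h2, ← h2']
    push_cast
    rw [show (1 - PowerSeries.X : PowerSeries ℚ) ^ (r + 1) =
      (1 - PowerSeries.X) ^ d * (1 - PowerSeries.X) ^ (I.card + 1) by rw [← pow_add]; congr 1; omega]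
    ring
  · simp

include hBOX hINDP hG in
lemma A0_val {q : ℕ} (hq : 2 ≤ q) : Polynomial.aeval (q : ℂ) (A0 v ω κ) = (1 - (q : ℂ)) ^ r *
    ∑ I ∈ κ.powerset, open Classical in if TT v ω I then gI q v I else 0 := by
  classical
  have hq1 : (1 - (q : ℂ)) ≠ 0 := one_sub_ne hq
  unfold A0
  rw [map_sum, Finset.mul_sum]
  refine Finset.sum_congr rfl fun I _ => ?_
  split_ifs with hT
  · have h2 := (hBOX r N v I ((hINDP r N v ω hG).1 I hT)).2.2 q hq
    rw [div_eq_iff (pow_ne_zero _ hq1)] at h2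
    have h3 := card_le_r I
    have e0 : (1 - (q : ℂ)) ^ r = (1 - (q : ℂ)) ^ (r - I.card) * (1 - (q : ℂ)) ^ I.card := by
      rw [← pow_add]; congr 1; omega
    rw [map_mul, map_pow, map_sub, map_one, Polynomial.aeval_X, h2, e0]
    ring
  · simp

include hBOX hINDP hG hmk hκ in
lemma A1_val {q : ℕ} (hq : 2 ≤ q) : Polynomial.aeval (q : ℂ) (A1 v ω κ) =
    (1 - (q : ℂ)) ^ (r + 1) * ∑ I ∈ κ.powerset, open Classical in
      if TT v ω I then gI q v I + gI q (vp v) (Ip I) else 0 := by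
  classical
  have hq1 : (1 - (q : ℂ)) ≠ 0 := one_sub_ne hq
  unfold A1
  rw [map_sum, Finset.mul_sum]
  refine Finset.sum_congr rfl fun I hI => ?_
  split_ifs with hT
  · have h2 := (hBOX r N v I ((hINDP r N v ω hG).1 I hT)).2.2 q hq
    have h2' := (hBOX (r + 1) N (vp v) (Ip I) ((hINDP r N v ω hG).2 wk mk hmk.ne' I hT
      fun j hj => (hκ j).1 (Finset.mem_powerset.1 hI hj))).2.2 q hq
    rw [div_eq_iff (pow_ne_zero _ hq1)] at h2 h2'
    rw [card_Ip] at h2'
    have h3 := card_le_r I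
    have e0 : (1 - (q : ℂ)) ^ (r + 1) =
        (1 - (q : ℂ)) ^ (r + 1 - I.card) * (1 - (q : ℂ)) ^ I.card := by
      rw [← pow_add]; congr 1; omega
    have e1 : (1 - (q : ℂ)) ^ (r + 1) =
        (1 - (q : ℂ)) ^ (r - I.card) * (1 - (q : ℂ)) ^ (I.card + 1) := by
      rw [← pow_add]; congr 1; omega
    rw [map_add, map_mul, map_mul, map_pow, map_pow, map_sub, map_one, Polynomial.aeval_X, h2,
      h2', mul_add]
    linear_combination (-gI q v I) * e0 + (-gI q (vp v) (Ip I)) * e1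
  · simp

include hEHR hSER hINDP hBOX hKR hG hpos hle hmk hκ in
/-- **The class functions do not depend on the triangulation.** -/
theorem indep (ω' : Fin r → ℕ) (hG' : Gen v ω') {q : ℕ} (hq : 2 ≤ q) :
    eT v ω (gE q v) κ = eT v ω' (gE q v) κ ∧ eT v ω (kF q v) κ = eT v ω' (kF q v) κ := by
  classical
  have hq1 : (1 - (q : ℂ)) ≠ 0 := one_sub_ne hq
  have hA0 : A0 v ω κ = A0 v ω' κ := by
    have h1 := A0_eq hEHR hSER hINDP v ω hG wk mk hpos hle hmk κ hκ
    have h2 := A0_eq hEHR hSER hINDP v ω' hG' wk mk hpos hle hmk κ hκ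
    exact_mod_cast h1.trans h2.symm
  have hA1 : A1 v ω κ = A1 v ω' κ := by
    have h1 := A1_eq hEHR hSER hINDP v ω hG wk mk hpos hle hmk κ hκ
    have h2 := A1_eq hEHR hSER hINDP v ω' hG' wk mk hpos hle hmk κ hκ
    exact_mod_cast h1.trans h2.symm
  have h0 : ∑ I ∈ κ.powerset, (if TT v ω I then gI q v I else 0) =
      ∑ I ∈ κ.powerset, (if TT v ω' I then gI q v I else 0) := by
    have h1 := A0_val hINDP hBOX v ω hG κ hq
    have h2 := A0_val hINDP hBOX v ω' hG' κ hq
    rw [hA0, h2] at h1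
    exact (mul_left_cancel₀ (pow_ne_zero _ hq1) h1).symm
  have h1 : ∑ I ∈ κ.powerset, (if TT v ω I then gI q v I + gI q (vp v) (Ip I) else 0) =
      ∑ I ∈ κ.powerset, (if TT v ω' I then gI q v I + gI q (vp v) (Ip I) else 0) := by
    have h1 := A1_val hINDP hBOX v ω hG wk mk hmk κ hκ hq
    have h2 := A1_val hINDP hBOX v ω' hG' wk mk hmk κ hκ hq
    rw [hA1, h2] at h1
    exact (mul_left_cancel₀ (pow_ne_zero _ hq1) h1).symm
  have hg : ∀ ω : Fin r → ℕ, eT v ω (gE q v) κ =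
      ∑ I ∈ κ.powerset, (if TT v ω I then gI q v I else 0) := by
    intro ω
    unfold eT
    refine Finset.sum_congr rfl fun I _ => ?_
    have h4 : mob (gE q v) I = gI q v I := hKR.1 r (gI q v) I
    rw [h4]
  have hk : ∀ ω : Fin r → ℕ, eT v ω (kF q v) κ = -(1 - (q : ℂ)⁻¹) *
      (∑ I ∈ κ.powerset, (if TT v ω I then gI q v I + gI q (vp v) (Ip I) else 0)) -
        (q : ℂ)⁻¹ * ∑ I ∈ κ.powerset, (if TT v ω I then gI q v I else 0) := by
    intro ω
    unfold eT
    rw [Finset.mul_sum, Finset.mul_sum, ← Finset.sum_sub_distrib]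
    refine Finset.sum_congr rfl fun I _ => ?_
    have h4 : mob (kF q v) I = kI q v I := hKR.1 r (kI q v) I
    rw [h4]
    unfold kI
    split_ifs
    · ring
    · ring
  exact ⟨by rw [hg, hg, h0], by rw [hk, hk, h0, h1]⟩

end

/-- congruence -/
lemma RecJ_congr (q : ℕ) (v : Fin r → Fin N → ℕ) (hr : 0 < r) (e e' : Finset (Fin r) → ℂ)
    (h0 : e ∅ = e' ∅) (h : ∀ x : Fin N → ℕ, (∀ i, 0 < x i) → e (filt v x) = e' (filt v x))
    (T0 : ℂ) (hR : RecJ q v e Finset.univ T0) : RecJ q v e' Finset.univ T0 := by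
  classical
  obtain ⟨Q, hQ, hrec⟩ := hR
  refine ⟨Q, hQ, ?_⟩
  filter_upwards [hrec, eventually_ge_atTop ((Q.natDegree : ℕ) : ℤ)] with t ht htQ
  rw [← ht]
  refine Finset.sum_congr rfl fun m hm => ?_
  rw [Finset.mem_range] at hm
  obtain ⟨n, hn⟩ := Int.eq_ofNat_of_zero_le (a := t - m) (by omega)
  rw [hn, aJ_nat hr, aJ_nat hr]
  congr 1
  refine tsum_congr fun x => ?_
  by_cases hx : ∀ i, x i ≠ 0 ↔ i ∈ (Finset.univ : Finset (Fin N))
  · rw [if_pos hx, if_pos hx, h0, h x fun i => Nat.pos_of_ne_zero ((hx i).2 (Finset.mem_univ i))]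
  · rw [if_neg hx, if_neg hx]

end Pool.Agent.Y228.HX
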