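import Pool.Agent.Y228.HX.V

set_option autoImplicit false
set_option maxHeartbeats 400000

/-! # Project HX: the formal theorem for the two class functions -/

namespace Pool.Agent.Y228.HX

open Filter Pool.Agent.W425.SV
open Pool.Agent.TH216.MF
open Pool.Agent.W426.SM (gord ford IsRay face)
open Pool.Agent.W803.SM (filt gord_le exists_gord)
open Pool.Agent.W428.MOT (amin free Adm)

variable {r N : ℕ}

/-- the data of a compact face -/
lemma face_data (hr : 0 < r) (v : Fin r → Fin N → ℕ) (hv0 : ∀ j, v j ≠ 0) (x : Fin N → ℕ)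
    (hx : ∀ i, 0 < x i) :
    (∀ i, 0 < (x i : ℚ)) ∧ (∀ j, ((gord v x : ℕ) : ℚ) ≤ ∑ i, (x i : ℚ) * (v j i : ℚ)) ∧
      0 < ((gord v x : ℕ) : ℚ) ∧
      ∀ j, j ∈ filt v x ↔ ∑ i, (x i : ℚ) * (v j i : ℚ) = ((gord v x : ℕ) : ℚ) := by
  classical
  have hne : Nonempty (Fin r) := ⟨⟨0, hr⟩⟩
  refine ⟨fun i => by exact_mod_cast hx i, fun j => ?_, ?_, fun j => ?_⟩
  · have h1 := gord_le v x j
    exact_mod_cast h1
  · obtain ⟨j, hj⟩ := exists_gord hr v x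
    obtain ⟨i, hi⟩ : ∃ i, v j i ≠ 0 := by
      by_contra hcon
      push Not at hcon
      exact hv0 j (funext hcon)
    have h2 : 0 < ∑ i, x i * v j i := by
      refine Finset.sum_pos' (fun _ _ => Nat.zero_le _) ⟨i, Finset.mem_univ _, ?_⟩
      exact Nat.mul_pos (hx i) (Nat.pos_of_ne_zero hi)
    have h3 : 0 < gord v x := by omega
    exact_mod_cast h3
  · unfold filt
    rw [Finset.mem_filter]
    constructor
    · rintro ⟨-, h1⟩
      exact_mod_cast h1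
    · intro h1
      exact ⟨Finset.mem_univ _, by exact_mod_cast h1⟩

/-- **The formal theorem.** -/
theorem formalHX (hANN : S_ANN) (hZI : S_ZI) (hZPT : S_ZPT) (hFAR : S_FAR) (hEHR : S_EHR)
    (hSER : S_SER) (hINDP : S_INDP) (hBOX : S_BOX) (hKR : S_KR2) (hr : 0 < r)
    (v : Fin r → Fin N → ℕ) (hv0 : ∀ j, v j ≠ 0) (Bad : ℚ → Prop)
    (hP : ∀ σ, Bad σ → ∃ (ω : Fin r → ℕ) (p : Polynomial ℂ), Gen v ω ∧
      RelG v (Kil1 v) (KilU v fun j => -(ω j : ℤ)) p ∧ p.eval (((-σ : ℚ) : ℂ)) ≠ 0)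
    (ω0 : Fin r → ℕ) (hG0 : Gen v ω0) :
    ∃ l : List (Fin N → ℕ), (∀ a ∈ l, IsRay v a ∧ 0 < gord v a ∧
        ¬ Bad (((∑ i, a i : ℕ) : ℚ) / gord v a)) ∧
      IsPol (Ug v ω0 * (l.map (fac v)).prod) ∧
      IsPol (US v (KP v ω0) * (l.map (fac v)).prod) := by
  classical
  set Φ : Fin 2 → PowerSeries (Polynomial ℤ) := ![Ug v ω0, US v (KP v ω0)] with hΦ
  have hrec : ∀ q : ℕ, 2 ≤ q → ∀ T0 : ℂ, T0 ≠ 0 → ∀ σ : ℚ, Bad σ →
      Real.log ‖T0‖ / Real.log q = (σ : ℝ) →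
      RecJ q v (eT v ω0 (gE q v)) Finset.univ T0 ∧ RecJ q v (eT v ω0 (kF q v)) Finset.univ T0 := by
    intro q hq T0 hT0 σ hσ hlog
    obtain ⟨ω, p, hG, hrel, hp⟩ := hP σ hσ
    obtain ⟨-, -, h3, -⟩ := hKR.2 q r N hq v
    have h1 : ((-Real.log ‖T0‖ / Real.log q : ℝ) : ℂ) = ((-σ : ℚ) : ℂ) := by
      rw [neg_div, hlog]
      push_cast
      rfl
    have hp' : p.eval ((-Real.log ‖T0‖ / Real.log q : ℝ) : ℂ) ≠ 0 := by rw [h1]; exact hp
    have hg := main_T hANN hZI hZPT hFAR q hq v hv0 ω hG p hrel (gE q v)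
      (fun i _ j0 τ hj0 hτ => (h3 i j0 τ hj0 hτ).1) T0 hT0 hp'
    have hk := main_T hANN hZI hZPT hFAR q hq v hv0 ω hG p hrel (kF q v)
      (fun i _ j0 τ hj0 hτ => (h3 i j0 τ hj0 hτ).2) T0 hT0 hp'
    have h0 : ∀ (ω : Fin r → ℕ) (e : Finset (Fin r) → ℂ), eT v ω e ∅ = e ∅ := by
      intro ω e
      unfold eT mob
      rw [Finset.powerset_empty, Finset.sum_singleton, if_pos]
      · simp
      · intro ρ
        have hw : ∃ w : ℚ, ρ ≤ w ∧ 0 ≤ w := ⟨max ρ 0, le_max_left _ _, le_max_right _ _⟩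
        obtain ⟨w, hw1, hw2⟩ := hw
        refine ⟨fun _ => w, 0, fun _ => hw1, fun j => by positivity, fun j hj => ?_⟩
        exact absurd hj (Finset.notMem_empty j)
    have hf : ∀ x : Fin N → ℕ, (∀ i, 0 < x i) →
        eT v ω (gE q v) (filt v x) = eT v ω0 (gE q v) (filt v x) ∧
        eT v ω (kF q v) (filt v x) = eT v ω0 (kF q v) (filt v x) := by
      intro x hx
      obtain ⟨a1, a2, a3, a4⟩ := face_data hr v hv0 x hx
      exact indep hEHR hSER hINDP hBOX hKR v ω hG _ _ a1 a2 a3 _ a4 ω0 hG0 hq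
    exact ⟨RecJ_congr q v hr _ _ (by rw [h0, h0]) (fun x hx => (hf x hx).1) T0 hg,
      RecJ_congr q v hr _ _ (by rw [h0, h0]) (fun x hx => (hf x hx).2) T0 hk⟩
  have h0 : ∀ (ω : Fin r → ℕ) (e : Finset (Fin r) → ℂ), eT v ω e ∅ = e ∅ := by
    intro ω e
    unfold eT mob
    rw [Finset.powerset_empty, Finset.sum_singleton, if_pos]
    · simp
    · intro ρ
      have hw : ∃ w : ℚ, ρ ≤ w ∧ 0 ≤ w := ⟨max ρ 0, le_max_left _ _, le_max_right _ _⟩
      obtain ⟨w, hw1, hw2⟩ := hw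
      refine ⟨fun _ => w, 0, fun _ => hw1, fun j => by positivity, fun j hj => ?_⟩
      exact absurd hj (Finset.notMem_empty j)
  obtain ⟨l, hl, hlx⟩ := formalX hr v Bad Φ (by
    intro x
    fin_cases x
    · refine ⟨![fun τ => (1 - Polynomial.X) ^ (N - frc v Finset.univ τ) * GP v ω0 τ,
        fun τ => (1 - Polynomial.X) ^ (N - frc v Finset.univ τ) * (1 - Polynomial.X) ^ r], ?_⟩
      rfl
    · refine ⟨![fun τ => 0, fun τ => (1 - Polynomial.X) ^ (N - frc v Finset.univ τ) *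
        KP v ω0 τ], ?_⟩
      show US v (KP v ω0) = _
      unfold US
      simp) (by
    intro x q hq T0 hT0 σ hσ hlog
    obtain ⟨hg, hk⟩ := hrec q hq T0 hT0 σ hσ hlog
    obtain ⟨h1, h2, -, -⟩ := hKR.2 q r N hq v
    fin_cases x
    · exact g_rec hr q hq v (GP v ω0) (eT v ω0 (gE q v)) (evq_GP hKR hq v ω0)
        (by rw [h0]; exact h1) T0 hg
    · exact h_rec hr q hq v (KP v ω0) (eT v ω0 (kF q v)) (evq_KP hKR hq v ω0)
        (by rw [h0]; exact h2) T0 hk)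
  exact ⟨l, hl, hlx 0, hlx 1⟩

end Pool.Agent.Y228.HX
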