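import Pool.Agent.Y228.HX.V2
import Pool.Agent.Y229.CF.MotX
import Pool.Agent.Y229.CF.OfLoc
import Pool.Agent.W422.GC.Vol2

set_option autoImplicit false
set_option maxHeartbeats 400000

/-! # Project HX: the rays and the roots of the local Bernstein-Sato polynomial -/

namespace Pool.Agent.Y228.HX

open Filter MvPolynomial Pool.Agent.W425.SV
open Pool.Agent.TH216.MF
open Pool.Agent.W426.SM (gord ford IsRay face)
open Pool.Agent.W425.ND (spa prodb prodb_eval)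
open Pool.Agent.W425.SG (UnitEq)
open Pool.Agent.Y229.CF (NondegC relV_all dL dL_ne of_local')
open Pool.Agent.TH216.ND (PW)
open Pool.Agent.TH216.MC (pos_of_ray)

variable {r N : ℕ}

/-- **The rays which are needed give roots of the local Bernstein-Sato polynomial.** -/
theorem uni (hANN : S_ANN) (hZI : S_ZI) (hZPT : S_ZPT) (hFAR : S_FAR) (hEHR : S_EHR)
    (hSER : S_SER) (hINDP : S_INDP) (hBOX : S_BOX) (hKR : S_KR2) (hGR : S_GENREL) (hr : 0 < r)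
    (v : Fin r → Fin N → ℕ) (hv : Function.Injective v) (hv0 : ∀ j, v j ≠ 0) (a : Fin r → ℂ)
    (hnd : NondegC v a) :
    ∃ (S : Finset (ℤ × ℤ)) (ω0 : Fin r → ℕ) (l : List (Fin N → ℕ)), Gen v ω0 ∧
      ((-1 : ℤ), (1 : ℤ)) ∈ S ∧
      (∀ p ∈ S, p.1 < 0 ∧ 0 < p.2 ∧ ∀ b : Polynomial ℂ,
        Pool.Agent.H628R4.TP.IsLocalBFunction (spa v a) b →
          ∃ i : ℤ, b.eval ((p.1 : ℂ) / p.2 - i) = 0) ∧
      (∀ a ∈ l, 0 < gord v a ∧ (-((∑ i, a i : ℕ) : ℤ), (gord v a : ℤ)) ∈ S) ∧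
      IsPol (Ug v ω0 * (l.map (fac v)).prod) ∧
      IsPol (US v (KP v ω0) * (l.map (fac v)).prod) := by
  classical
  have hne : NeZero r := ⟨by omega⟩
  obtain ⟨θ0, hθ0⟩ := Pool.Agent.W422.GC.exists_heights r
  obtain ⟨ω0, hG0, -⟩ := hGR r N v θ0 True 0 hθ0 ⟨0, 0, 0, fun k => k.elim0, fun k => k.elim0,
    fun k => k.elim0, fun k => k.elim0, fun k => k.elim0, fun k => k.elim0, fun k => k.elim0,
    by simp⟩
  set P : ℚ → Prop := PW True (spa v a) with hPdef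
  have hP : ∀ σ : ℚ, ¬ P (-σ) → ∃ (ω : Fin r → ℕ) (p : Polynomial ℂ), Gen v ω ∧
      RelG v (Kil1 v) (KilU v fun j => -(ω j : ℤ)) p ∧ p.eval (((-σ : ℚ) : ℂ)) ≠ 0 := by
    intro σ hα
    rw [hPdef] at hα
    unfold PW at hα
    push Not at hα
    obtain ⟨b, hb1, hb, hroot⟩ := hα
    obtain ⟨K, L, hK⟩ := relV_all v a hv hv0 hnd b hb
    obtain ⟨ω, hG, hrel⟩ := hGR r N v θ0 True (prodb b K * dL L) hθ0 (hK θ0 hθ0)
    refine ⟨ω, prodb b K * dL L, hG, hrel, ?_⟩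
    rw [Polynomial.eval_mul, prodb_eval]
    refine mul_ne_zero (Finset.prod_ne_zero_iff.2 fun i _ => ?_) (dL_ne _ _ fun t ht => ?_)
    · exact_mod_cast hroot (i : ℤ)
    · apply hroot ((t : ℤ) + 1)
      rw [← hb1]
      congr 1
      have h1 : (((-σ : ℚ)) : ℂ) = t := ht
      rw [h1]
      push_cast
      ring
  obtain ⟨l, hl, hUg, hUk⟩ := formalHX hANN hZI hZPT hFAR hEHR hSER hINDP hBOX hKR hr v hv0
    (fun σ => ¬ P (-σ)) hP ω0 hG0
  refine ⟨insert (-1, 1) (l.toFinset.image fun a => (-((∑ i, a i : ℕ) : ℤ), (gord v a : ℤ))),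
    ω0, l, hG0, Finset.mem_insert_self _ _, fun p hp => ?_, fun b hb => ?_, hUg, hUk⟩
  · rcases Finset.mem_insert.1 hp with rfl | hp
    · refine ⟨by norm_num, by norm_num, fun b hb => ⟨0, ?_⟩⟩
      have h1 : (((-1 : ℤ) : ℂ) / ((1 : ℤ) : ℂ) - ((0 : ℤ) : ℂ)) = -1 := by
        push_cast
        ring
      rw [h1]
      exact (of_local' v (by omega) a hv hv0 hnd b hb).1
    obtain ⟨x, hx, rfl⟩ := Finset.mem_image.1 hp
    obtain ⟨hray, hg, hn⟩ := hl x (List.mem_toFinset.1 hx)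
    refine ⟨pos_of_ray hray, Int.natCast_pos.2 hg, fun b hb => ?_⟩
    have h1 : P (-(((∑ i, x i : ℕ) : ℚ) / gord v x)) := not_not.1 hn
    obtain ⟨h2, h3⟩ := of_local' v (by omega) a hv hv0 hnd b hb
    obtain ⟨i, hi⟩ := h1 b h2 h3
    refine ⟨i, ?_⟩
    have e : ((-((∑ i, x i : ℕ) : ℤ) : ℤ) : ℂ) / ((gord v x : ℤ) : ℂ) =
        ((-(((∑ i, x i : ℕ) : ℚ) / gord v x) : ℚ) : ℂ) := by
      push_cast
      ring
    rw [e]
    exact hi
  · exact ⟨(hl b hb).2.1, Finset.mem_insert_of_mem (Finset.mem_image.2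
      ⟨b, List.mem_toFinset.2 hb, rfl⟩)⟩

end Pool.Agent.Y228.HX
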