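import Pool.Agent.Y229.CF.NonG
import Pool.Agent.TH216.LX.Lx4
import Pool.Agent.TH216.MF.MotK

set_option autoImplicit false
set_option maxHeartbeats 400000

/-! # Project HX: the local motivic zeta function at the origin as a sum over the compact faces
(adapted from `Y229.CF.MotF`) -/

namespace Pool.Agent.Y228.HX

open MvPolynomial
open Pool.Agent.W428.MOT Pool.Agent.W749.MT
open Pool.Agent.W375.MG (Good GB0 GB1 constr_W constr_GB1 zetaG JetG good_one)
open Pool.Agent.TH216.MC (ZS XS constr_ZS constr_XS ZS_norm chi_GB0 chi_GB1)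
open Pool.Agent.W426.SM (gord ford IsRay face)
open Pool.Agent.W63.MTFin (mapMeas geo_sum L_mul)
open Pool.Agent.TH216.MF (frc frc_le cser FR evR geoR_mul)
open Pool.Agent.Y229.CF.Mot (NonGJ sum')

variable {K : Type} [Field K] {n r : ℕ}

/-- the class in `𝓜_K` -/
noncomputable def clM {ι : Type} [Fintype ι] (S : Set (Pt K ι)) : MK K :=
  algebraMap (K0 K) (MK K) (cls ι S)

/-- removing the normalisation of the free coordinates -/
lemma X_full {R : Type} [CommRing R] (h1 : S_Free) (M : Meas K R) (m : Fin r → Fin n → ℕ)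
    (c : Fin r → K) (d : Pt K (Option (Fin n)) → AlgebraicClosure K) (hd : IsPF d)
    (hd' : ∀ z w : Pt K (Option (Fin n)), w none = z none → d w = d z) (a : AlgebraicClosure K)
    (ha : ∀ z : Pt K (Option (Fin n)), z none = 1 → d z = a) (hPa : IsPF fun _ : Pt K (Fin n) => a)
    (τ : Finset (Fin r)) :
    M.χ _ (ZS {fun i => algebraMap K (AlgebraicClosure K) ((0 : Fin n → K) i)} Finset.univ
        (free 0 m Finset.univ τ) (XS m c {fun i => algebraMap K (AlgebraicClosure K)
          ((0 : Fin n → K) i)} {1} Finset.univ d τ)) * (M.L - 1) ^ frc m Finset.univ τ =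
      M.χ (Fin n) {z | (∀ i, z i ≠ 0) ∧ gbar m (cb c) τ z = a} := by
  classical
  set W : Set (Pt K (Fin n)) := {fun i => algebraMap K (AlgebraicClosure K) ((0 : Fin n → K) i)}
    with hW
  have hWc : Constr W := Pool.Agent.W425.MM.constr_pt (0 : Fin n → K)
  have hH : Constr (XS m c W {1} Finset.univ d τ) := constr_XS m c good_one Finset.univ hd τ
  have key := ZS_norm h1 M hWc Finset.univ ∅ (free 0 m Finset.univ τ) (Finset.empty_subset _)
    (Finset.subset_univ _) hH (fun z w hn hk hz => by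
      refine ⟨?_, ?_⟩
      · rw [hd' z w hn]
        refine Eq.trans ?_ hz.1
        refine Pool.Agent.TH216.MC.gbar_update m (cb c) τ _ _ fun k hk' => hk k fun hf => ?_
        obtain ⟨j, hj, hjk⟩ := hk'
        unfold free at hf
        exact hjk ((Finset.mem_filter.1 hf).2.2 j hj)
      · rw [hn]
        exact hz.2)
  rw [Finset.card_empty, Nat.sub_zero] at key
  unfold frc
  rw [← key]
  refine M.iso _ _ (constr_ZS hWc Finset.univ ∅ hH) (Constr.and
    (Constr.all fun i => Constr.ne (IsPF.coord _) IsPF.zero) (Constr.eq (IsPF_gbar m c τ id) hPa))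
    (fun z i => z (some i)) (fun z o => o.elim 1 z)
    (regularOn_poly (fun i => IsPF.coord _) _) (regularOn_poly (fun o => ?_) _) ?_ ?_ ?_ ?_
  · rcases o with _ | i
    · exact IsPF.one
    · exact IsPF.coord i
  · rintro z ⟨-, h2, -, h3, h4⟩
    exact ⟨h2, h3.trans (ha z h4)⟩
  · rintro z ⟨h2, h3⟩
    refine ⟨?_, h2, fun i hi => absurd hi (Finset.notMem_empty i), ?_, ?_⟩
    · rw [hW, Set.mem_singleton_iff]
      funext i
      simp
    · exact h3.trans (ha _ rfl).symm
    · exact Set.mem_singleton _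
  · rintro z ⟨-, -, -, -, h4⟩
    funext o
    rcases o with _ | i
    · exact (Set.mem_singleton_iff.1 h4).symm
    · rfl
  · rintro z -
    rfl

/-- **The zeta function at the origin.** -/
theorem zeta_FR [CharZero K] (m : Fin r → Fin n → ℕ) (hr0 : 0 < r) (c : Fin r → K)
    (hNon : NonGJ Finset.univ m c) :
    ∃ (b0 b1 : Finset (Fin r) → MK K) (z0 : MK K),
      zeta (sp 0 m c 1) 0 = FR (Lu K) m Finset.univ b0 b1 + PowerSeries.C z0 ∧
      (∀ τ, b0 τ * (((Lu K : (MK K)ˣ) : MK K) - 1) ^ frc m Finset.univ τ =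
        clM {z : Pt K (Fin n) | (∀ i, z i ≠ 0) ∧ gbar m (cb c) τ z = 1}) ∧
      (∀ τ, b1 τ * (((Lu K : (MK K)ˣ) : MK K) - 1) ^ frc m Finset.univ τ =
        clM {z : Pt K (Fin n) | (∀ i, z i ≠ 0) ∧ gbar m (cb c) τ z = 0}) := by
  classical
  have h1 : S_K0 := Pool.Agent.W417.MT.K0.main
  have h5 : S_CP1 := Pool.Agent.W346.MTCp1.main
  have hFree : S_Free := Pool.Agent.W417.MT.Free.main
  have hSub : S_Sub := Pool.Agent.W21.MTSub.main
  have hTay : S_Tay := Pool.Agent.W417.MT.Tay.main
  set W : Set (Pt K (Fin n)) := {fun i => algebraMap K (AlgebraicClosure K) ((0 : Fin n → K) i)}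
    with hWdef
  set E : Set (AlgebraicClosure K) := {1} with hEdef
  have hW : Constr W := Pool.Agent.W425.MM.constr_pt (0 : Fin n → K)
  have hE : Good E := good_one
  have hWD : ∀ z ∈ W, ∀ i ∈ (Finset.univ : Finset (Fin n)), z i = 0 := by
    intro z hz i _
    rw [Set.mem_singleton_iff.1 hz]
    simp
  obtain ⟨M₀, hM₀⟩ := h1 K
  set M := mapMeas M₀ (algebraMap (K0 K) (MK K)) with hM
  set Y : MK K := (((Lu K)⁻¹ : (MK K)ˣ) : MK K) with hY
  have hL : M.L * Y = 1 := L_mul hM₀
  have hML : M.L = ((Lu K : (MK K)ˣ) : MK K) := by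
    have h2 : ((Lu K : (MK K)ˣ) : MK K) * Y = 1 := Units.mul_inv _
    calc M.L = M.L * (((Lu K : (MK K)ˣ) : MK K) * Y) := by rw [h2, mul_one]
      _ = (M.L * Y) * ((Lu K : (MK K)ˣ) : MK K) := by ring
      _ = _ := by rw [hL, one_mul]
  have hχ : ∀ (ι : Type) [Fintype ι] (S : Set (Pt K ι)), M.χ ι S = clM S := by
    intro ι _ S
    change algebraMap (K0 K) (MK K) (M₀.χ ι S) = _
    rw [hM₀]
    rfl
  have hsum := sum' hFree hSub hTay M 0 m c 1 hW hE Finset.univ hNon hWD one_pos Y hL
  -- the series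
  set C : Finset (Fin n) → Finset (Fin r) → PowerSeries (MK K) := fun J τ =>
    PowerSeries.map (evR (Lu K)) (cser m J τ) with hCdef
  have hCc : ∀ J τ N, PowerSeries.coeff N (C J τ) =
      Polynomial.eval₂ (Int.castRingHom (MK K)) Y (cp 0 m 1 J τ N N) := fun J τ N => by
    simp only [hCdef, cser]
    rw [PowerSeries.coeff_map, PowerSeries.coeff_mk]
    rfl
  set D : Finset (Fin n) → Finset (Fin r) → PowerSeries (MK K) := fun J τ =>
    PowerSeries.mk fun N => ∑ l ∈ Finset.Icc 1 N,
      if 1 * l ≤ N then Y ^ l * PowerSeries.coeff (N - 1 * l) (C J τ) else 0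
    with hDdef
  have hD : ∀ J τ, D J τ = PowerSeries.C Y * PowerSeries.X * C J τ * geoR (Lu K) (-1) 1 := by
    intro J τ
    have h6 := geo_sum Y (fun N => PowerSeries.coeff N (C J τ)) 1 one_pos
    have h7 := geoR_mul (Lu K) (-1) 1 one_pos
    rw [show (1 : ℤ).toNat = 1 from rfl, zpow_neg_one] at h7
    have h9 : PowerSeries.mk (fun N => PowerSeries.coeff N (C J τ)) = C J τ := by
      ext N
      rw [PowerSeries.coeff_mk]
    rw [h9] at h6
    have h10 : D J τ * ((1 - PowerSeries.C Y * PowerSeries.X ^ 1) * geoR (Lu K) (-1) 1) =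
        PowerSeries.C Y * PowerSeries.X ^ 1 * C J τ * geoR (Lu K) (-1) 1 := by
      rw [← h6, mul_assoc]
    rw [h7, mul_one, pow_one] at h10
    exact h10
  set b0 : Finset (Fin n) → Finset (Fin r) → MK K := fun J τ => M.χ _ (GB0 0 m c 1 W E J τ)
    with hb0
  set b1 : Finset (Fin n) → Finset (Fin r) → MK K := fun J τ => M.χ _ (GB1 0 m c 1 W E J τ)
    with hb1
  -- only the origin
  have hb0z : ∀ J : Finset (Fin n), J ≠ Finset.univ → ∀ τ, b0 J τ = 0 := by
    intro J hJ τ
    have h6 : GB0 0 m c 1 W E J τ = ∅ := by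
      ext z
      simp only [GB0, Set.mem_ofPred_eq, Set.mem_empty_iff_false, iff_false]
      rintro ⟨h7, h8, -⟩
      obtain ⟨i, hi⟩ : ∃ i, i ∉ J := by
        by_contra hcon
        push Not at hcon
        exact hJ (Finset.eq_univ_iff_forall.2 hcon)
      have h9 := hWD _ h7 i (Finset.mem_univ i)
      simp only [if_neg hi] at h9
      exact h8 i h9
    simp only [hb0]
    rw [h6, χ_empty]
  have hb1z : ∀ J : Finset (Fin n), J ≠ Finset.univ → ∀ τ, b1 J τ = 0 := by
    intro J hJ τ
    have h6 : GB1 0 m c 1 W E J τ = ∅ := by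
      ext z
      simp only [GB1, Set.mem_ofPred_eq, Set.mem_empty_iff_false, iff_false]
      rintro ⟨h7, h8, -⟩
      obtain ⟨i, hi⟩ : ∃ i, i ∉ J := by
        by_contra hcon
        push Not at hcon
        exact hJ (Finset.eq_univ_iff_forall.2 hcon)
      have h9 := hWD _ h7 i (Finset.mem_univ i)
      simp only [if_neg hi] at h9
      exact h8 i h9
    simp only [hb1]
    rw [h6, χ_empty]
  set F : PowerSeries (MK K) := ∑ J : Finset (Fin n), FR (Lu K) m J (b0 J) (b1 J) with hF
  have hFu : F = FR (Lu K) m Finset.univ (b0 Finset.univ) (b1 Finset.univ) := by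
    rw [hF]
    refine Finset.sum_eq_single _ (fun J _ hJ => ?_) fun h => absurd (Finset.mem_univ _) h
    unfold FR
    refine Finset.sum_eq_zero fun τ _ => ?_
    rw [hb0z J hJ, hb1z J hJ]
    simp
  have hz : zetaG (sp 0 m c 1) W E =
      F - PowerSeries.C (PowerSeries.coeff 0 F) + PowerSeries.C (PowerSeries.coeff 0
        (zetaG (sp 0 m c 1) W E)) := by
    ext N
    by_cases hN : N = 0
    · subst hN
      rw [map_add, map_sub, PowerSeries.coeff_C, if_pos rfl, PowerSeries.coeff_C, if_pos rfl,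
        sub_self, zero_add]
    · rw [map_add, map_sub, PowerSeries.coeff_C, if_neg hN, PowerSeries.coeff_C, if_neg hN,
        sub_zero, add_zero, zetaG, PowerSeries.coeff_mk]
      have h6 := hsum N (by omega)
      have h7 : algebraMap (K0 K) (MK K) (cls (Fin n × Fin (N + 1))
          (JetG (sp 0 m c 1) W E N)) *
          (((Lu K) ^ (-((n * N : ℕ) : ℤ)) : (MK K)ˣ) : MK K) =
          M.χ _ (JetG (sp 0 m c 1) W E N) * Y ^ (n * N) := by
        rw [zpow_neg, zpow_natCast, ← inv_pow, Units.val_pow_eq_pow_val, ← hM₀]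
        rfl
      rw [h7, h6, hF, map_sum]
      refine Finset.sum_congr rfl fun J _ => ?_
      unfold FR
      rw [map_sum]
      refine Finset.sum_congr rfl fun τ _ => ?_
      change _ = PowerSeries.coeff N (PowerSeries.C (((Lu K : (MK K)ˣ) : MK K) ^ frc m J τ) *
        (PowerSeries.C (b0 J τ) * C J τ + PowerSeries.C (b1 J τ) *
          (PowerSeries.C Y * PowerSeries.X * C J τ * geoR (Lu K) (-1) 1)))
      rw [← hD, ← hML, PowerSeries.coeff_C_mul, map_add, PowerSeries.coeff_C_mul,
        PowerSeries.coeff_C_mul, hCc, hDdef, PowerSeries.coeff_mk, Finset.mul_sum]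
      congr 2
      refine Finset.sum_congr rfl fun i _ => ?_
      split_ifs with hi
      · rw [hCc, h5 0 m 1 J τ hr0 one_pos N (N - 1 * i) (Nat.sub_le _ _), mul_assoc]
      · rw [mul_zero]
  have hz2 : zeta (sp 0 m c 1) 0 = zetaG (sp 0 m c 1) W E -
      PowerSeries.C (PowerSeries.coeff 0 (zetaG (sp 0 m c 1) W E)) := by
    ext d
    rw [map_sub, PowerSeries.coeff_C]
    by_cases hd : d = 0
    · subst hd
      rw [if_pos rfl, sub_self, Pool.Agent.W428.MOT.zeta, PowerSeries.coeff_mk, if_pos rfl]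
    · rw [if_neg hd, sub_zero, Pool.Agent.W428.MOT.zeta, PowerSeries.coeff_mk, if_neg hd,
        zetaG, PowerSeries.coeff_mk]
      have h3 : Jet (sp 0 m c 1) (0 : Fin n → K) d = JetG (sp 0 m c 1) W E d := by
        ext z
        simp only [Jet, JetG, hWdef, hEdef, Set.mem_ofPred_eq, Set.mem_singleton_iff, funext_iff]
        refine and_congr_right fun _ => ?_
        constructor
        · intro h
          refine ⟨fun j hj => ?_, ?_⟩
          · rw [h j hj.le, if_neg (by omega)]
          · rw [h d le_rfl, if_pos rfl]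
        · rintro ⟨h1, h2⟩ j hj
          by_cases h : j = d
          · rw [h, h2, if_pos rfl]
          · rw [h1 j (by omega), if_neg h]
      rw [h3]
  refine ⟨b0 Finset.univ, b1 Finset.univ, -PowerSeries.coeff 0 F, ?_, fun τ => ?_, fun τ => ?_⟩
  · rw [hz2]
    conv_lhs => rw [hz]
    rw [map_add (PowerSeries.coeff 0), map_sub (PowerSeries.coeff 0)]
    rw [PowerSeries.coeff_C, PowerSeries.coeff_C, if_pos rfl, if_pos rfl, sub_self, zero_add,
      ← hFu, map_neg]
    ring
  · rw [← hχ, ← hML]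
    simp only [hb0]
    rw [chi_GB0 M m c hW hE]
    exact X_full hFree M m c (fun z => z none) (IsPF.coord none) (fun _ _ h => h) 1
      (fun z h => h) IsPF.one τ
  · rw [← hχ, ← hML]
    simp only [hb1]
    rw [chi_GB1 M m c]
    exact X_full hFree M m c (fun _ => 0) IsPF.zero (fun _ _ _ => rfl) 0
      (fun z h => rfl) IsPF.zero τ

end Pool.Agent.Y228.HX
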