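import Pool.Agent.Y228.HX.Stm3
import Pool.Agent.Y229.CF.NonG

set_option autoImplicit false
set_option maxHeartbeats 400000

/-! # Project HX: the `χ_y`-genus of the nondegenerate hypersurfaces in tori -/

namespace Pool.Agent.Y228.HX

open MvPolynomial
open Pool.Agent.W428.MOT (K0 MK Pt Constr cls Lu gbar cb amin)
open Pool.Agent.W426.SM (gord ford IsRay face)
open Pool.Agent.W803.SM (gord_le exists_gord)
open Pool.Agent.Y229.CF (NonDP)

section defs

variable {K : Type} [Field K] {n r : ℕ}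

/-- the exponents `v j`, `j ∈ κ`, on which `w` is minimal -/
def OnF (v : Fin r → Fin n → ℕ) (κ : Finset (Fin r)) (w : Fin n → ℤ) (j : Fin r) : Prop :=
  j ∈ κ ∧ ∀ j' ∈ κ, ∑ i, w i * v j i ≤ ∑ i, w i * v j' i

open Classical in
/-- The polynomial `∑_{j ∈ κ} c_j x ^ (v_j)` is nondegenerate for all the faces of its Newton
polytope (the convex hull of the exponents): for every `w ∈ ℤ ^ n` the sum of the terms on which `w`
is minimal and its derivatives `x_i ∂_i` have no common zero in the torus. -/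
def NonL (v : Fin r → Fin n → ℕ) (κ : Finset (Fin r)) (c : Fin r → K) : Prop :=
  ∀ (w : Fin n → ℤ) (z : Fin n → AlgebraicClosure K), (∀ i, z i ≠ 0) →
    ¬ ((∑ j, if OnF v κ w j then algebraMap K (AlgebraicClosure K) (c j) * ∏ i, z i ^ v j i
        else 0) = 0 ∧
      ∀ i, (∑ j, if OnF v κ w j then algebraMap K (AlgebraicClosure K) (c j) *
        ((v j i : AlgebraicClosure K) * ∏ i, z i ^ v j i) else 0) = 0)

/-- the hypersurface `∑_{j ∈ κ} c_j x ^ (v_j) = 0` in the torus -/
def ZT (v : Fin r → Fin n → ℕ) (κ : Finset (Fin r)) (c : Fin r → K) : Set (Pt K (Fin n)) :=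
  {z | (∀ i, z i ≠ 0) ∧
    ∑ j ∈ κ, algebraMap K (AlgebraicClosure K) (c j) * ∏ i, z i ^ v j i = 0}

/-- **The ring homomorphism `φ` is the `χ_y`-genus on the nondegenerate hypersurfaces in tori**:
`φ(𝕃) = u`, and the theorem of Danilov and Khovanskii holds: the value of `φ` at the class of the
hypersurface `∑_{j ∈ κ} c_j x ^ (v_j) = 0` in the torus of dimension `n` is
`((u - 1) ^ n + (u - 1) ^ (n + 1) E(u)) / u`, where `E` is the Ehrhart series of its Newton
polytope. -/
def ChiY (φ : MK K →+* RatFunc ℚ) : Prop :=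
  φ ((Lu K : (MK K)ˣ) : MK K) = RatFunc.X ∧
  ∀ (n r : ℕ) (v : Fin r → Fin n → ℕ) (κ : Finset (Fin r)) (c : Fin r → K) (E : RatFunc ℚ),
    (∀ j ∈ κ, c j ≠ 0) → Set.InjOn v κ → NonL v κ c →
    Expd E (PowerSeries.mk fun k => ((Dil v κ k).ncard : ℚ)) →
    φ (algebraMap (K0 K) (MK K) (cls (Fin n) (ZT v κ c))) =
      ((RatFunc.X - 1) ^ n + (RatFunc.X - 1) ^ (n + 1) * E) / RatFunc.X

end defs

variable {r N : ℕ}

/-- the faces of a compact face are compact faces -/
lemma face_ex (hr : 0 < r) (v : Fin r → Fin N → ℕ) (x : Fin N → ℕ) (hx : ∀ i, 0 < x i)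
    (w : Fin N → ℤ) : ∃ u : Fin N → ℕ, (∀ i, 0 < u i) ∧ ∀ j, face v u j ↔ OnF v (amin v x) w j := by
  classical
  set D : ℕ := ∑ j, ∑ i, (w i).natAbs * v j i + ∑ i, (w i).natAbs with hD
  have hD1 : ∀ j, |∑ i, w i * (v j i : ℤ)| ≤ D := by
    intro j
    refine (Finset.abs_sum_le_sum_abs _ _).trans ?_
    have h1 : ∑ i, |w i * (v j i : ℤ)| = ((∑ i, (w i).natAbs * v j i : ℕ) : ℤ) := by
      push_cast
      refine Finset.sum_congr rfl fun i _ => ?_
      rw [abs_mul, Nat.abs_cast]
    rw [h1]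
    have h2 : ∑ i, (w i).natAbs * v j i ≤ ∑ j, ∑ i, (w i).natAbs * v j i :=
      Finset.single_le_sum (f := fun j => ∑ i, (w i).natAbs * v j i) (fun _ _ => Nat.zero_le _)
        (Finset.mem_univ j)
    rw [hD]
    exact_mod_cast h2.trans (Nat.le_add_right _ _)
  have hD2 : ∀ i, |w i| ≤ D := by
    intro i
    have h2 : (w i).natAbs ≤ ∑ i, (w i).natAbs :=
      Finset.single_le_sum (f := fun i => (w i).natAbs) (fun _ _ => Nat.zero_le _)
        (Finset.mem_univ i)
    rw [hD, ← Int.natCast_natAbs]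
    exact_mod_cast h2.trans (Nat.le_add_left _ _)
  set M : ℤ := 2 * D + 1 with hM
  have hpos : ∀ i, 0 < M * (x i : ℤ) + w i := by
    intro i
    have h1 : (1 : ℤ) ≤ x i := by exact_mod_cast hx i
    have h2 := abs_le.1 (hD2 i)
    have h3 : (0 : ℤ) ≤ D := by positivity
    nlinarith
  refine ⟨fun i => (M * (x i : ℤ) + w i).toNat, fun i => ?_, fun j => ?_⟩
  · have := hpos i
    beta_reduce
    omega
  · set u : Fin N → ℕ := fun i => (M * (x i : ℤ) + w i).toNat with hu
    have hui : ∀ i, (u i : ℤ) = M * (x i : ℤ) + w i := fun i => Int.toNat_of_nonneg (hpos i).le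
    have hval : ∀ j, ((∑ i, u i * v j i : ℕ) : ℤ) =
        M * ((∑ i, x i * v j i : ℕ) : ℤ) + ∑ i, w i * (v j i : ℤ) := by
      intro j
      push_cast
      rw [Finset.mul_sum, ← Finset.sum_add_distrib]
      refine Finset.sum_congr rfl fun i _ => ?_
      rw [hui]
      ring
    have hmem : ∀ j, j ∈ amin v x ↔ ∑ i, x i * v j i = gord v x := fun j => by
      simp [amin]
    have hbig : ∀ j, j ∉ amin v x → (gord v x : ℤ) + 1 ≤ ((∑ i, x i * v j i : ℕ) : ℤ) := by
      intro j hj
      rw [hmem] at hj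
      have := gord_le v x j
      omega
    obtain ⟨j0, hj0⟩ := exists_gord hr v x
    have hj0m : j0 ∈ amin v x := (hmem j0).2 hj0
    have hface : face v u j ↔ ∀ j', ((∑ i, u i * v j i : ℕ) : ℤ) ≤ ((∑ i, u i * v j' i : ℕ) : ℤ) := by
      unfold face
      constructor
      · intro h j'
        rw [h]
        exact_mod_cast gord_le v u j'
      · intro h
        obtain ⟨j1, hj1⟩ := exists_gord hr v u
        have h1 := h j1
        rw [hj1] at h1
        have h2 := gord_le v u j
        omega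
    rw [hface]
    have hDD : (0 : ℤ) ≤ D := by positivity
    constructor
    · intro h
      have hjm : j ∈ amin v x := by
        by_contra hcon
        have h1 := h j0
        rw [hval, hval, hj0] at h1
        have h2 := hbig j hcon
        have h3 := abs_le.1 (hD1 j)
        have h4 := abs_le.1 (hD1 j0)
        nlinarith
      refine ⟨hjm, fun j' hj' => ?_⟩
      have h1 := h j'
      rw [hval, hval, (hmem j).1 hjm, (hmem j').1 hj'] at h1
      linarith
    · rintro ⟨hjm, h⟩ j'
      rw [hval, hval, (hmem j).1 hjm]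
      by_cases hj' : j' ∈ amin v x
      · rw [(hmem j').1 hj']
        have := h j' hj'
        linarith
      · have h2 := hbig j' hj'
        have h3 := abs_le.1 (hD1 j)
        have h4 := abs_le.1 (hD1 j')
        nlinarith

variable {K : Type} [Field K]

/-- the compact faces are nondegenerate -/
lemma nonL_face (hr : 0 < r) (v : Fin r → Fin N → ℕ) (c : Fin r → K)
    (hnd : NonDP v (fun j => algebraMap K (AlgebraicClosure K) (c j))) (x : Fin N → ℕ)
    (hx : ∀ i, 0 < x i) : NonL v (amin v x) c := by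
  classical
  rintro w z hz ⟨h0, h1⟩
  obtain ⟨u, hu, hf⟩ := face_ex hr v x hx w
  obtain ⟨i, hi⟩ := hnd u hu z hz (by
    refine Eq.trans ?_ h0
    refine Finset.sum_congr rfl fun j _ => ?_
    by_cases h : face v u j
    · rw [if_pos h, if_pos ((hf j).1 h)]
    · rw [if_neg h, if_neg fun h' => h ((hf j).2 h')])
  apply hi
  refine Eq.trans ?_ (h1 i)
  refine Finset.sum_congr rfl fun j _ => ?_
  by_cases h : face v u j
  · rw [if_pos h, if_pos ((hf j).1 h)]
  · rw [if_neg h, if_neg fun h' => h ((hf j).2 h')]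

/-- the coefficients of `f_τ - 1` -/
def cp1 (c : Fin r → K) : Fin (r + 1) → K := Fin.cons (-1) c

lemma mem_Ip_succ (κ : Finset (Fin r)) (j : Fin r) : j.succ ∈ Ip κ ↔ j ∈ κ := by
  unfold Ip
  rw [Finset.mem_insert, Finset.mem_map]
  constructor
  · rintro (h | ⟨j', hj', h⟩)
    · exact absurd h (Fin.succ_ne_zero j)
    · rw [Fin.coe_succEmb] at h
      rw [← Fin.succ_injective r h]
      exact hj'
  · intro h
    exact Or.inr ⟨j, h, rfl⟩

lemma zero_mem_Ip (κ : Finset (Fin r)) : (0 : Fin (r + 1)) ∈ Ip κ := by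
  unfold Ip
  exact Finset.mem_insert_self _ _

/-- the polynomials `f_τ - 1` are nondegenerate -/
lemma nonL_vp [CharZero K] (v : Fin r → Fin N → ℕ) (c : Fin r → K) (κ : Finset (Fin r))
    (hκ : NonL v κ c) (x : Fin N → ℕ) (g : ℕ) (hg : g ≠ 0)
    (hx : ∀ j ∈ κ, ∑ i, x i * v j i = g) : NonL (vp v) (Ip κ) (cp1 c) := by
  classical
  have hK : CharZero (AlgebraicClosure K) :=
    charZero_of_injective_algebraMap (algebraMap K (AlgebraicClosure K)).injective
  rintro w z hz ⟨h0, h1⟩
  rw [Fin.sum_univ_succ] at h0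
  have hv0 : ∀ i, vp v 0 i = 0 := fun i => rfl
  have hvs : ∀ (j : Fin r) i, vp v j.succ i = v j i := fun j i => rfl
  have hc0 : cp1 c 0 = -1 := rfl
  have hcs : ∀ j : Fin r, cp1 c j.succ = c j := fun j => rfl
  by_cases hF : OnF (vp v) (Ip κ) w 0
  · rw [if_pos hF] at h0
    have h2 : ∀ i, (∑ j : Fin r, if OnF (vp v) (Ip κ) w j.succ then
        algebraMap K (AlgebraicClosure K) (c j) *
          ((v j i : AlgebraicClosure K) * ∏ i, z i ^ v j i) else 0) = 0 := by
      intro i
      have h3 := h1 i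
      rw [Fin.sum_univ_succ] at h3
      rw [if_pos hF] at h3
      simp only [hv0, hvs, hcs, Nat.cast_zero, zero_mul, mul_zero, zero_add] at h3
      exact h3
    have h3 : (g : AlgebraicClosure K) * (∑ j : Fin r, if OnF (vp v) (Ip κ) w j.succ then
        algebraMap K (AlgebraicClosure K) (c j) * ∏ i, z i ^ v j i else 0) = 0 := by
      have h4 : ∑ i, (x i : AlgebraicClosure K) * (∑ j : Fin r, if OnF (vp v) (Ip κ) w j.succ then
        algebraMap K (AlgebraicClosure K) (c j) *
          ((v j i : AlgebraicClosure K) * ∏ i, z i ^ v j i) else 0) = 0 :=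
        Finset.sum_eq_zero fun i _ => by rw [h2 i, mul_zero]
      refine Eq.trans ?_ h4
      simp_rw [Finset.mul_sum]
      rw [Finset.sum_comm]
      refine Finset.sum_congr rfl fun j _ => ?_
      by_cases hj : OnF (vp v) (Ip κ) w j.succ
      · simp only [if_pos hj]
        have h5 : (g : AlgebraicClosure K) = ∑ i, (x i : AlgebraicClosure K) * (v j i) := by
          have h6 := hx j ((mem_Ip_succ κ j).1 hj.1)
          rw [← h6]
          push_cast
          rfl
        rw [h5, Finset.sum_mul]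
        refine Finset.sum_congr rfl fun i _ => ?_
        ring
      · simp only [if_neg hj, mul_zero, Finset.sum_const_zero]
    have h4 := (mul_eq_zero.1 h3).resolve_left (by exact_mod_cast hg)
    simp only [hv0, hvs, hc0, hcs] at h0
    rw [h4] at h0
    simp at h0
  · have h5 : ∃ j ∈ κ, ∑ i, w i * (v j i : ℤ) < 0 := by
      by_contra hcon
      push Not at hcon
      refine hF ⟨zero_mem_Ip κ, fun j' hj' => ?_⟩
      have h6 : ∑ i, w i * ((vp v 0 i : ℕ) : ℤ) = 0 := by
        refine Finset.sum_eq_zero fun i _ => ?_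
        rw [hv0]
        simp
      rw [h6]
      refine Fin.cases ?_ (fun j'' => ?_) j' hj'
      · intro _
        rw [h6]
      · intro hj''
        simp only [hvs]
        exact hcon j'' ((mem_Ip_succ κ j'').1 hj'')
    have h6 : ∀ j : Fin r, OnF (vp v) (Ip κ) w j.succ ↔ OnF v κ w j := by
      intro j
      constructor
      · rintro ⟨h7, h8⟩
        refine ⟨(mem_Ip_succ κ j).1 h7, fun j' hj' => ?_⟩
        exact h8 j'.succ ((mem_Ip_succ κ j').2 hj')
      · rintro ⟨h7, h8⟩
        refine ⟨(mem_Ip_succ κ j).2 h7, fun j' hj' => ?_⟩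
        refine Fin.cases ?_ (fun j'' => ?_) j' hj'
        · intro _
          obtain ⟨j1, hj1, hlt⟩ := h5
          have h9 := h8 j1 hj1
          have h10 : ∑ i, w i * ((vp v 0 i : ℕ) : ℤ) = 0 := by
            refine Finset.sum_eq_zero fun i _ => ?_
            rw [hv0]
            simp
          rw [h10]
          simp only [hvs]
          linarith
        · intro hj''
          simp only [hvs]
          exact h8 j'' ((mem_Ip_succ κ j'').1 hj'')
    rw [if_neg hF, zero_add] at h0
    refine hκ w z hz ⟨?_, fun i => ?_⟩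
    · refine Eq.trans ?_ h0
      refine Finset.sum_congr rfl fun j _ => ?_
      by_cases h : OnF v κ w j
      · rw [if_pos h, if_pos ((h6 j).2 h)]
        rfl
      · rw [if_neg h, if_neg fun h' => h ((h6 j).1 h')]
    · have h7 := h1 i
      rw [Fin.sum_univ_succ, if_neg hF, zero_add] at h7
      refine Eq.trans ?_ h7
      refine Finset.sum_congr rfl fun j _ => ?_
      by_cases h : OnF v κ w j
      · rw [if_pos h, if_pos ((h6 j).2 h)]
        rfl
      · rw [if_neg h, if_neg fun h' => h ((h6 j).1 h')]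

lemma dil_vp (v : Fin r → Fin N → ℕ) (κ : Finset (Fin r)) (k : ℕ) :
    Dil (vp v) (Ip κ) k = Dil0 v κ k := by
  ext y
  constructor
  · rintro ⟨l, h1, h2, h3, h4⟩
    refine ⟨fun j => l j.succ, fun j hj => h1 _ fun h => hj ((mem_Ip_succ κ j).1 h),
      fun j => h2 _, fun i => ?_, ?_⟩
    · rw [h3 i, Fin.sum_univ_succ]
      simp [vp]
    · rw [h4, Fin.sum_univ_succ]
      have := h2 0
      linarith
  · rintro ⟨l, h1, h2, h3, h4⟩
    refine ⟨Fin.cons (k - ∑ j, l j) l, fun j hj => ?_, fun j => ?_, fun i => ?_, ?_⟩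
    · refine Fin.cases ?_ (fun j' => ?_) j hj
      · intro h
        exact absurd (zero_mem_Ip κ) h
      · intro h
        rw [Fin.cons_succ]
        exact h1 j' fun h' => h ((mem_Ip_succ κ j').2 h')
    · refine Fin.cases ?_ (fun j' => ?_) j
      · rw [Fin.cons_zero]
        linarith
      · rw [Fin.cons_succ]
        exact h2 j'
    · rw [h3 i, Fin.sum_univ_succ]
      simp [vp]
    · rw [Fin.sum_univ_succ]
      simp

lemma injOn_vp (v : Fin r → Fin N → ℕ) (hv : Function.Injective v) (hv0 : ∀ j, v j ≠ 0)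
    (κ : Finset (Fin r)) : Set.InjOn (vp v) (Ip κ) := by
  intro a _ b _ hab
  revert hab
  refine Fin.cases ?_ (fun a' => ?_) a
  · refine Fin.cases ?_ (fun b' => ?_) b
    · intro _
      rfl
    · intro h
      exact absurd h.symm (hv0 b')
  · refine Fin.cases ?_ (fun b' => ?_) b
    · intro h
      exact absurd h (hv0 a')
    · intro h
      have h1 : a' = b' := hv h
      rw [h1]

lemma ZT_zero (v : Fin r → Fin N → ℕ) (c : Fin r → K) (κ : Finset (Fin r)) :
    ZT v κ c = {z : Pt K (Fin N) | (∀ i, z i ≠ 0) ∧ gbar v (cb c) κ z = 0} := rfl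

lemma ZT_one (v : Fin r → Fin N → ℕ) (c : Fin r → K) (κ : Finset (Fin r)) :
    ZT (vp v) (Ip κ) (cp1 c) = {z : Pt K (Fin N) | (∀ i, z i ≠ 0) ∧ gbar v (cb c) κ z = 1} := by
  ext z
  unfold ZT
  simp only [Set.mem_ofPred_eq]
  refine and_congr_right fun _ => ?_
  have h1 : (0 : Fin (r + 1)) ∉ κ.map (Fin.succEmb r) := by
    intro h
    obtain ⟨j, -, hj⟩ := Finset.mem_map.1 h
    exact absurd hj (Fin.succ_ne_zero j)
  unfold Ip
  rw [Finset.sum_insert h1, Finset.sum_map]
  have h2 : algebraMap K (AlgebraicClosure K) (cp1 c 0) * ∏ i, z i ^ vp v 0 i = -1 := by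
    have h3 : ∀ i, vp v 0 i = 0 := fun i => rfl
    have h4 : cp1 c 0 = -1 := rfl
    simp only [h3, h4, pow_zero, Finset.prod_const_one, mul_one, map_neg, map_one]
  rw [h2]
  have h3 : ∑ j ∈ κ, algebraMap K (AlgebraicClosure K) (cp1 c ((Fin.succEmb r) j)) *
      ∏ i, z i ^ vp v ((Fin.succEmb r) j) i = gbar v (cb c) κ z := rfl
  rw [h3]
  constructor
  · intro h
    linear_combination h
  · intro h
    linear_combination h

end Pool.Agent.Y228.HX
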