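import Pool.Agent.Y228.HX.W1
import Pool.Agent.Y228.HX.W2
import Pool.Agent.Y228.HX.W3

set_option autoImplicit false
set_option maxHeartbeats 400000

/-! # Project HX: assembly -/

namespace Pool.Agent.Y228.HX

open Pool.Agent.TH216.MF (frc cser FR evR geoR_mul ratR IsPol fac)
open Pool.Agent.W426.SM (gord ford IsRay face)
open Pool.Agent.W803.SM (filt)
open Pool.Agent.W428.MOT

section transfer

variable {R R' : Type} [CommRing R] [CommRing R'] (φ : R →+* R') (u : Rˣ)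

lemma evR_map (p : Polynomial ℤ) :
    φ (evR u p) = evR (Units.map (φ : R →* R') u) p := by
  have h : φ.comp (evR u) = evR (Units.map (φ : R →* R') u) := by
    refine Polynomial.ringHom_ext (fun a => ?_) ?_
    · simp [evR]
    · simp [evR]
  rw [← h]
  rfl

lemma geoR_map (a b : ℤ) (hb : 0 < b) :
    PowerSeries.map φ (geoR u a b) = geoR (Units.map (φ : R →* R') u) a b := by
  have h1 := congrArg (PowerSeries.map φ) (geoR_mul u a b hb)
  have h2 := geoR_mul (Units.map (φ : R →* R') u) a b hb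
  rw [map_mul, map_sub, map_one, map_mul, PowerSeries.map_C, map_pow, PowerSeries.map_X] at h1
  have h3 : φ ((u ^ a : Rˣ) : R) = (((Units.map (φ : R →* R') u) ^ a : R'ˣ) : R') := by
    rw [← map_zpow]
    rfl
  rw [h3] at h1
  set A := (1 - PowerSeries.C ((((Units.map (φ : R →* R') u) ^ a : R'ˣ) : R')) *
    PowerSeries.X ^ b.toNat : PowerSeries R')
  calc PowerSeries.map φ (geoR u a b) = PowerSeries.map φ (geoR u a b) *
        (A * geoR (Units.map (φ : R →* R') u) a b) := by rw [h2, mul_one]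
    _ = (A * PowerSeries.map φ (geoR u a b)) * geoR (Units.map (φ : R →* R') u) a b := by ring
    _ = _ := by rw [h1, one_mul]

lemma FR_map {r N : ℕ} (v : Fin r → Fin N → ℕ) (J : Finset (Fin N)) (b0 b1 : Finset (Fin r) → R) :
    PowerSeries.map φ (FR u v J b0 b1) = FR (Units.map (φ : R →* R') u) v J
      (fun τ => φ (b0 τ)) (fun τ => φ (b1 τ)) := by
  have h1 : ∀ τ, PowerSeries.map φ (PowerSeries.map (evR u) (cser v J τ)) =
      PowerSeries.map (evR (Units.map (φ : R →* R') u)) (cser v J τ) := by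
    intro τ
    ext M
    rw [PowerSeries.coeff_map, PowerSeries.coeff_map, PowerSeries.coeff_map, evR_map]
  unfold FR
  rw [map_sum]
  refine Finset.sum_congr rfl fun τ _ => ?_
  rw [map_mul, map_add, map_mul, map_mul, map_mul, map_mul, map_mul, h1,
    geoR_map φ u (-1) 1 one_pos]
  simp only [PowerSeries.map_C, PowerSeries.map_X, map_pow]
  rfl

end transfer

/-- the variable of `ℚ(u)` -/
noncomputable def uX : (RatFunc ℚ)ˣ := Units.mk0 RatFunc.X RatFunc.X_ne_zero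

lemma X_sub_one_ne : (RatFunc.X - 1 : RatFunc ℚ) ≠ 0 := by
  intro h
  have h1 : (RatFunc.X : RatFunc ℚ) = 1 := by linear_combination h
  have h2 : algebraMap (Polynomial ℚ) (RatFunc ℚ) Polynomial.X =
      algebraMap (Polynomial ℚ) (RatFunc ℚ) 1 := by
    rw [map_one, RatFunc.algebraMap_X]
    exact h1
  have h3 := RatFunc.algebraMap_injective ℚ h2
  exact Polynomial.X_ne_C (1 : ℚ) (by rw [h3, map_one])

lemma Expd_of (A B : Polynomial ℚ) (hB : B.coeff 0 ≠ 0) (S : PowerSeries ℚ)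
    (h : (A : PowerSeries ℚ) = (B : PowerSeries ℚ) * S) :
    Expd (algebraMap (Polynomial ℚ) (RatFunc ℚ) A / algebraMap (Polynomial ℚ) (RatFunc ℚ) B) S := by
  refine ⟨A, B, hB, ?_, h.symm⟩
  have h1 : algebraMap (Polynomial ℚ) (RatFunc ℚ) B ≠ 0 := by
    rw [Ne, map_eq_zero_iff _ (RatFunc.algebraMap_injective ℚ)]
    rintro rfl
    simp at hB
  field_simp

variable {r N : ℕ}

lemma cser_ex (m : Fin r → Fin N → ℕ) (τ : Finset (Fin r)) (h : cser m Finset.univ τ ≠ 0) :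
    ∃ x : Fin N → ℕ, (∀ i, 0 < x i) ∧ amin m x = τ := by
  by_contra hcon
  push Not at hcon
  apply h
  ext1 M
  unfold cser
  rw [PowerSeries.coeff_mk, map_zero]
  unfold cp
  refine Finset.sum_eq_zero fun u hu => ?_
  exfalso
  obtain ⟨-, h1, h2, -⟩ := Finset.mem_filter.1 hu
  exact hcon u (fun i => Nat.pos_of_ne_zero ((h1 i).2 (Finset.mem_univ i))) h2

/-- the first class function -/
noncomputable def gX (v : Fin r → Fin N → ℕ) (ω : Fin r → ℕ) (τ : Finset (Fin r)) : RatFunc ℚ :=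
  ∑ I ∈ τ.powerset, open Classical in if TT v ω I then
    (Polynomial.aeval (RatFunc.X : RatFunc ℚ) (P1 v I)) / (1 - RatFunc.X) ^ I.card else 0

/-- the second class function -/
noncomputable def kX (v : Fin r → Fin N → ℕ) (ω : Fin r → ℕ) (τ : Finset (Fin r)) : RatFunc ℚ :=
  ∑ I ∈ τ.powerset, open Classical in if TT v ω I then
    -(1 - (RatFunc.X : RatFunc ℚ)⁻¹) * ((Polynomial.aeval (RatFunc.X : RatFunc ℚ)
      (P1 (vp v) (Ip I))) / (1 - RatFunc.X) ^ (I.card + 1)) -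
    (Polynomial.aeval (RatFunc.X : RatFunc ℚ) (P1 v I)) / (1 - RatFunc.X) ^ I.card else 0

/-- **The theorem over one field.** -/
theorem hodge_mem (hEHR : S_EHR) (hSER : S_SER) (hINDP : S_INDP) (hEXP : S_EXP) (hRATI : S_RATI)
    (hr : 0 < r) (K : Type) [Field K] [CharZero K] (φ : MK K →+* RatFunc ℚ) (hφ : ChiY φ)
    (v : Fin r → Fin N → ℕ) (hv : Function.Injective v) (hv0 : ∀ j, v j ≠ 0) (c : Fin r → K)
    (hc : ∀ j, c j ≠ 0)
    (hnd : Pool.Agent.Y229.CF.NonDP v (fun j => algebraMap K (AlgebraicClosure K) (c j)))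
    (hNon : Pool.Agent.Y229.CF.Mot.NonGJ Finset.univ v c) (S : Set (ℤ × ℤ))
    (hS1 : ((-1 : ℤ), (1 : ℤ)) ∈ S) (ω : Fin r → ℕ) (hG : Gen v ω) (l : List (Fin N → ℕ))
    (hl : ∀ a ∈ l, 0 < gord v a ∧ (-((∑ i, a i : ℕ) : ℤ), (gord v a : ℤ)) ∈ S)
    (hGg : IsPol (Ug v ω * (l.map (fac v)).prod))
    (hGk : IsPol (US v (KP v ω) * (l.map (fac v)).prod)) :
    PowerSeries.map φ (zeta (sp 0 v c 1) 0) ∈ ratR uX S := by
  classical
  obtain ⟨b0, b1, z0, hz, hb0, hb1⟩ := zeta_FR v hr c hNon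
  have hu : Units.map (φ : MK K →* RatFunc ℚ) (Lu K) = uX := Units.ext hφ.1
  rw [hz, map_add, FR_map, hu, PowerSeries.map_C]
  refine (ratR uX S).add_mem ?_ (Pool.Agent.TH216.MF.CR_mem uX S _)
  have hX0 : (RatFunc.X : RatFunc ℚ) ≠ 0 := RatFunc.X_ne_zero
  have hX1 := X_sub_one_ne
  have hX1' : (1 - RatFunc.X : RatFunc ℚ) ≠ 0 := fun h => hX1 (by linear_combination -h)
  have hui : ((uX⁻¹ : (RatFunc ℚ)ˣ) : RatFunc ℚ) = (RatFunc.X : RatFunc ℚ)⁻¹ := rfl
  have huv : ((uX : (RatFunc ℚ)ˣ) : RatFunc ℚ) = RatFunc.X := rfl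
  have hev : ∀ p : Polynomial ℤ, evR uX p =
      Polynomial.eval₂ (Int.castRingHom (RatFunc ℚ)) (RatFunc.X : RatFunc ℚ)⁻¹ p := fun p => rfl
  have hdat : ∀ τ : Finset (Fin r), cser v Finset.univ τ ≠ 0 → ∃ x : Fin N → ℕ,
      (∀ i, 0 < x i) ∧ τ = amin v x ∧ (∀ i, 0 < (x i : ℚ)) ∧
      (∀ j, ((gord v x : ℕ) : ℚ) ≤ ∑ i, (x i : ℚ) * (v j i : ℚ)) ∧
      0 < ((gord v x : ℕ) : ℚ) ∧
      ∀ j, j ∈ τ ↔ ∑ i, (x i : ℚ) * (v j i : ℚ) = ((gord v x : ℕ) : ℚ) := by
    intro τ hτ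
    obtain ⟨x, hx, hxτ⟩ := cser_ex v τ hτ
    obtain ⟨h1, h2, h3, h4⟩ := face_data hr v hv0 x hx
    refine ⟨x, hx, hxτ.symm, h1, h2, h3, ?_⟩
    intro j
    rw [← hxτ]
    exact h4 j
  -- the values of the classes
  have hcoef : ∀ d : ℕ, ((1 - Polynomial.X : Polynomial ℚ) ^ d).coeff 0 ≠ 0 := by
    intro d
    rw [Polynomial.coeff_zero_eq_eval_zero]
    simp
  have hval1 : ∀ τ, cser v Finset.univ τ ≠ 0 → φ (b1 τ) * (RatFunc.X - 1) ^ frc v Finset.univ τ =
      ((RatFunc.X - 1) ^ N + (RatFunc.X - 1) ^ (N + 1) * gX v ω τ) / RatFunc.X := by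
    intro τ hτ
    obtain ⟨x, hx, hxτ, h1, h2, h3, h4⟩ := hdat τ hτ
    have h5 := A0_eq hEHR hSER hINDP v ω hG _ _ h1 h2 h3 τ h4
    have h6 := Expd_of (A0 v ω τ) ((1 - Polynomial.X) ^ r) (hcoef r) _ (by
      rw [h5]
      push_cast
      rfl)
    have h7 := (hEXP r N v ω hG _ _ h1 h2 h3 τ h4).1 _ h6
    have h8 := hφ.2 N r v τ c _ (fun j _ => hc j) (fun a _ b _ h => hv h)
      (by rw [hxτ]; exact nonL_face hr v c hnd x hx) h6
    have h9 := congrArg φ (hb1 τ)
    rw [map_mul, map_pow, map_sub, map_one, hφ.1] at h9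
    rw [h9]
    unfold clM
    rw [← ZT_zero, h8, h7]
    rfl
  have hval0 : ∀ τ, cser v Finset.univ τ ≠ 0 → φ (b0 τ) * (RatFunc.X - 1) ^ frc v Finset.univ τ =
      ((RatFunc.X - 1) ^ N + (RatFunc.X - 1) ^ (N + 1) *
        ∑ I ∈ τ.powerset, (if TT v ω I then
        (Polynomial.aeval (RatFunc.X : RatFunc ℚ) (P1 v I)) / (1 - RatFunc.X) ^ I.card +
        (Polynomial.aeval (RatFunc.X : RatFunc ℚ) (P1 (vp v) (Ip I))) /
          (1 - RatFunc.X) ^ (I.card + 1) else 0)) / RatFunc.X := by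
    intro τ hτ
    obtain ⟨x, hx, hxτ, h1, h2, h3, h4⟩ := hdat τ hτ
    have h5 := A1_eq hEHR hSER hINDP v ω hG _ _ h1 h2 h3 τ h4
    have h6 := Expd_of (A1 v ω τ) ((1 - Polynomial.X) ^ (r + 1)) (hcoef (r + 1)) _ (by
      rw [h5]
      push_cast
      rfl)
    have h7 := (hEXP r N v ω hG _ _ h1 h2 h3 τ h4).2 _ h6
    have h10 : gord v x ≠ 0 := by
      have h11 : 0 < gord v x := by exact_mod_cast h3
      omega
    have h12 : NonL (vp v) (Ip τ) (cp1 c) := by
      refine nonL_vp v c τ (by rw [hxτ]; exact nonL_face hr v c hnd x hx) x (gord v x) h10 ?_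
      intro j hj
      have h13 := (h4 j).1 hj
      exact_mod_cast h13
    have h14 : (PowerSeries.mk fun k => ((Dil (vp v) (Ip τ) k).ncard : ℚ)) =
        PowerSeries.mk fun k => ((Dil0 v τ k).ncard : ℚ) := by
      simp_rw [dil_vp]
    have h8 := hφ.2 N (r + 1) (vp v) (Ip τ) (cp1 c) _ (fun j _ => by
        refine Fin.cases ?_ (fun j' => ?_) j
        · exact neg_ne_zero.2 one_ne_zero
        · exact hc j') (injOn_vp v hv hv0 τ) h12 (by rw [h14]; exact h6)
    have h9 := congrArg φ (hb0 τ)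
    rw [map_mul, map_pow, map_sub, map_one, hφ.1] at h9
    rw [h9]
    unfold clM
    rw [← ZT_one, h8, h7]
  have hpow : ∀ τ, (RatFunc.X - 1 : RatFunc ℚ) ^ N = (RatFunc.X - 1) ^ (N - frc v Finset.univ τ) *
      (RatFunc.X - 1) ^ frc v Finset.univ τ := by
    intro τ
    rw [← pow_add, Nat.sub_add_cancel (frcN v τ)]
  refine FR_memX uX hS1 v ω l hl hGg hGk ?_ _ _ (gX v ω) (kX v ω) ?_ ?_ ?_ ?_
  · rw [hui, isUnit_iff_ne_zero]
    intro h
    apply hX1
    field_simp at h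
    linear_combination h
  · -- the first class function
    intro τ hτ
    rw [hui, hev]
    unfold gX GP
    rw [Finset.mul_sum, Polynomial.eval₂_finset_sum]
    refine Finset.sum_congr rfl fun I hI => ?_
    split_ifs with hT
    · have h1 := hRATI r N v I ((hINDP r N v ω hG).1 I hT) r (card_le_r I)
      rw [← h1]
      ring
    · simp
  · intro τ hτ
    obtain ⟨x, hx, hxτ, a1, a2, a3, a4⟩ := hdat τ hτ
    rw [hui, hev]
    unfold kX KP
    rw [Finset.mul_sum, Polynomial.eval₂_finset_sum]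
    refine Finset.sum_congr rfl fun I hI => ?_
    split_ifs with hT
    · have h1 := hRATI r N v I ((hINDP r N v ω hG).1 I hT) r (card_le_r I)
      have h2 := hRATI (r + 1) N (vp v) (Ip I) ((hINDP r N v ω hG).2 _ _ a3.ne' I hT
        fun j hj => (a4 j).1 (Finset.mem_powerset.1 hI hj)) (r + 1) (card_le_r _)
      rw [card_Ip] at h2
      rw [Polynomial.eval₂_sub, Polynomial.eval₂_neg, ← h1, ← h2]
      ring
    · simp
  · -- the classes `b0`
    intro τ hτ
    have h1 := hval0 τ hτ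
    rw [hpow τ, pow_succ, hpow τ] at h1
    have h2 : gX v ω τ + RatFunc.X * kX v ω τ = (1 - RatFunc.X) *
        ∑ I ∈ τ.powerset, (if TT v ω I then
        (Polynomial.aeval (RatFunc.X : RatFunc ℚ) (P1 v I)) / (1 - RatFunc.X) ^ I.card +
        (Polynomial.aeval (RatFunc.X : RatFunc ℚ) (P1 (vp v) (Ip I))) /
          (1 - RatFunc.X) ^ (I.card + 1) else 0) := by
      unfold gX kX
      rw [Finset.mul_sum, Finset.mul_sum, ← Finset.sum_add_distrib]
      refine Finset.sum_congr rfl fun I _ => ?_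
      split_ifs
      · generalize (Polynomial.aeval (RatFunc.X : RatFunc ℚ)) (P1 (vp v) (Ip I)) /
          (1 - RatFunc.X) ^ (I.card + 1) = B
        generalize (Polynomial.aeval (RatFunc.X : RatFunc ℚ)) (P1 v I) /
          (1 - RatFunc.X) ^ I.card = A
        field_simp
        ring
      · simp
    rw [hui, huv]
    have h3 : (1 - gX v ω τ - RatFunc.X * kX v ω τ) = 1 + (RatFunc.X - 1) *
        ∑ I ∈ τ.powerset, (if TT v ω I then
        (Polynomial.aeval (RatFunc.X : RatFunc ℚ) (P1 v I)) / (1 - RatFunc.X) ^ I.card +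
        (Polynomial.aeval (RatFunc.X : RatFunc ℚ) (P1 (vp v) (Ip I))) /
          (1 - RatFunc.X) ^ (I.card + 1) else 0) := by
      linear_combination -h2
    rw [h3]
    have hp : (RatFunc.X - 1 : RatFunc ℚ) ^ frc v Finset.univ τ ≠ 0 := pow_ne_zero _ hX1
    apply mul_right_cancel₀ hp
    rw [h1, div_eq_mul_inv]
    ring
  · intro τ hτ
    have h1 := hval1 τ hτ
    rw [hpow τ, pow_succ, hpow τ] at h1
    rw [hui, huv]
    have hp : (RatFunc.X - 1 : RatFunc ℚ) ^ frc v Finset.univ τ ≠ 0 := pow_ne_zero _ hX1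
    apply mul_right_cancel₀ hp
    rw [h1, div_eq_mul_inv]
    ring

end Pool.Agent.Y228.HX
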